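import Mathlib

set_option autoImplicit false

namespace Pool.Agent.Helper85.BWD

open Filter Topology Set Metric

/-! ### Logarithms on discs and the Harnack inequality -/

theorem exists_log_ball {F : ℂ → ℂ} {c : ℂ} {R : ℝ} (hR : 0 < R)
    (hF : DifferentiableOn ℂ F (ball c R)) (h0 : ∀ z ∈ ball c R, F z ≠ 0) :
    ∃ L : ℂ → ℂ, (∀ z ∈ ball c R, HasDerivAt L (deriv F z / F z) z) ∧
      (∀ z ∈ ball c R, Complex.exp (L z) = F z) := by
  have hc : c ∈ ball c R := mem_ball_self hR
  have hdF : ∀ z ∈ ball c R, HasDerivAt F (deriv F z) z := fun z hz =>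
    (hF.differentiableAt (isOpen_ball.mem_nhds hz)).hasDerivAt
  have hG : DifferentiableOn ℂ (fun z => deriv F z / F z) (ball c R) :=
    (hF.deriv isOpen_ball).div hF h0
  obtain ⟨L, hLc, hL⟩ := hG.isExactOn_ball.with_val_at c (Complex.log (F c))
  refine ⟨L, hL, ?_⟩
  -- F * exp (-L) is constant
  have hder : ∀ z ∈ ball c R, HasDerivAt (fun z => F z * Complex.exp (-L z)) 0 z := by
    intro z hz
    have h1 := (hdF z hz).mul ((hL z hz).neg.cexp)
    have hz0 := h0 z hz
    have e : deriv F z * Complex.exp (-L z) + F z * (Complex.exp (-L z) * -(deriv F z / F z)) = 0 := by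
      field_simp
      ring
    rw [← e]
    exact h1
  have hconst : ∀ z ∈ ball c R, F z * Complex.exp (-L z) = F c * Complex.exp (-L c) := by
    intro z hz
    have := (convex_ball c R).is_const_of_fderivWithin_eq_zero (𝕜 := ℂ)
      (f := fun z => F z * Complex.exp (-L z))
      (fun w hw => (hder w hw).differentiableAt.differentiableWithinAt)
      (fun w hw => by
        rw [fderivWithin_of_isOpen isOpen_ball hw]
        have := (hder w hw).hasFDerivAt.fderiv
        rw [this]
        ext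
        simp) hz hc
    exact this
  intro z hz
  have h1 := hconst z hz
  rw [hLc, Complex.exp_neg (Complex.log (F c)), Complex.exp_log (h0 c hc),
    mul_inv_cancel₀ (h0 c hc)] at h1
  rw [Complex.exp_neg] at h1
  field_simp at h1
  exact h1.symm

/-- Schwarz–Pick for maps of a disc into the right half plane. -/
theorem halfplane_schwarz {L : ℂ → ℂ} {c : ℂ} {R : ℝ} (hR : 0 < R)
    (hL : DifferentiableOn ℂ L (ball c R)) (hpos : ∀ z ∈ ball c R, 0 < (L z).re)
    {z : ℂ} (hz : z ∈ ball c R) :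
    ‖L z - L c‖ ≤ dist z c / R * ‖L z + (starRingEnd ℂ) (L c)‖ := by
  have hc : c ∈ ball c R := mem_ball_self hR
  have hne : ∀ w ∈ ball c R, L w + (starRingEnd ℂ) (L c) ≠ 0 := by
    intro w hw h
    have h1 := hpos w hw
    have h2 := hpos c hc
    have := congrArg Complex.re h
    simp at this
    linarith
  have hd : DifferentiableOn ℂ (fun w => (L w - L c) / (L w + (starRingEnd ℂ) (L c)))
      (ball c R) := (hL.sub_const _).div (hL.add_const _) hne
  have hmaps : MapsTo (fun w => (L w - L c) / (L w + (starRingEnd ℂ) (L c))) (ball c R)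
      (closedBall ((fun w => (L w - L c) / (L w + (starRingEnd ℂ) (L c))) c) 1) := by
    intro w hw
    simp only [sub_self, zero_div, mem_closedBall, dist_zero_right]
    rw [norm_div]
    apply div_le_one_of_le₀ _ (norm_nonneg _)
    rw [← sq_le_sq₀ (norm_nonneg _) (norm_nonneg _), Complex.sq_norm, Complex.sq_norm,
      Complex.normSq_apply, Complex.normSq_apply]
    have h1 := hpos w hw
    have h2 := hpos c hc
    simp only [Complex.sub_re, Complex.sub_im, Complex.add_re, Complex.add_im, Complex.conj_re,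
      Complex.conj_im]
    nlinarith
  have := Complex.dist_le_div_mul_dist_of_mapsTo_ball hd hmaps hz
  simp only [sub_self, zero_div, dist_zero_right] at this
  rw [norm_div] at this
  have hpos' : 0 < ‖L z + (starRingEnd ℂ) (L c)‖ := norm_pos_iff.mpr (hne z hz)
  rw [div_le_iff₀ hpos'] at this
  calc ‖L z - L c‖ ≤ 1 / R * dist z c * ‖L z + (starRingEnd ℂ) (L c)‖ := this
    _ = _ := by ring

theorem halfplane_harnack {L : ℂ → ℂ} {c : ℂ} {R : ℝ} (hR : 0 < R)
    (hL : DifferentiableOn ℂ L (ball c R)) (hpos : ∀ z ∈ ball c R, 0 < (L z).re)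
    {z : ℂ} (hz : z ∈ ball c R) :
    (R - dist z c) * (L z).re ≤ (R + dist z c) * (L c).re ∧
    (R - dist z c) * (L c).re ≤ (R + dist z c) * (L z).re := by
  have hc : c ∈ ball c R := mem_ball_self hR
  have h := halfplane_schwarz hR hL hpos hz
  have h1 := hpos z hz
  have h2 := hpos c hc
  have hzR : dist z c < R := hz
  have hd0 : 0 ≤ dist z c := dist_nonneg
  set x := (L z).re with hx
  set p := (L c).re with hp
  have hsq : ‖L z - L c‖ ^ 2 ≤ (dist z c / R) ^ 2 * ‖L z + (starRingEnd ℂ) (L c)‖ ^ 2 := by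
    rw [← mul_pow]
    exact pow_le_pow_left₀ (norm_nonneg _) h 2
  rw [Complex.sq_norm, Complex.sq_norm, Complex.normSq_apply, Complex.normSq_apply] at hsq
  simp only [Complex.sub_re, Complex.sub_im, Complex.add_re, Complex.add_im, Complex.conj_re,
      Complex.conj_im, ← hx, ← hp] at hsq
  set ρ := dist z c / R with hρ
  have hρ1 : ρ < 1 := (div_lt_one hR).mpr hzR
  have hρ0 : 0 ≤ ρ := div_nonneg hd0 hR.le
  have hkey : (x - p) ^ 2 ≤ (ρ * (x + p)) ^ 2 := by
    have : ρ ^ 2 ≤ 1 := by nlinarith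
    nlinarith [sq_nonneg ((L z).im - (L c).im), mul_nonneg (sub_nonneg.mpr this)
      (sq_nonneg ((L z).im - (L c).im))]
  have habs : |x - p| ≤ ρ * (x + p) := abs_le_of_sq_le_sq hkey (by positivity)
  rw [abs_le] at habs
  have hρR : ρ * R = dist z c := by
    rw [hρ]; field_simp
  constructor
  · have : (x - p) * R ≤ ρ * (x + p) * R := mul_le_mul_of_nonneg_right habs.2 hR.le
    nlinarith
  · have : (-(ρ * (x + p))) * R ≤ (x - p) * R := mul_le_mul_of_nonneg_right habs.1 hR.le
    nlinarith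

theorem halfplane_dist {L : ℂ → ℂ} {c : ℂ} {R : ℝ} (hR : 0 < R)
    (hL : DifferentiableOn ℂ L (ball c R)) (hpos : ∀ z ∈ ball c R, 0 < (L z).re)
    {z : ℂ} (hz : z ∈ ball c R) :
    (R - dist z c) * ‖L z - L c‖ ≤ 2 * dist z c * (L c).re := by
  have hc : c ∈ ball c R := mem_ball_self hR
  have h := halfplane_schwarz hR hL hpos hz
  have h2 := hpos c hc
  have h3 : ‖L z + (starRingEnd ℂ) (L c)‖ ≤ ‖L z - L c‖ + 2 * (L c).re := by
    have e : L z + (starRingEnd ℂ) (L c) = (L z - L c) + ((2 * (L c).re : ℝ) : ℂ) := by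
      have := Complex.add_conj (L c)
      rw [← this]
      ring
    rw [e]
    refine (norm_add_le _ _).trans ?_
    rw [Complex.norm_real, Real.norm_eq_abs, abs_of_pos (by linarith)]
  have h4 : ‖L z - L c‖ * R ≤ dist z c * ‖L z + (starRingEnd ℂ) (L c)‖ := by
    have := mul_le_mul_of_nonneg_right h hR.le
    calc ‖L z - L c‖ * R ≤ dist z c / R * ‖L z + (starRingEnd ℂ) (L c)‖ * R := this
      _ = _ := by field_simp
  have h5 : dist z c * ‖L z + (starRingEnd ℂ) (L c)‖ ≤
      dist z c * (‖L z - L c‖ + 2 * (L c).re) := mul_le_mul_of_nonneg_left h3 dist_nonneg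
  nlinarith

/-- **Harnack's inequality** for `log ‖F‖`. -/
theorem harnack {F : ℂ → ℂ} {c : ℂ} {R : ℝ}
    (hF : DifferentiableOn ℂ F (ball c R)) (h1 : ∀ z ∈ ball c R, 1 < ‖F z‖)
    {z : ℂ} (hz : z ∈ ball c R) :
    (R - dist z c) * Real.log ‖F z‖ ≤ (R + dist z c) * Real.log ‖F c‖ ∧
    (R - dist z c) * Real.log ‖F c‖ ≤ (R + dist z c) * Real.log ‖F z‖ := by
  have hR : 0 < R := pos_of_mem_ball hz
  have hc : c ∈ ball c R := mem_ball_self hR
  have h0 : ∀ z ∈ ball c R, F z ≠ 0 := by
    intro w hw h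
    have := h1 w hw
    rw [h, norm_zero] at this
    linarith
  obtain ⟨L, hL, hexp⟩ := exists_log_ball hR hF h0
  have hre : ∀ w ∈ ball c R, (L w).re = Real.log ‖F w‖ := by
    intro w hw
    rw [← hexp w hw, Complex.norm_exp, Real.log_exp]
  have hpos : ∀ w ∈ ball c R, 0 < (L w).re := by
    intro w hw
    rw [hre w hw]
    exact Real.log_pos (h1 w hw)
  have := halfplane_harnack hR (fun w hw => (hL w hw).differentiableAt.differentiableWithinAt)
    hpos hz
  rwa [hre z hz, hre c hc] at this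

/-- Harnack's inequality with constant `3` on the half disc. -/
theorem harnack_three {F : ℂ → ℂ} {c : ℂ} {R : ℝ}
    (hF : DifferentiableOn ℂ F (ball c R)) (h1 : ∀ z ∈ ball c R, 1 < ‖F z‖)
    {z : ℂ} (hz : z ∈ ball c (R / 2)) :
    Real.log ‖F z‖ ≤ 3 * Real.log ‖F c‖ ∧ Real.log ‖F c‖ ≤ 3 * Real.log ‖F z‖ := by
  have hR2 : 0 < R / 2 := pos_of_mem_ball hz
  have hR : 0 < R := by linarith
  have hzR : z ∈ ball c R := ball_subset_ball (by linarith) hz
  have h := harnack hF h1 hzR
  have hd : dist z c < R / 2 := hz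
  have hc : c ∈ ball c R := mem_ball_self hR
  have hlz : 0 < Real.log ‖F z‖ := Real.log_pos (h1 z hzR)
  have hlc : 0 < Real.log ‖F c‖ := Real.log_pos (h1 c hc)
  constructor
  · have h3 := h.1
    have : R / 2 * Real.log ‖F z‖ ≤ (3 * (R / 2)) * Real.log ‖F c‖ := by
      nlinarith
    nlinarith
  · have h3 := h.2
    have : R / 2 * Real.log ‖F c‖ ≤ (3 * (R / 2)) * Real.log ‖F z‖ := by
      nlinarith
    nlinarith

end Pool.Agent.Helper85.BWD
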