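import Pool.Agent.Helper85.BWD.Analysis

set_option autoImplicit false

namespace Pool.Agent.Helper85.BWD

open Filter Topology Set Metric


/-- A three circles theorem for radii `r, 2r, 4r`. -/
theorem three_circles {F : ℂ → ℂ} {c : ℂ} {r A B : ℝ} (hr : 0 < r) (hF : Differentiable ℂ F)
    (hA : ∀ z ∈ closedBall c r, ‖F z‖ ≤ A) (hB : ∀ z ∈ closedBall c (4 * r), ‖F z‖ ≤ B)
    {z : ℂ} (hz : z ∈ closedBall c (2 * r)) : ‖F z‖ ^ 2 ≤ A * B := by
  have hA0 : 0 ≤ A := (norm_nonneg _).trans (hA c (mem_closedBall_self hr.le))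
  have hB0 : 0 ≤ B := (norm_nonneg _).trans (hB c (mem_closedBall_self (by linarith)))
  -- first the sphere of radius `2 r`
  have hs : ∀ z ∈ sphere c (2 * r), ‖F z‖ ^ 2 ≤ A * B := by
    intro z hz
    have hzn : ‖z - c‖ = 2 * r := by simpa [dist_eq_norm] using hz
    let U : Set ℂ := (fun w : ℂ => ‖w‖) ⁻¹' (Ioo (1 / 2 : ℝ) 2)
    have hUb : Bornology.IsBounded U := by
      apply (isBounded_ball (x := (0 : ℂ)) (r := 2)).subset
      intro w hw
      simpa using hw.2
    have hcl : closure U ⊆ {w : ℂ | w ≠ 0} := by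
      intro w hw
      have h1 : w ∈ (fun w : ℂ => ‖w‖) ⁻¹' (closure (Ioo (1 / 2 : ℝ) 2)) :=
        continuous_norm.closure_preimage_subset _ hw
      rw [closure_Ioo (by norm_num)] at h1
      have h2 : (1 / 2 : ℝ) ≤ ‖w‖ := h1.1
      intro h0
      rw [h0, norm_zero] at h2
      norm_num at h2
    let φ : ℂ → ℂ := fun w => F (c + (z - c) * w) * F (c + (z - c) * w⁻¹)
    have hφ : DiffContOnCl ℂ φ U := by
      apply DifferentiableOn.diffContOnCl
      intro w hw
      have hw0 : w ≠ 0 := hcl hw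
      apply DifferentiableAt.differentiableWithinAt
      apply DifferentiableAt.mul
      · exact (hF _).comp _ (by fun_prop)
      · exact (hF _).comp _ ((differentiableAt_const _).add
          ((differentiableAt_const _).mul (differentiableAt_inv hw0)))
    have hfr : ∀ w ∈ frontier U, ‖φ w‖ ≤ A * B := by
      intro w hw
      have h1 : w ∈ (fun w : ℂ => ‖w‖) ⁻¹' (frontier (Ioo (1 / 2 : ℝ) 2)) :=
        continuous_norm.frontier_preimage_subset _ hw
      rw [frontier_Ioo (by norm_num)] at h1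
      have key : ∀ w : ℂ, ‖w‖ = 1 / 2 → ‖F (c + (z - c) * w)‖ ≤ A := by
        intro w hw
        apply hA
        rw [mem_closedBall, dist_eq_norm]
        have : c + (z - c) * w - c = (z - c) * w := by ring
        rw [this, norm_mul, hzn, hw]
        linarith
      have key2 : ∀ w : ℂ, ‖w‖ = 2 → ‖F (c + (z - c) * w)‖ ≤ B := by
        intro w hw
        apply hB
        rw [mem_closedBall, dist_eq_norm]
        have : c + (z - c) * w - c = (z - c) * w := by ring
        rw [this, norm_mul, hzn, hw]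
        linarith
      change ‖F (c + (z - c) * w) * F (c + (z - c) * w⁻¹)‖ ≤ A * B
      rw [norm_mul]
      rcases h1 with h1 | h1
      · have h1' : ‖w‖ = 1 / 2 := h1
        apply mul_le_mul (key w h1') (key2 _ _) (norm_nonneg _) hA0
        rw [norm_inv, h1']; norm_num
      · have h1' : ‖w‖ = 2 := h1
        rw [mul_comm A B]
        apply mul_le_mul (key2 w h1') (key _ _) (norm_nonneg _) hB0
        rw [norm_inv, h1']; norm_num
    have h1U : (1 : ℂ) ∈ closure U := by
      apply subset_closure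
      change ‖(1 : ℂ)‖ ∈ Ioo (1 / 2 : ℝ) 2
      rw [norm_one]
      constructor <;> norm_num
    have := Complex.norm_le_of_forall_mem_frontier_norm_le hUb hφ hfr h1U
    have e : φ 1 = F z * F z := by
      change F (c + (z - c) * 1) * F (c + (z - c) * 1⁻¹) = F z * F z
      simp
    rw [e, norm_mul] at this
    nlinarith
  -- the maximum principle
  have hmax : ‖F z‖ ≤ Real.sqrt (A * B) := by
    have hfr : ∀ w ∈ frontier (ball c (2 * r)), ‖F w‖ ≤ Real.sqrt (A * B) := by
      intro w hw
      rw [frontier_ball c (by linarith)] at hw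
      exact Real.le_sqrt_of_sq_le (hs w hw)
    apply Complex.norm_le_of_forall_mem_frontier_norm_le isBounded_ball hF.diffContOnCl hfr
    rw [closure_ball c (by linarith)]
    exact hz
  calc ‖F z‖ ^ 2 ≤ (Real.sqrt (A * B)) ^ 2 := pow_le_pow_left₀ (norm_nonneg _) hmax 2
    _ = A * B := Real.sq_sqrt (mul_nonneg hA0 hB0)

/-- Growth of transcendental entire functions. -/
theorem growth_of_not_polynomial {f : ℂ → ℂ} (hf : Differentiable ℂ f)
    (hft : ¬ ∃ p : Polynomial ℂ, ∀ z, f z = p.eval z) (K : ℕ) :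
    ∃ r₀ : ℝ, ∀ r, r₀ ≤ r → ∃ z ∈ sphere (0 : ℂ) r, r ^ K ≤ ‖f z‖ := by
  by_contra hcon
  push Not at hcon
  apply hft
  -- all derivatives of order `> K` vanish at `0`
  have hder : ∀ n, K < n → iteratedDeriv n f 0 = 0 := by
    intro n hn
    rw [← norm_le_zero_iff]
    apply le_of_forall_pos_le_add
    intro ε hε
    -- choose r large with n! * r^K / r^n ≤ ε
    obtain ⟨r, hr1, hr2⟩ := hcon (max 1 ((n.factorial : ℝ) / ε))
    have hr1' : 1 ≤ r := (le_max_left _ _).trans hr1
    have hr0 : 0 < r := by linarith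
    have hb := Complex.norm_iteratedDeriv_le_of_forall_mem_sphere_norm_le (F := ℂ) (c := (0 : ℂ)) n hr0
      (hf.diffContOnCl) (C := r ^ K) (fun z hz => (hr2 z hz).le)
    refine hb.trans ?_
    rw [zero_add]
    rw [div_le_iff₀ (by positivity)]
    have h1 : (n.factorial : ℝ) ≤ ε * r := by
      have := (le_max_right _ _).trans hr1
      rw [div_le_iff₀ hε] at this
      linarith
    calc (n.factorial : ℝ) * r ^ K ≤ (ε * r) * r ^ K := by gcongr
      _ = ε * r ^ (K + 1) := by ring
      _ ≤ ε * r ^ n := by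
        gcongr
        exact hn
  -- hence `f` is its Taylor polynomial
  refine ⟨∑ n ∈ Finset.range (K + 1), Polynomial.C ((n.factorial : ℂ)⁻¹ * iteratedDeriv n f 0) *
    Polynomial.X ^ n, ?_⟩
  intro z
  have hT := Complex.hasSum_taylorSeries_of_entire hf (0 : ℂ) z
  have hfin : HasSum (fun n : ℕ => (n.factorial : ℂ)⁻¹ • (z - 0) ^ n • iteratedDeriv n f 0)
      (∑ n ∈ Finset.range (K + 1), (n.factorial : ℂ)⁻¹ • (z - 0) ^ n • iteratedDeriv n f 0) := by
    apply hasSum_sum_of_ne_finset_zero
    intro n hn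
    rw [Finset.mem_range, not_lt] at hn
    rw [hder n (by omega)]
    simp
  rw [hT.unique hfin]
  simp only [Polynomial.eval_finsetSum, Polynomial.eval_mul, Polynomial.eval_C,
    Polynomial.eval_pow, Polynomial.eval_X, smul_eq_mul, sub_zero]
  apply Finset.sum_congr rfl
  intro n _
  ring



theorem isPreconnected_annulus {c₁ c₂ : ℝ} (h : 0 < c₁) :
    IsPreconnected {w : ℂ | c₁ < ‖w‖ ∧ ‖w‖ < c₂} := by
  have e : {w : ℂ | c₁ < ‖w‖ ∧ ‖w‖ < c₂} =
      Complex.exp '' {ζ : ℂ | c₁ < Real.exp ζ.re ∧ Real.exp ζ.re < c₂} := by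
    ext w
    constructor
    · intro hw
      have hw0 : w ≠ 0 := by
        intro h0
        have := hw.1
        rw [h0, norm_zero] at this
        linarith
      refine ⟨Complex.log w, ?_, Complex.exp_log hw0⟩
      have : Real.exp (Complex.log w).re = ‖w‖ := by
        rw [← Complex.norm_exp, Complex.exp_log hw0]
      change c₁ < Real.exp (Complex.log w).re ∧ Real.exp (Complex.log w).re < c₂
      rw [this]
      exact hw
    · rintro ⟨ζ, hζ, rfl⟩
      change c₁ < ‖Complex.exp ζ‖ ∧ ‖Complex.exp ζ‖ < c₂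
      rw [Complex.norm_exp]
      exact hζ
  rw [e]
  apply IsPreconnected.image _ _ Complex.continuous_exp.continuousOn
  apply Convex.isPreconnected
  have : {ζ : ℂ | c₁ < Real.exp ζ.re ∧ Real.exp ζ.re < c₂} =
      {ζ : ℂ | Real.log c₁ < ζ.re} ∩ (if 0 < c₂ then {ζ : ℂ | ζ.re < Real.log c₂} else ∅) := by
    ext ζ
    split_ifs with h2
    · simp only [mem_ofPred_eq, mem_inter_iff, Real.log_lt_iff_lt_exp h, Real.lt_log_iff_exp_lt h2]
    · simp only [mem_ofPred_eq, inter_empty, mem_empty_iff_false, iff_false, not_and]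
      intro _ h3
      exact h2 ((Real.exp_pos _).trans h3)
  rw [this]
  apply Convex.inter
  · exact convex_halfSpace_re_gt _
  · split_ifs
    · exact convex_halfSpace_re_lt _
    · exact convex_empty

/-- Covering of annuli. -/
theorem covering_annulus {f : ℂ → ℂ} {r₁ r₂ c₁ c₂ : ℝ} (hr₁ : 0 < r₁) (hr : r₁ < r₂)
    (hf : Differentiable ℂ f) (hc₁ : 0 < c₁)
    (h1 : ∀ z : ℂ, ‖z‖ = r₁ → ‖f z‖ ≤ c₁) (h2 : ∀ z : ℂ, ‖z‖ = r₂ → c₂ ≤ ‖f z‖)
    {w : ℂ} (hw : c₁ < ‖w‖) (hw' : ‖w‖ < c₂) : ∃ z : ℂ, r₁ < ‖z‖ ∧ ‖z‖ < r₂ ∧ f z = w := by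
  set A : Set ℂ := {z : ℂ | r₁ < ‖z‖ ∧ ‖z‖ < r₂} with hA
  set A' : Set ℂ := {z : ℂ | r₁ ≤ ‖z‖ ∧ ‖z‖ ≤ r₂} with hA'
  set T : Set ℂ := {w : ℂ | c₁ < ‖w‖ ∧ ‖w‖ < c₂} with hT
  have hAo : IsOpen A :=
    (isOpen_lt continuous_const continuous_norm).inter (isOpen_lt continuous_norm continuous_const)
  have hA'c : IsCompact A' := by
    apply Metric.isCompact_of_isClosed_isBounded
    · exact (isClosed_le continuous_const continuous_norm).inter
        (isClosed_le continuous_norm continuous_const)
    · apply (isBounded_closedBall (x := (0 : ℂ)) (r := r₂)).subset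
      intro z hz
      simpa using hz.2
  have hopen : IsOpenMap f := by
    have han : AnalyticOnNhd ℂ f univ := fun z _ => hf.analyticAt z
    rcases han.is_constant_or_isOpenMap with ⟨v, hv⟩ | h
    · exfalso
      have e1 : ‖((r₁ : ℝ) : ℂ)‖ = r₁ := by rw [Complex.norm_real, Real.norm_eq_abs, abs_of_pos hr₁]
      have e2 : ‖((r₂ : ℝ) : ℂ)‖ = r₂ := by
        rw [Complex.norm_real, Real.norm_eq_abs, abs_of_pos (hr₁.trans hr)]
      have i1 := h1 _ e1
      have i2 := h2 _ e2
      rw [hv] at i1 i2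
      linarith
    · exact h
  have hsub : T ⊆ f '' A := by
    apply IsPreconnected.subset_left_of_subset_union (hopen A hAo)
      (hA'c.image hf.continuous).isClosed.isOpen_compl
    · rw [Set.disjoint_left]
      rintro x ⟨z, hz, rfl⟩ hx
      exact hx ⟨z, ⟨hz.1.le, hz.2.le⟩, rfl⟩
    · intro x hx
      by_cases hxA : x ∈ f '' A'
      · left
        obtain ⟨z, hz, rfl⟩ := hxA
        refine ⟨z, ⟨lt_of_le_of_ne hz.1 ?_, lt_of_le_of_ne hz.2 ?_⟩, rfl⟩
        · intro h
          have := h1 z h.symm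
          have := hx.1
          linarith
        · intro h
          have := h2 z h
          have := hx.2
          linarith
      · right
        exact hxA
    · -- nonempty
      have hcont : ContinuousOn (fun t : ℝ => ‖f (t : ℂ)‖) (Icc r₁ r₂) :=
        (hf.continuous.comp Complex.continuous_ofReal).norm.continuousOn
      have hmem : ‖w‖ ∈ Icc (‖f (r₁ : ℂ)‖) (‖f (r₂ : ℂ)‖) := by
        constructor
        · refine (h1 _ ?_).trans hw.le
          rw [Complex.norm_real, Real.norm_eq_abs, abs_of_pos hr₁]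
        · refine hw'.le.trans (h2 _ ?_)
          rw [Complex.norm_real, Real.norm_eq_abs, abs_of_pos (hr₁.trans hr)]
      obtain ⟨t, ht, hft⟩ := intermediate_value_Icc hr.le hcont hmem
      have htp : 0 < t := hr₁.trans_le ht.1
      have hnt : ‖(t : ℂ)‖ = t := by rw [Complex.norm_real, Real.norm_eq_abs, abs_of_pos htp]
      have hft' : ‖f (t : ℂ)‖ = ‖w‖ := hft
      refine ⟨f t, ⟨by rw [hft']; exact hw, by rw [hft']; exact hw'⟩, (t : ℂ), ⟨?_, ?_⟩, rfl⟩
      · rw [hnt]
        apply lt_of_le_of_ne ht.1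
        intro h
        have := h1 (t : ℂ) (by rw [hnt, h])
        linarith
      · rw [hnt]
        apply lt_of_le_of_ne ht.2
        intro h
        have := h2 (t : ℂ) (by rw [hnt, h])
        linarith
    · exact isPreconnected_annulus hc₁
  obtain ⟨z, hz, hfz⟩ := hsub ⟨hw, hw'⟩
  exact ⟨z, hz.1, hz.2, hfz⟩

/-- A quantitative open mapping theorem for maps into the half plane. -/
theorem bloch_like {L : ℂ → ℂ} {c : ℂ} {R μ : ℝ} (hR : 0 < R)
    (hL : DifferentiableOn ℂ L (ball c R))
    (hdist : ∀ z ∈ ball c (R / 2), ‖L z - L c‖ ≤ 2 * (L c).re) (hp : 0 < (L c).re)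
    (hμ : 0 < μ) (hμR : μ * R ≤ 4) (hder : μ * (L c).re ≤ ‖deriv L c‖) :
    ball (L c) (μ ^ 2 * R ^ 2 / 128 * (L c).re) ⊆ L '' ball c (R / 2) := by
  set p := (L c).re with hpdef
  have hR2 : 0 < R / 2 := by linarith
  have hsub : ball c (R / 2) ⊆ ball c R := ball_subset_ball (by linarith)
  have hL2 : DifferentiableOn ℂ L (ball c (R / 2)) := hL.mono hsub
  have hmaps : MapsTo L (ball c (R / 2)) (closedBall (L c) (2 * p)) := by
    intro z hz
    rw [mem_closedBall, dist_eq_norm]
    exact hdist z hz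
  have hds : ∀ z ∈ ball c (R / 2), ‖dslope L c z‖ ≤ 4 * p / R := by
    intro z hz
    have := Complex.norm_dslope_le_div_of_mapsTo_ball hL2 hmaps hz
    refine this.trans (le_of_eq ?_)
    field_simp
    ring
  have hdsd : DifferentiableOn ℂ (dslope L c) (ball c (R / 2)) :=
    (Complex.differentiableOn_dslope (ball_mem_nhds c hR2)).2 hL2
  have hmaps2 : MapsTo (dslope L c) (ball c (R / 2)) (closedBall (dslope L c c) (8 * p / R)) := by
    intro z hz
    rw [mem_closedBall, dist_eq_norm]
    calc ‖dslope L c z - dslope L c c‖ ≤ ‖dslope L c z‖ + ‖dslope L c c‖ := norm_sub_le _ _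
      _ ≤ 4 * p / R + 4 * p / R := add_le_add (hds z hz) (hds c (mem_ball_self hR2))
      _ = 8 * p / R := by ring
  have hds2 : ∀ z ∈ ball c (R / 2), ‖dslope L c z - dslope L c c‖ ≤ 16 * p / R ^ 2 * dist z c := by
    intro z hz
    have := Complex.dist_le_div_mul_dist_of_mapsTo_ball hdsd hmaps2 hz
    rw [dist_eq_norm] at this
    refine this.trans (le_of_eq ?_)
    field_simp
    ring
  set r := μ * R ^ 2 / 32 with hr
  have hr0 : 0 < r := by positivity
  have hrR : r < R / 2 := by
    have : μ * R * R ≤ 4 * R := mul_le_mul_of_nonneg_right hμR hR.le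
    rw [hr]
    nlinarith
  have hcl : closedBall c r ⊆ ball c (R / 2) := closedBall_subset_ball hrR
  have hlow : ∀ z ∈ sphere c r, μ * r / 2 * p ≤ ‖L z - L c‖ := by
    intro z hz
    have hzn : ‖z - c‖ = r := by simpa [dist_eq_norm] using hz
    have hzb : z ∈ ball c (R / 2) := hcl (sphere_subset_closedBall hz)
    have h1 := hds2 z hzb
    rw [dslope_same, dist_eq_norm, hzn] at h1
    have h2 : L z - L c = (z - c) * dslope L c z := by
      have := sub_smul_dslope L c z
      rw [smul_eq_mul] at this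
      exact this.symm
    rw [h2, norm_mul, hzn]
    have h3 : ‖deriv L c‖ - 16 * p / R ^ 2 * r ≤ ‖dslope L c z‖ := by
      have := norm_sub_norm_le (deriv L c) (deriv L c - dslope L c z)
      rw [sub_sub_cancel] at this
      rw [norm_sub_rev] at h1
      linarith
    have h4 : 16 * p / R ^ 2 * r = μ * p / 2 := by
      rw [hr]
      field_simp
      ring
    have h5 : μ * p / 2 ≤ ‖dslope L c z‖ := by linarith
    calc μ * r / 2 * p = r * (μ * p / 2) := by ring
      _ ≤ r * ‖dslope L c z‖ := mul_le_mul_of_nonneg_left h5 hr0.le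
  have hdc : DiffContOnCl ℂ L (ball c r) := by
    apply DifferentiableOn.diffContOnCl
    rw [closure_ball c hr0.ne']
    exact hL2.mono hcl
  have hne : ∃ᶠ z in 𝓝 c, L z ≠ L c := by
    intro hcon
    simp only [not_not] at hcon
    have : deriv L c = 0 := by
      have h1 : L =ᶠ[𝓝 c] fun _ => L c := hcon
      rw [h1.deriv_eq]
      simp
    rw [this, norm_zero] at hder
    have : 0 < μ * p := mul_pos hμ hp
    linarith
  have := hdc.ball_subset_image_closedBall hr0 hlow hne
  have e : μ * r / 2 * p / 2 = μ ^ 2 * R ^ 2 / 128 * p := by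
    rw [hr]
    ring
  rw [e] at this
  exact this.trans (image_mono hcl)



/-- The average of `log ‖f‖` over the circle of radius `exp s`. -/
noncomputable def avgLog (f : ℂ → ℂ) (s : ℝ) : ℝ :=
  Real.circleAverage (fun z => Real.log ‖f z‖) 0 (Real.exp s)

/-- The number of zeros of `f` in the closed disc of radius `exp s`. -/
noncomputable def zeroCount (f : ℂ → ℂ) (s : ℝ) : ℝ :=
  ∑ᶠ u, ((MeromorphicOn.divisor f (closedBall 0 (Real.exp s)) u : ℤ) : ℝ)

theorem finite_support_divisor (f : ℂ → ℂ) (s : ℝ) :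
    (Function.support (fun u => MeromorphicOn.divisor f (closedBall 0 (Real.exp s)) u)).Finite :=
  (MeromorphicOn.divisor f (closedBall 0 (Real.exp s))).finiteSupport
    (isCompact_closedBall _ _)

theorem jensen {f : ℂ → ℂ} (hf : Differentiable ℂ f) (s : ℝ) :
    avgLog f s = ∑ᶠ u, ((MeromorphicOn.divisor f (closedBall 0 (Real.exp s)) u : ℤ) : ℝ) *
      (s - Real.log ‖u‖) + Real.log ‖meromorphicTrailingCoeffAt f 0‖ := by
  have hR : Real.exp s ≠ 0 := (Real.exp_pos s).ne'
  have habs : |Real.exp s| = Real.exp s := abs_of_pos (Real.exp_pos s)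
  have h := MeromorphicOn.circleAverage_log_norm (c := 0) (f := f) hR
    (fun z _ => (hf.analyticAt z).meromorphicAt)
  rw [habs] at h
  have h2 := countingFunction_finsum_eq_finsum_add (c := 0) (R := Real.exp s)
    (D := fun u => MeromorphicOn.divisor f (closedBall 0 (Real.exp s)) u) hR
    (finite_support_divisor f s)
  unfold avgLog
  rw [h, ← h2, Real.log_exp]
  simp

theorem divisor_nonneg' {f : ℂ → ℂ} (hf : Differentiable ℂ f) (s : ℝ) (u : ℂ) :
    0 ≤ MeromorphicOn.divisor f (closedBall 0 (Real.exp s)) u :=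
  MeromorphicOn.AnalyticOnNhd.divisor_nonneg (fun z _ => hf.analyticAt z) u

theorem divisor_eq_of_le {f : ℂ → ℂ} (hf : Differentiable ℂ f) {s s' : ℝ} (h : s ≤ s') {u : ℂ}
    (hu : ‖u‖ ≤ Real.exp s) : MeromorphicOn.divisor f (closedBall 0 (Real.exp s')) u =
      MeromorphicOn.divisor f (closedBall 0 (Real.exp s)) u := by
  have hm : ∀ U : Set ℂ, MeromorphicOn f U := fun U z _ => (hf.analyticAt z).meromorphicAt
  rw [MeromorphicOn.divisor_apply (hm _), MeromorphicOn.divisor_apply (hm _)]
  · simpa using hu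
  · have : Real.exp s ≤ Real.exp s' := Real.exp_le_exp.mpr h
    simpa using hu.trans this

theorem divisor_eq_zero_of_lt (f : ℂ → ℂ) {s : ℝ} {u : ℂ}
    (hu : Real.exp s < ‖u‖) : MeromorphicOn.divisor f (closedBall 0 (Real.exp s)) u = 0 := by
  apply Function.locallyFinsuppWithin.apply_eq_zero_of_notMem
  simpa using hu

theorem divisor_eq_zero_of_ne {f : ℂ → ℂ} (hf : Differentiable ℂ f) {s : ℝ} {u : ℂ}
    (hu : f u ≠ 0) : MeromorphicOn.divisor f (closedBall 0 (Real.exp s)) u = 0 := by
  have hm : ∀ U : Set ℂ, MeromorphicOn f U := fun U z _ => (hf.analyticAt z).meromorphicAt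
  by_cases h : u ∈ closedBall (0 : ℂ) (Real.exp s)
  · rw [MeromorphicOn.divisor_apply (hm _) h, (hf.analyticAt u).meromorphicOrderAt_eq,
      ((hf.analyticAt u).analyticOrderAt_eq_zero).mpr hu]
    simp
  · exact Function.locallyFinsuppWithin.apply_eq_zero_of_notMem _ h

theorem zeroCount_nonneg {f : ℂ → ℂ} (hf : Differentiable ℂ f) (s : ℝ) : 0 ≤ zeroCount f s :=
  finsum_nonneg fun u => by exact_mod_cast divisor_nonneg' hf s u

theorem avgLog_linear {f : ℂ → ℂ} (hf : Differentiable ℂ f) {s s' : ℝ} (h : s ≤ s')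
    (h0 : ∀ u : ℂ, Real.exp s < ‖u‖ → ‖u‖ ≤ Real.exp s' → f u ≠ 0) :
    avgLog f s' = avgLog f s + zeroCount f s * (s' - s) ∧ zeroCount f s' = zeroCount f s := by
  have hD : ∀ u, MeromorphicOn.divisor f (closedBall 0 (Real.exp s')) u =
      MeromorphicOn.divisor f (closedBall 0 (Real.exp s)) u := by
    intro u
    by_cases h1 : ‖u‖ ≤ Real.exp s
    · exact divisor_eq_of_le hf h h1
    · push Not at h1
      rw [divisor_eq_zero_of_lt f h1]
      by_cases h2 : ‖u‖ ≤ Real.exp s'
      · exact divisor_eq_zero_of_ne hf (h0 u h1 h2)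
      · push Not at h2
        exact divisor_eq_zero_of_lt f h2
  constructor
  · rw [jensen hf, jensen hf, zeroCount]
    simp only [hD]
    rw [finsum_mul' , add_right_comm, ← finsum_add_distrib]
    · congr 1
      apply finsum_congr
      intro u
      ring
    · exact (finite_support_divisor f s).subset (fun u hu => by
        rw [Function.mem_support] at hu ⊢
        intro h
        apply hu
        rw [h]
        simp)
    · exact (finite_support_divisor f s).subset (fun u hu => by
        rw [Function.mem_support] at hu ⊢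
        intro h
        apply hu
        rw [h]
        simp)
    · exact (finite_support_divisor f s).subset (fun u hu => by
        rw [Function.mem_support] at hu ⊢
        intro h
        apply hu
        rw [h]
        simp)
  · unfold zeroCount
    simp only [hD]

theorem avgLog_le {f : ℂ → ℂ} (hf : Differentiable ℂ f) {s : ℝ} (h : 0 ≤ s) :
    avgLog f s ≤ avgLog f 0 + zeroCount f s * s := by
  rw [jensen hf, jensen hf, zeroCount]
  have fs : ∀ g : ℂ → ℝ, ∀ s : ℝ, (Function.support (fun u =>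
      ((MeromorphicOn.divisor f (closedBall 0 (Real.exp s)) u : ℤ) : ℝ) * g u)).Finite := by
    intro g s
    exact (finite_support_divisor f s).subset (fun u hu => by
        rw [Function.mem_support] at hu ⊢
        intro h
        apply hu
        rw [h]
        simp)
  have fs' : ∀ s : ℝ, (Function.support (fun u =>
      ((MeromorphicOn.divisor f (closedBall 0 (Real.exp s)) u : ℤ) : ℝ))).Finite := by
    intro s
    exact (finite_support_divisor f s).subset (fun u hu => by
        rw [Function.mem_support] at hu ⊢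
        intro h
        apply hu
        rw [h]
        simp)
  rw [finsum_mul' _ _ (fs' s), add_right_comm, ← finsum_add_distrib (fs _ _) (fs _ _)]
  apply add_le_add_left
  refine finsum_le_finsum' ?_ ?_ ?_
  · exact fs _ _
  · apply ((fs' 0).union (fs' s)).subset
    intro u hu
    rw [mem_union]
    by_contra hcon
    push Not at hcon
    rw [Function.notMem_support, Function.notMem_support] at hcon
    apply hu
    beta_reduce
    rw [hcon.1, hcon.2]
    simp
  · intro u
    beta_reduce
    have hDs : (0 : ℝ) ≤ ((MeromorphicOn.divisor f (closedBall 0 (Real.exp s)) u : ℤ) : ℝ) := by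
      exact_mod_cast divisor_nonneg' hf s u
    by_cases hu : ‖u‖ ≤ Real.exp 0
    · rw [divisor_eq_of_le hf h hu]
      apply le_of_eq
      ring
    · push Not at hu
      rw [divisor_eq_zero_of_lt f hu]
      have : 0 ≤ Real.log ‖u‖ := Real.log_nonneg (by rw [Real.exp_zero] at hu; exact hu.le)
      have h3 := mul_nonneg hDs this
      simp only [Int.cast_zero, zero_mul, zero_add]
      nlinarith

theorem circleIntegrable_log {f : ℂ → ℂ} (hf : Differentiable ℂ f) (r : ℝ) :
    CircleIntegrable (fun z => Real.log ‖f z‖) 0 r :=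
  MeromorphicOn.circleIntegrable_log_norm (fun z _ => (hf.analyticAt z).meromorphicAt)

theorem avgLog_le_of_le {f : ℂ → ℂ} (hf : Differentiable ℂ f) {s b : ℝ}
    (h : ∀ z : ℂ, z ≠ 0 → Real.log ‖z‖ = s → Real.log ‖f z‖ ≤ b) : avgLog f s ≤ b := by
  apply Real.circleAverage_mono_on_of_le_circle (circleIntegrable_log hf _)
  intro x hx
  rw [mem_sphere, dist_zero_right, abs_of_pos (Real.exp_pos s)] at hx
  apply h
  · intro h0
    rw [h0, norm_zero] at hx
    exact (Real.exp_pos s).ne hx
  · rw [hx, Real.log_exp]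

theorem le_avgLog_of_le {f : ℂ → ℂ} (hf : Differentiable ℂ f) {s a : ℝ}
    (h : ∀ z : ℂ, z ≠ 0 → Real.log ‖z‖ = s → a ≤ Real.log ‖f z‖) : a ≤ avgLog f s := by
  have h1 : Real.circleAverage (fun _ : ℂ => a) 0 (Real.exp s) ≤ avgLog f s := by
    apply Real.circleAverage_mono (circleIntegrable_const _ _ _) (circleIntegrable_log hf _)
    intro x hx
    rw [mem_sphere, dist_zero_right, abs_of_pos (Real.exp_pos s)] at hx
    apply h
    · intro h0
      rw [h0, norm_zero] at hx
      exact (Real.exp_pos s).ne hx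
    · rw [hx, Real.log_exp]
  rwa [Real.circleAverage_const] at h1


end Pool.Agent.Helper85.BWD
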