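import Pool.Agent.Helper85.BWD.Analysis2

set_option autoImplicit false

namespace Pool.Agent.Helper85.BWD

open Filter Topology Set Metric


/-- Harnack's inequality along a circle inside a thick annulus. -/
theorem circle_harnack {f : ℂ → ℂ} (hf : Differentiable ℂ f) {s R : ℝ} (hR : Real.pi < R)
    (h1 : ∀ z : ℂ, z ≠ 0 → |Real.log ‖z‖ - s| < R → 1 < ‖f z‖) {z z' : ℂ} (hz : z ≠ 0)
    (hz' : z' ≠ 0) (hs : Real.log ‖z‖ = s) (hs' : Real.log ‖z'‖ = s) :
    (R - Real.pi) * Real.log ‖f z'‖ ≤ (R + Real.pi) * Real.log ‖f z‖ := by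
  have hpi := Real.pi_pos
  have hR0 : 0 < R := by linarith
  set ζ₀ : ℂ := Complex.log z with hζ₀
  have hre : ζ₀.re = s := by rw [hζ₀, Complex.log_re, hs]
  set η : ℂ := Complex.log (z' / z) with hη
  have hηre : η.re = 0 := by
    rw [hη, Complex.log_re, norm_div, Real.log_div (norm_ne_zero_iff.mpr hz')
      (norm_ne_zero_iff.mpr hz), hs, hs', sub_self]
  have hηim : |η.im| ≤ Real.pi := by
    rw [hη, Complex.log_im]
    exact Complex.abs_arg_le_pi _
  have hηn : ‖η‖ ≤ Real.pi := by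
    have := Complex.norm_le_abs_re_add_abs_im η
    rw [hηre, abs_zero, zero_add] at this
    linarith
  have hexp : Complex.exp (ζ₀ + η) = z' := by
    rw [Complex.exp_add, hζ₀, hη, Complex.exp_log hz, Complex.exp_log (div_ne_zero hz' hz)]
    field_simp
  have hexp0 : Complex.exp ζ₀ = z := Complex.exp_log hz
  have hF : DifferentiableOn ℂ (fun ζ => f (Complex.exp ζ)) (ball ζ₀ R) :=
    (hf.comp Complex.differentiable_exp).differentiableOn
  have hF1 : ∀ ζ ∈ ball ζ₀ R, 1 < ‖f (Complex.exp ζ)‖ := by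
    intro ζ hζ
    apply h1 _ (Complex.exp_ne_zero ζ)
    rw [Complex.norm_exp, Real.log_exp, ← hre]
    rw [mem_ball, dist_eq_norm] at hζ
    calc |ζ.re - ζ₀.re| = |(ζ - ζ₀).re| := by rw [Complex.sub_re]
      _ ≤ ‖ζ - ζ₀‖ := Complex.abs_re_le_norm _
      _ < R := hζ
  have hdist : dist (ζ₀ + η) ζ₀ = ‖η‖ := by rw [dist_eq_norm]; simp
  have hmem : ζ₀ + η ∈ ball ζ₀ R := by
    rw [mem_ball, hdist]
    linarith
  have h := (harnack hF hF1 hmem).1
  simp only [hexp, hexp0, hdist] at h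
  have hl' : 0 ≤ Real.log ‖f z'‖ := by
    apply Real.log_nonneg
    have := hF1 _ hmem
    rw [hexp] at this
    exact this.le
  have hl : 0 ≤ Real.log ‖f z‖ := by
    apply Real.log_nonneg
    have := hF1 _ (mem_ball_self hR0)
    rw [hexp0] at this
    exact this.le
  have e1 : (R - Real.pi) * Real.log ‖f z'‖ ≤ (R - ‖η‖) * Real.log ‖f z'‖ :=
    mul_le_mul_of_nonneg_right (by linarith) hl'
  have e2 : (R + ‖η‖) * Real.log ‖f z‖ ≤ (R + Real.pi) * Real.log ‖f z‖ :=
    mul_le_mul_of_nonneg_right (by linarith) hl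
  linarith

/-- The averages are affine on an annulus on which `f` has no zeros. -/
theorem avgLog_eq_of_annulus {f : ℂ → ℂ} (hf : Differentiable ℂ f) {s w : ℝ} (hw : 0 < w)
    (h1 : ∀ z : ℂ, z ≠ 0 → |Real.log ‖z‖ - s| < w → 1 < ‖f z‖) {t : ℝ} (ht : |t - s| < w) :
    avgLog f t = avgLog f s + zeroCount f s * (t - s) := by
  have hne : ∀ u : ℂ, (∃ v, |v - s| < w ∧ Real.exp v ≤ ‖u‖) → (∃ v, |v - s| < w ∧ ‖u‖ ≤ Real.exp v) →
      f u ≠ 0 := by
    rintro u ⟨v, hv, hvu⟩ ⟨v', hv', hvu'⟩ h0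
    have hu0 : 0 < ‖u‖ := (Real.exp_pos v).trans_le hvu
    have hlog1 : v ≤ Real.log ‖u‖ := by
      rw [← Real.log_exp v]
      exact Real.log_le_log (Real.exp_pos v) hvu
    have hlog2 : Real.log ‖u‖ ≤ v' := by
      rw [← Real.log_exp v']
      exact Real.log_le_log hu0 hvu'
    have := h1 u (norm_pos_iff.mp hu0) (by
      rw [abs_lt] at hv hv' ⊢
      constructor <;> linarith [hv.1, hv'.2])
    rw [h0, norm_zero] at this
    linarith
  have hs0 : |s - s| < w := by rw [sub_self, abs_zero]; exact hw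
  rcases le_total s t with hst | hts
  · exact (avgLog_linear hf hst (fun u hu hu' => hne u ⟨s, hs0, hu.le⟩ ⟨t, ht, hu'⟩)).1
  · obtain ⟨h2, h3⟩ := avgLog_linear hf hts (fun u hu hu' => hne u ⟨t, ht, hu.le⟩ ⟨s, hs0, hu'⟩)
    rw [h3, h2]
    ring

theorem annulus_estimate {f : ℂ → ℂ} (hf : Differentiable ℂ f) {s w R : ℝ} (hw : 0 < w)
    (h1 : ∀ z : ℂ, z ≠ 0 → |Real.log ‖z‖ - s| < w → 1 < ‖f z‖)
    (hR : 2 * Real.pi ≤ R) {z : ℂ} (hz : z ≠ 0) (hzR : |Real.log ‖z‖ - s| ≤ w - R) :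
    |Real.log ‖f z‖ - (avgLog f s + zeroCount f s * (Real.log ‖z‖ - s))| ≤
      4 * Real.pi / R * (avgLog f s + zeroCount f s * (Real.log ‖z‖ - s)) := by
  have hpi := Real.pi_pos
  have hR0 : 0 < R := by linarith
  set t := Real.log ‖z‖ with ht
  have htw : |t - s| < w := by linarith
  rw [← avgLog_eq_of_annulus hf hw h1 htw]
  have h1' : ∀ z : ℂ, z ≠ 0 → |Real.log ‖z‖ - t| < R → 1 < ‖f z‖ := by
    intro u hu hut
    apply h1 u hu
    calc |Real.log ‖u‖ - s| = |(Real.log ‖u‖ - t) + (t - s)| := by ring_nf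
      _ ≤ |Real.log ‖u‖ - t| + |t - s| := abs_add_le _ _
      _ < w := by linarith
  have hlz : 0 < Real.log ‖f z‖ := Real.log_pos (h1 z hz htw)
  have hRp : Real.pi < R := by linarith
  have hRpp : 0 < R - Real.pi := by linarith
  -- upper bound of the average
  have hA : avgLog f t ≤ (R + Real.pi) / (R - Real.pi) * Real.log ‖f z‖ := by
    apply avgLog_le_of_le hf
    intro z' hz' hzt
    have := circle_harnack hf hRp h1' hz hz' rfl hzt
    rw [div_mul_eq_mul_div, le_div_iff₀ hRpp]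
    linarith
  have hB : (R - Real.pi) / (R + Real.pi) * Real.log ‖f z‖ ≤ avgLog f t := by
    apply le_avgLog_of_le hf
    intro z' hz' hzt
    have := circle_harnack hf hRp h1' hz' hz hzt rfl
    rw [div_mul_eq_mul_div, div_le_iff₀ (by linarith)]
    linarith
  have hA' : (R - Real.pi) * avgLog f t ≤ (R + Real.pi) * Real.log ‖f z‖ := by
    rw [div_mul_eq_mul_div, le_div_iff₀ hRpp] at hA
    linarith
  have hB' : (R - Real.pi) * Real.log ‖f z‖ ≤ (R + Real.pi) * avgLog f t := by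
    rw [div_mul_eq_mul_div, div_le_iff₀ (by linarith)] at hB
    linarith
  have hV : 0 < avgLog f t := by
    have : 0 < (R - Real.pi) * Real.log ‖f z‖ := mul_pos hRpp hlz
    have h2 : 0 < (R + Real.pi) * avgLog f t := lt_of_lt_of_le this hB'
    exact (pos_iff_pos_of_mul_pos h2).mp (by linarith)
  rw [abs_le]
  have e : 4 * Real.pi / R * avgLog f t = 4 * Real.pi * avgLog f t / R := by ring
  rw [e]
  constructor
  · rw [neg_le, div_eq_mul_inv, ← div_eq_mul_inv, le_div_iff₀ hR0]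
    -- (V - l) R ≤ 4 π V
    have : (avgLog f t - Real.log ‖f z‖) * (R + Real.pi) ≤ 2 * Real.pi * avgLog f t := by
      nlinarith
    rcases le_total (avgLog f t) (Real.log ‖f z‖) with h | h
    · nlinarith
    · nlinarith
  · rw [le_div_iff₀ hR0]
    have h3 : (Real.log ‖f z‖ - avgLog f t) * (R - Real.pi) ≤ 2 * Real.pi * avgLog f t := by
      nlinarith
    rcases le_total (avgLog f t) (Real.log ‖f z‖) with h | h
    · have : (Real.log ‖f z‖ - avgLog f t) * R ≤ 2 * ((Real.log ‖f z‖ - avgLog f t) * (R - Real.pi)) := by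
        nlinarith
      linarith
    · nlinarith


end Pool.Agent.Helper85.BWD
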