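import Pool.Agent.Helper85.BWD.Gap
set_option autoImplicit false
namespace Pool.Agent.Helper85.BWD
open Filter Topology Set Metric

section
variable {f : ℂ → ℂ} {W : Set ℂ} {z₀ : ℂ} {E₀ : Set ℂ} {δ₀ : ℝ}

/-- There are points with large logarithmic derivative. -/
theorem Setup.logDeriv_large (S : Setup f W z₀ E₀ δ₀) :
    ∃ K : Set ℂ, IsCompact K ∧ K ⊆ W ∧ ∃ μ : ℝ, 0 < μ ∧
      ∀ᶠ n in atTop, ∃ z ∈ K, μ * scale f z₀ n ≤ ‖deriv (f^[n]) z / f^[n] z‖ := by
  obtain ⟨θ, hθ, p, hp, hgap⟩ := S.gap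
  obtain ⟨K, hK, hKW, C, hC, hchain⟩ := lip_chain S.H.isOpen S.H.conn S.hz₀ S.collar_compact
    S.collar_subset
  obtain ⟨C₁, hC₁⟩ := S.exists_const
  have hC₁0 : 0 < C₁ := by linarith [hC₁.one_le]
  obtain ⟨C₂, hC₂1, hC₂⟩ := S.consts hK hKW
  refine ⟨K, hK, hKW, θ / (4 * C * C₁), by positivity, ?_⟩
  filter_upwards [hgap, hC₁.ev, hC₂] with n hgn hev hev2
  obtain ⟨q, hq, hpq⟩ := hgn
  by_contra hcon
  push Not at hcon
  have hu := hev.1
  have hB0 : 0 ≤ θ / (4 * C * C₁) * scale f z₀ n := by positivity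
  have hFB : ∀ z ∈ K, f^[n] z ≠ 0 ∧ ‖deriv (f^[n]) z / f^[n] z‖ ≤
      θ / (4 * C * C₁) * scale f z₀ n := by
    intro z hz
    refine ⟨?_, (hcon z hz).le⟩
    have := (hev2.2 z hz).1
    rw [← norm_pos_iff]
    linarith
  have h1 := hchain (f^[n]) (S.diff_iter n).differentiableOn _ hB0 hFB p hp
  have h2 := hchain (f^[n]) (S.diff_iter n).differentiableOn _ hB0 hFB q hq
  have h3 := (abs_le.mp h1).1
  have h4 := (abs_le.mp h2).2
  -- gap
  have h5 := (hev.2 q hq).2.2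
  have h6 : θ * (scale f z₀ n / C₁) ≤ θ * Real.log ‖f^[n] q‖ := mul_le_mul_of_nonneg_left h5 hθ.le
  have h7 : C * (θ / (4 * C * C₁) * scale f z₀ n) = θ * (scale f z₀ n / C₁) / 4 := by
    field_simp
  rw [h7] at h3 h4
  have h8 : 0 < θ * (scale f z₀ n / C₁) := by positivity
  nlinarith

/-- Large round annuli inside the images `f^n(W)`. -/
theorem Setup.big_annuli (S : Setup f W z₀ E₀ δ₀) : ∃ c : ℝ, 0 < c ∧ c ≤ 1 ∧
    ∀ R : ℝ, ∀ᶠ n in atTop, ∃ ρ : ℝ, R ≤ ρ ∧
      ∀ w : ℂ, w ≠ 0 → |Real.log ‖w‖ - ρ| < c * ρ → w ∈ f^[n] '' W := by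
  obtain ⟨K, hK, hKW, μ₀, hμ₀, hlarge⟩ := S.logDeriv_large
  obtain ⟨r, hr, hrW⟩ := hK.exists_cthickening_subset_open S.H.isOpen hKW
  have hK3 : IsCompact (cthickening r K) := hK.cthickening
  obtain ⟨C, hC1, hC⟩ := S.consts hK3 hrW
  have hC0 : 0 < C := by linarith
  set μ : ℝ := min (μ₀ / C) (4 / r) with hμ
  have hμ0 : 0 < μ := lt_min (by positivity) (by positivity)
  have hμr : μ * r ≤ 4 := by
    have : μ ≤ 4 / r := min_le_right _ _
    rwa [le_div_iff₀ hr] at this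
  set c₀ : ℝ := μ ^ 2 * r ^ 2 / 128 with hc₀
  have hc₀0 : 0 < c₀ := by positivity
  have hc₀1 : c₀ ≤ 1 / 8 := by
    rw [hc₀]
    have : (μ * r) ^ 2 ≤ 4 ^ 2 := pow_le_pow_left₀ (by positivity) hμr 2
    nlinarith
  refine ⟨c₀ / 2, by positivity, by linarith, ?_⟩
  intro R
  have hlim : Tendsto (fun n => scale f z₀ n / C) atTop atTop :=
    S.scale_tendsto.atTop_div_const hC0
  filter_upwards [hlarge, hC, hlim.eventually_ge_atTop (max R (2 * Real.pi / c₀))]
    with n hln hev hR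
  obtain ⟨z', hz', hder⟩ := hln
  have hu := hev.1
  have hbr : closedBall z' r ⊆ cthickening r K := closedBall_subset_cthickening hz' r
  have hballK : ball z' r ⊆ cthickening r K := ball_subset_closedBall.trans hbr
  have h1b : ∀ z ∈ ball z' r, 1 < ‖f^[n] z‖ := fun z hz => (hev.2 z (hballK hz)).1
  have hz'b : z' ∈ ball z' r := mem_ball_self hr
  have hd : DifferentiableOn ℂ (f^[n]) (ball z' r) := (S.diff_iter n).differentiableOn
  obtain ⟨L, hL, hexp⟩ := exists_log_ball hr hd (fun z hz => by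
    have := h1b z hz
    rw [← norm_pos_iff]
    linarith)
  have hre : ∀ z ∈ ball z' r, (L z).re = Real.log ‖f^[n] z‖ := by
    intro z hz
    rw [← hexp z hz, Complex.norm_exp, Real.log_exp]
  have hpos : ∀ z ∈ ball z' r, 0 < (L z).re := by
    intro z hz
    rw [hre z hz]
    exact Real.log_pos (h1b z hz)
  have hLd : DifferentiableOn ℂ L (ball z' r) :=
    fun w hw => (hL w hw).differentiableAt.differentiableWithinAt
  set p := (L z').re with hp
  have hp0 : 0 < p := hpos z' hz'b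
  have hpu : scale f z₀ n / C ≤ p := by
    rw [hp, hre z' hz'b]
    exact (hev.2 z' (hballK hz'b)).2.2
  have hpu' : p ≤ C * scale f z₀ n := by
    rw [hp, hre z' hz'b]
    exact (hev.2 z' (hballK hz'b)).2.1
  have hderL : μ * p ≤ ‖deriv L z'‖ := by
    rw [(hL z' hz'b).deriv]
    refine le_trans ?_ hder
    have h1 : μ ≤ μ₀ / C := min_le_left _ _
    calc μ * p ≤ μ₀ / C * (C * scale f z₀ n) := mul_le_mul h1 hpu' hp0.le (by positivity)
      _ = μ₀ * scale f z₀ n := by field_simp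
  have hdist : ∀ z ∈ ball z' (r / 2), ‖L z - L z'‖ ≤ 2 * (L z').re := by
    intro z hz
    have hzr : z ∈ ball z' r := ball_subset_ball (by linarith) hz
    have h1 := halfplane_dist hr hLd hpos hzr
    have h2 : dist z z' < r / 2 := hz
    have h3 : 0 ≤ dist z z' := dist_nonneg
    have h4 : r / 2 * ‖L z - L z'‖ ≤ (r - dist z z') * ‖L z - L z'‖ :=
      mul_le_mul_of_nonneg_right (by linarith) (norm_nonneg _)
    have h5 : 2 * dist z z' * (L z').re ≤ 2 * (r / 2) * (L z').re := by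
      apply mul_le_mul_of_nonneg_right _ hp0.le
      linarith
    have h6 : r / 2 * ‖L z - L z'‖ ≤ r / 2 * (2 * (L z').re) := by linarith
    exact le_of_mul_le_mul_left h6 (by linarith)
  have hbl := bloch_like hr hLd hdist hp0 hμ0 hμr hderL
  refine ⟨p, (le_max_left _ _).trans (hR.trans hpu), ?_⟩
  intro w hw hwp
  have h2π : 2 * Real.pi / c₀ ≤ p := (le_max_right _ _).trans (hR.trans hpu)
  rw [div_le_iff₀ hc₀0] at h2π
  set η : ℂ := Complex.log (w / Complex.exp (L z')) with hη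
  have hwe : w / Complex.exp (L z') ≠ 0 := div_ne_zero hw (Complex.exp_ne_zero _)
  have hηre : η.re = Real.log ‖w‖ - p := by
    rw [hη, Complex.log_re, norm_div, Complex.norm_exp,
      Real.log_div (norm_ne_zero_iff.mpr hw) (Real.exp_pos _).ne', Real.log_exp]
  have hηim : |η.im| ≤ Real.pi := by
    rw [hη, Complex.log_im]
    exact Complex.abs_arg_le_pi _
  have hηn : ‖η‖ < c₀ * p := by
    have h1 := Complex.norm_le_abs_re_add_abs_im η
    rw [hηre] at h1
    have h3 : c₀ / 2 * p + c₀ / 2 * p = c₀ * p := by ring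
    linarith
  have hmem : L z' + η ∈ ball (L z') (μ ^ 2 * r ^ 2 / 128 * (L z').re) := by
    rw [mem_ball, dist_eq_norm, add_sub_cancel_left]
    exact hηn
  obtain ⟨z, hz, hLz⟩ := hbl hmem
  have hzr : z ∈ ball z' r := ball_subset_ball (by linarith) hz
  refine ⟨z, hrW (hballK hzr), ?_⟩
  rw [← hexp z hzr, hLz, Complex.exp_add, hη, Complex.exp_log hwe]
  field_simp

/-- For large `n` the image `f^n(W)` separates large discs from infinity. -/
theorem Setup.surround (S : Setup f W z₀ E₀ δ₀) (R : ℝ) : ∀ᶠ n in atTop, ∃ Ω : Set ℂ,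
    IsOpen Ω ∧ Bornology.IsBounded Ω ∧ ball (0 : ℂ) R ⊆ Ω ∧ frontier Ω ⊆ f^[n] '' W := by
  obtain ⟨C, hC⟩ := S.exists_const
  have hC0 : 0 < C := by linarith [hC.one_le]
  filter_upwards [S.covers_eventually hC, (S.exp_tendsto hC0).eventually_ge_atTop R] with n hn hR
  have hcl : IsCompact (closure (G E₀ (δ₀ / 3))) := (S.isBounded_G _).isCompact_closure
  have himc : IsCompact (f^[n] '' closure (G E₀ (δ₀ / 3))) := hcl.image (S.diff_iter n).continuous
  have hopen : IsOpen (f^[n] '' G E₀ (δ₀ / 3)) := S.not_const n _ (isOpen_G _ _)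
  refine ⟨f^[n] '' G E₀ (δ₀ / 3), hopen, ?_, ?_, ?_⟩
  · exact himc.isBounded.subset (image_mono subset_closure)
  · exact (ball_subset_ball hR).trans hn
  · intro w hw
    have h1 : w ∈ closure (f^[n] '' G E₀ (δ₀ / 3)) := frontier_subset_closure hw
    have h2 : w ∈ f^[n] '' closure (G E₀ (δ₀ / 3)) :=
      himc.isClosed.closure_subset_iff.mpr (image_mono subset_closure) h1
    obtain ⟨z, hz, rfl⟩ := h2
    have h3 : f^[n] z ∉ f^[n] '' G E₀ (δ₀ / 3) := by
      intro h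
      rw [frontier, Set.mem_sdiff, hopen.interior_eq] at hw
      exact hw.2 h
    have h4 : infDist z E₀ ≤ δ₀ / 3 := closure_G E₀ _ hz
    have h5 : ¬ infDist z E₀ < δ₀ / 3 := fun h => h3 ⟨z, h, rfl⟩
    exact ⟨z, S.collar_subset (S.third_mem_collar (le_antisymm h4 (not_lt.mp h5))), rfl⟩

end

end Pool.Agent.Helper85.BWD
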