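import Pool.Agent.Helper85.BWD.Escape
set_option autoImplicit false
namespace Pool.Agent.Helper85.BWD
open Filter Topology Set Metric

theorem log_norm_sub_le {F : ℂ → ℂ} {x : ℂ} {ε B : ℝ}
    (hF : DifferentiableOn ℂ F (ball x ε)) (h0 : ∀ z ∈ ball x ε, F z ≠ 0)
    (hB : ∀ z ∈ ball x ε, ‖deriv F z / F z‖ ≤ B) {w : ℂ} (hw : w ∈ ball x ε) (hB0 : 0 ≤ B) :
    |Real.log ‖F w‖ - Real.log ‖F x‖| ≤ ε * B := by
  have hε : 0 < ε := pos_of_mem_ball hw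
  obtain ⟨L, hL, hexp⟩ := exists_log_ball hε hF h0
  have h1 : ‖L w - L x‖ ≤ B * ‖w - x‖ :=
    (convex_ball x ε).norm_image_sub_le_of_norm_hasDerivWithin_le
      (fun z hz => (hL z hz).hasDerivWithinAt) hB (mem_ball_self hε) hw
  have hre : ∀ z ∈ ball x ε, Real.log ‖F z‖ = (L z).re := by
    intro z hz
    rw [← hexp z hz, Complex.norm_exp, Real.log_exp]
  rw [hre w hw, hre x (mem_ball_self hε), ← Complex.sub_re]
  refine (Complex.abs_re_le_norm _).trans (h1.trans ?_)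
  rw [mem_ball, dist_eq_norm] at hw
  nlinarith

/-- A chain of discs argument for the oscillation of `log ‖F‖`. -/
theorem lip_chain {V : Set ℂ} (hVo : IsOpen V) (hV : IsPreconnected V) {z₀ : ℂ} (hz₀ : z₀ ∈ V)
    {K : Set ℂ} (hK : IsCompact K) (hKV : K ⊆ V) :
    ∃ K' : Set ℂ, IsCompact K' ∧ K' ⊆ V ∧ ∃ C : ℝ, 0 < C ∧ ∀ F : ℂ → ℂ, DifferentiableOn ℂ F V →
      ∀ B : ℝ, 0 ≤ B → (∀ z ∈ K', F z ≠ 0 ∧ ‖deriv F z / F z‖ ≤ B) →
      ∀ z ∈ K, |Real.log ‖F z‖ - Real.log ‖F z₀‖| ≤ C * B := by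
  have hloc : ∀ x ∈ V, ∃ ε > 0, closedBall x ε ⊆ V := by
    intro x hx
    obtain ⟨ε, hε, h⟩ := Metric.isOpen_iff.mp hVo x hx
    exact ⟨ε / 2, by linarith, (closedBall_subset_ball (by linarith)).trans h⟩
  let P : ℂ → ℂ → Prop := fun x y => ∃ K' : Set ℂ, IsCompact K' ∧ K' ⊆ V ∧ ∃ C : ℝ, 0 < C ∧
      ∀ F : ℂ → ℂ, DifferentiableOn ℂ F V →
      ∀ B : ℝ, 0 ≤ B → (∀ z ∈ K', F z ≠ 0 ∧ ‖deriv F z / F z‖ ≤ B) →
      |Real.log ‖F x‖ - Real.log ‖F y‖| ≤ C * B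
  have hP : ∀ x ∈ V, ∀ y ∈ V, P x y := by
    intro x hx y hy
    refine hV.induction₂ P ?_ ?_ ?_ hx hy
    · intro x hx
      obtain ⟨ε, hε, hcl⟩ := hloc x hx
      filter_upwards [nhdsWithin_le_nhds (ball_mem_nhds x hε)] with w hw
      refine ⟨closedBall x ε, isCompact_closedBall _ _, hcl, ε, hε, ?_⟩
      intro F hF B hB hFB
      have := log_norm_sub_le (hF.mono (ball_subset_closedBall.trans hcl))
        (fun z hz => (hFB z (ball_subset_closedBall hz)).1)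
        (fun z hz => (hFB z (ball_subset_closedBall hz)).2) hw hB
      rwa [abs_sub_comm]
    · rintro x y z _ _ _ ⟨K₁, hK₁, hK₁V, C₁, hC₁, h₁⟩ ⟨K₂, hK₂, hK₂V, C₂, hC₂, h₂⟩
      refine ⟨K₁ ∪ K₂, hK₁.union hK₂, union_subset hK₁V hK₂V, C₁ + C₂, by positivity, ?_⟩
      intro F hF B hB hFB
      have e1 := h₁ F hF B hB (fun z hz => hFB z (Or.inl hz))
      have e2 := h₂ F hF B hB (fun z hz => hFB z (Or.inr hz))
      calc |Real.log ‖F x‖ - Real.log ‖F z‖|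
          = |(Real.log ‖F x‖ - Real.log ‖F y‖) + (Real.log ‖F y‖ - Real.log ‖F z‖)| := by ring_nf
        _ ≤ |Real.log ‖F x‖ - Real.log ‖F y‖| + |Real.log ‖F y‖ - Real.log ‖F z‖| :=
          abs_add_le _ _
        _ ≤ C₁ * B + C₂ * B := add_le_add e1 e2
        _ = _ := by ring
    · rintro x y _ _ ⟨K₁, hK₁, hK₁V, C₁, hC₁, h₁⟩
      refine ⟨K₁, hK₁, hK₁V, C₁, hC₁, ?_⟩
      intro F hF B hB hFB
      rw [abs_sub_comm]
      exact h₁ F hF B hB hFB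
  refine hK.induction_on (p := fun K => ∃ K' : Set ℂ, IsCompact K' ∧ K' ⊆ V ∧ ∃ C : ℝ, 0 < C ∧
      ∀ F : ℂ → ℂ, DifferentiableOn ℂ F V →
      ∀ B : ℝ, 0 ≤ B → (∀ z ∈ K', F z ≠ 0 ∧ ‖deriv F z / F z‖ ≤ B) →
      ∀ z ∈ K, |Real.log ‖F z‖ - Real.log ‖F z₀‖| ≤ C * B) ?_ ?_ ?_ ?_
  · exact ⟨∅, isCompact_empty, empty_subset _, 1, one_pos, fun F hF B hB _ z hz =>
      absurd hz (notMem_empty z)⟩
  · rintro s t hst ⟨K', hK', hK'V, C, hC, h⟩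
    exact ⟨K', hK', hK'V, C, hC, fun F hF B hB hFB z hz => h F hF B hB hFB z (hst hz)⟩
  · rintro s t ⟨K₁, hK₁, hK₁V, C₁, hC₁, h₁⟩ ⟨K₂, hK₂, hK₂V, C₂, hC₂, h₂⟩
    refine ⟨K₁ ∪ K₂, hK₁.union hK₂, union_subset hK₁V hK₂V, C₁ + C₂, by positivity, ?_⟩
    intro F hF B hB hFB z hz
    rcases hz with hz | hz
    · have e1 := h₁ F hF B hB (fun z hz => hFB z (Or.inl hz)) z hz
      nlinarith
    · have e2 := h₂ F hF B hB (fun z hz => hFB z (Or.inr hz)) z hz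
      nlinarith
  · intro x hx
    obtain ⟨ε, hε, hcl⟩ := hloc x (hKV hx)
    obtain ⟨K₁, hK₁, hK₁V, C₁, hC₁, h₁⟩ := hP x (hKV hx) z₀ hz₀
    refine ⟨ball x ε, mem_nhdsWithin_of_mem_nhds (ball_mem_nhds x hε), K₁ ∪ closedBall x ε,
      hK₁.union (isCompact_closedBall _ _), union_subset hK₁V hcl, C₁ + ε, by positivity, ?_⟩
    intro F hF B hB hFB z hz
    have e1 := h₁ F hF B hB (fun z hz => hFB z (Or.inl hz))
    have e2 := log_norm_sub_le (hF.mono (ball_subset_closedBall.trans hcl))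
        (fun z hz => (hFB z (Or.inr (ball_subset_closedBall hz))).1)
        (fun z hz => (hFB z (Or.inr (ball_subset_closedBall hz))).2) hz hB
    calc |Real.log ‖F z‖ - Real.log ‖F z₀‖|
          = |(Real.log ‖F z‖ - Real.log ‖F x‖) + (Real.log ‖F x‖ - Real.log ‖F z₀‖)| := by ring_nf
        _ ≤ |Real.log ‖F z‖ - Real.log ‖F x‖| + |Real.log ‖F x‖ - Real.log ‖F z₀‖| :=
          abs_add_le _ _
        _ ≤ ε * B + C₁ * B := add_le_add e2 e1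
        _ = _ := by ring

end Pool.Agent.Helper85.BWD
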