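import Pool.Agent.Helper85.BWD.Fatou
set_option autoImplicit false
namespace Pool.Agent.Helper85.BWD
open Filter Topology Set Metric

/-! ### Components -/

theorem IsFatouComponent.isOpen {F : ℂ → ℂ} {V : Set ℂ} (h : IsFatouComponent F V) : IsOpen V := by
  obtain ⟨z, _, rfl⟩ := h
  exact (isOpen_fatouSet F).connectedComponentIn

theorem IsFatouComponent.isPreconnected {F : ℂ → ℂ} {V : Set ℂ} (h : IsFatouComponent F V) :
    IsPreconnected V := by
  obtain ⟨z, _, rfl⟩ := h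
  exact isPreconnected_connectedComponentIn

theorem IsFatouComponent.subset {F : ℂ → ℂ} {V : Set ℂ} (h : IsFatouComponent F V) :
    V ⊆ fatouSet F := by
  obtain ⟨z, _, rfl⟩ := h
  exact connectedComponentIn_subset _ _

theorem IsFatouComponent.nonempty {F : ℂ → ℂ} {V : Set ℂ} (h : IsFatouComponent F V) :
    V.Nonempty := by
  obtain ⟨z, hz, rfl⟩ := h
  exact ⟨z, mem_connectedComponentIn hz⟩

theorem IsFatouComponent.subset_of_inter {F : ℂ → ℂ} {V S : Set ℂ} (h : IsFatouComponent F V)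
    (hS : IsPreconnected S) (hSF : S ⊆ fatouSet F) (hne : (S ∩ V).Nonempty) : S ⊆ V := by
  obtain ⟨z, hz, rfl⟩ := h
  obtain ⟨x, hxS, hxV⟩ := hne
  rw [connectedComponentIn_eq hxV]
  exact hS.subset_connectedComponentIn hxS hSF

theorem IsFatouComponent.eq_of_inter {F : ℂ → ℂ} {V V' : Set ℂ} (h : IsFatouComponent F V)
    (h' : IsFatouComponent F V') (hne : (V ∩ V').Nonempty) : V = V' := by
  apply Subset.antisymm
  · exact h'.subset_of_inter h.isPreconnected h.subset hne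
  · exact h.subset_of_inter h'.isPreconnected h'.subset (by rwa [inter_comm])

/-! ### Forward invariance -/

theorem forward_invariant {F : ℂ → ℂ} (hF : MeromorphicOn F univ) {V : Set ℂ}
    (hV : IsOpen V) (hVc : IsPreconnected V) (hVF : V ⊆ fatouSet F)
    (hnc : ¬ ∃ w, ∀ z ∈ V, fv (iter F 1 z) = w) {z : ℂ} (hz : z ∈ V) :
    fv (iter F 1 z) ∈ fatouSet F := by
  have han : AnalyticOnNhd ℂ (fun w => fv (iter F 1 w)) V := fun w hw =>
    iter_analyticAt_fatou hF 1 (hVF hw)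
  have hopen : ∀ s ⊆ V, IsOpen s → IsOpen ((fun w => fv (iter F 1 w)) '' s) := by
    rcases han.is_constant_or_isOpen hVc with ⟨w, hw⟩ | h
    · exact absurd ⟨w, hw⟩ hnc
    · exact h
  obtain ⟨N, hN, hzN, hfin, hnorm⟩ := hVF hz
  obtain ⟨r, hr, hrN⟩ := Metric.isOpen_iff.mp (hN.inter hV) z ⟨hzN, hz⟩
  have hcl : closedBall z (r / 2) ⊆ N ∩ V := (closedBall_subset_ball (by linarith)).trans hrN
  set Ψ : ℂ → ℂ := fun w => fv (iter F 1 w) with hΨ
  have hsph : ∀ w ∈ N, sphereValue F w = (Ψ w : OnePoint ℂ) := by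
    intro w hw
    have h1 : iter F 1 w = sphereValue F w := iter_succ_of_coe (iter_zero F w)
    rw [← h1, hΨ]
    exact (coe_fv (hfin 1 w hw)).symm
  have hiter : ∀ n, ∀ w ∈ N, iter F (n + 1) w = iter F n (Ψ w) := fun n w hw =>
    iter_succ' (hsph w hw) n
  set N' : Set ℂ := Ψ '' ball z (r / 2) with hN'
  have hbV : ball z (r / 2) ⊆ V := fun w hw => (hcl (ball_subset_closedBall hw)).2
  have hbN : ball z (r / 2) ⊆ N := fun w hw => (hcl (ball_subset_closedBall hw)).1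
  have hN'o : IsOpen N' := hopen _ hbV isOpen_ball
  have hzb : z ∈ ball z (r / 2) := mem_ball_self (by linarith)
  -- choose preimages
  have hpre : ∀ w ∈ N', ∃ y ∈ ball z (r / 2), Ψ y = w := fun w hw => hw
  choose! q hq hqΨ using hpre
  have hfin' : ∀ n, ∀ w ∈ N', iter F n w ≠ OnePoint.infty := by
    intro n w hw
    rw [← hqΨ w hw, ← hiter n _ (hbN (hq w hw))]
    exact hfin _ _ (hbN (hq w hw))
  refine mem_fatouSet_of_open hN'o hfin' ?_ ⟨z, hzb, rfl⟩
  intro s
  obtain ⟨t, ht, g, hg⟩ := hnorm (fun k => s k + 1)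
  refine ⟨t, ht, fun w => g (q w), ?_⟩
  have hunif : TendstoUniformlyOn (fun j w => stereo (iter F (s (t j) + 1) w))
      (fun w => stereo (g w)) atTop (closedBall z (r / 2)) := by
    have h1 : TendstoLocallyUniformlyOn (fun j w => stereo (iter F (s (t j) + 1) w))
        (fun w => stereo (g w)) atTop (closedBall z (r / 2)) :=
      hg.mono (fun w hw => (hcl hw).1)
    exact (tendstoLocallyUniformlyOn_iff_tendstoUniformlyOn_of_compact
      (isCompact_closedBall _ _)).mp h1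
  rw [Metric.tendstoLocallyUniformlyOn_iff]
  intro ε hε x _
  refine ⟨N', self_mem_nhdsWithin, ?_⟩
  rw [Metric.tendstoUniformlyOn_iff] at hunif
  filter_upwards [hunif ε hε] with j hj w hw
  have h1 := hj (q w) (ball_subset_closedBall (hq w hw))
  rw [hiter _ _ (hbN (hq w hw)), hqΨ w hw] at h1
  exact h1

/-! ### Entire functions -/

section entire
variable {f : ℂ → ℂ}

theorem entire_sphereValue (hf : Differentiable ℂ f) (z : ℂ) :
    sphereValue f z = (f z : OnePoint ℂ) :=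
  sphereValue_of_continuousAt hf.continuous.continuousAt

theorem entire_iter (hf : Differentiable ℂ f) (n : ℕ) (z : ℂ) :
    iter f n z = ((f^[n] z : ℂ) : OnePoint ℂ) := by
  induction n with
  | zero => rfl
  | succ n ih =>
    rw [iter_succ_of_coe ih, entire_sphereValue hf, Function.iterate_succ_apply']

theorem entire_fv_iter (hf : Differentiable ℂ f) (n : ℕ) (z : ℂ) :
    fv (iter f n z) = f^[n] z := by
  rw [entire_iter hf, fv_coe]

theorem entire_meromorphic (hf : Differentiable ℂ f) : MeromorphicOn f univ :=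
  fun z _ => (hf.analyticAt z).meromorphicAt

theorem entire_eqFamily (hf : Differentiable ℂ f) {V : Set ℂ} (hV : IsFatouComponent f V) :
    EqFamily V (fun n => f^[n]) := by
  have h := eqFamily_of_fatou (entire_meromorphic hf) hV.isOpen hV.isPreconnected hV.subset
  have e : (fun (n : ℕ) (z : ℂ) => fv (iter f n z)) = fun n => f^[n] := by
    funext n z
    exact entire_fv_iter hf n z
  rwa [e] at h

theorem entire_not_const_on (hf : Differentiable ℂ f)
    (hft : ¬ ∃ p : Polynomial ℂ, ∀ z, f z = p.eval z) {V : Set ℂ} (hV : IsOpen V)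
    (hne : V.Nonempty) : ¬ ∃ w, ∀ z ∈ V, f z = w := by
  rintro ⟨w, hw⟩
  apply hft
  refine ⟨Polynomial.C w, ?_⟩
  obtain ⟨x, hx⟩ := hne
  have h1 : AnalyticOnNhd ℂ f univ := fun z _ => hf.analyticAt z
  have h2 : AnalyticOnNhd ℂ (fun _ : ℂ => w) univ := fun z _ => analyticAt_const
  have := h1.eqOn_of_preconnected_of_eventuallyEq h2 isPreconnected_univ (mem_univ x)
    (by filter_upwards [hV.mem_nhds hx] with y hy using hw y hy)
  intro z
  rw [Polynomial.eval_C]
  exact this (mem_univ z)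

theorem entire_forward (hf : Differentiable ℂ f)
    (hft : ¬ ∃ p : Polynomial ℂ, ∀ z, f z = p.eval z) {V : Set ℂ} (hV : IsFatouComponent f V)
    {z : ℂ} (hz : z ∈ V) : f z ∈ fatouSet f := by
  have h := forward_invariant (entire_meromorphic hf) hV.isOpen hV.isPreconnected hV.subset (by
    rintro ⟨w, hw⟩
    apply entire_not_const_on hf hft hV.isOpen hV.nonempty
    refine ⟨w, fun z hz => ?_⟩
    have := hw z hz
    rwa [entire_fv_iter hf] at this) hz
  rwa [entire_fv_iter hf] at h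

end entire

/-! ### Separation in the sphere -/

theorem exists_separation {W : Set ℂ} (hW : IsOpen W) (hS : SurroundsZero W) :
    ∃ E₀ : Set ℂ, IsCompact E₀ ∧ (0 : ℂ) ∈ E₀ ∧ Disjoint E₀ W ∧ ∃ δ₀ : ℝ, 0 < δ₀ ∧
      ∀ z, z ∉ E₀ → infDist z E₀ < δ₀ → z ∈ W := by
  obtain ⟨h0W, R, hR⟩ := hS
  set C : Set (OnePoint ℂ) := (((↑) : ℂ → OnePoint ℂ) '' W)ᶜ with hC
  have hCclosed : IsClosed C := (OnePoint.isOpen_image_coe.mpr hW).isClosed_compl
  have h0C : ((0 : ℂ) : OnePoint ℂ) ∈ C := by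
    rintro ⟨w, hw, hw0⟩
    rw [OnePoint.coe_eq_coe] at hw0
    rw [hw0] at hw
    exact h0W hw
  have hinfC : OnePoint.infty ∈ C := OnePoint.infty_notMem_image_coe
  have : CompactSpace C := isCompact_iff_compactSpace.mp hCclosed.isCompact
  have hcomp : (⟨OnePoint.infty, hinfC⟩ : C) ∉ connectedComponent (⟨((0 : ℂ) : OnePoint ℂ), h0C⟩ : C) := by
    intro h
    have h1 : OnePoint.infty ∈ connectedComponentIn C ((0 : ℂ) : OnePoint ℂ) := by
      rw [connectedComponentIn_eq_image h0C]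
      exact ⟨_, h, rfl⟩
    obtain ⟨x, _, hx⟩ := hR h1
    exact OnePoint.coe_ne_infty x hx
  rw [connectedComponent_eq_iInter_isClopen, mem_iInter] at hcomp
  push Not at hcomp
  obtain ⟨⟨Z, hZclopen, h0Z⟩, hZinf⟩ := hcomp
  have hZc : IsClosed (((↑) : C → OnePoint ℂ) '' Z) := hCclosed.isClosedEmbedding_subtypeVal.isClosedMap _ hZclopen.1
  have hZc' : IsClosed (((↑) : C → OnePoint ℂ) '' Zᶜ) :=
    hCclosed.isClosedEmbedding_subtypeVal.isClosedMap _ hZclopen.compl.1
  set E₀ : Set ℂ := ((↑) : ℂ → OnePoint ℂ) ⁻¹' (((↑) : C → OnePoint ℂ) '' Z) with hE₀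
  set E₁ : Set ℂ := ((↑) : ℂ → OnePoint ℂ) ⁻¹' (((↑) : C → OnePoint ℂ) '' Zᶜ) with hE₁
  have hinfZ : OnePoint.infty ∉ ((↑) : C → OnePoint ℂ) '' Z := by
    rintro ⟨x, hx, hxi⟩
    apply hZinf
    have : x = ⟨OnePoint.infty, hinfC⟩ := Subtype.ext hxi
    rw [← this]
    exact hx
  have himage : ((↑) : ℂ → OnePoint ℂ) '' E₀ = ((↑) : C → OnePoint ℂ) '' Z := by
    rw [hE₀, image_preimage_eq_iff]
    intro x hx
    have hxne : x ≠ OnePoint.infty := fun h => hinfZ (h ▸ hx)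
    obtain ⟨y, rfl⟩ := OnePoint.ne_infty_iff_exists.mp hxne
    exact ⟨y, rfl⟩
  have hE₀c : IsCompact E₀ := by
    rw [OnePoint.isOpenEmbedding_coe.toIsEmbedding.isCompact_iff, himage]
    exact hZc.isCompact
  have hE₁c : IsClosed E₁ := hZc'.preimage OnePoint.continuous_coe
  have hdisj : Disjoint E₀ E₁ := by
    rw [Set.disjoint_left]
    rintro x ⟨y, hy, hyx⟩ ⟨y', hy', hyx'⟩
    have : y = y' := Subtype.ext (hyx.trans hyx'.symm)
    rw [this] at hy
    exact hy' hy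
  have hcover : ∀ z : ℂ, z ∉ E₀ → z ∉ E₁ → z ∈ W := by
    intro z h1 h2
    by_contra hzW
    have hzC : (z : OnePoint ℂ) ∈ C := by
      rintro ⟨w, hw, hwz⟩
      rw [OnePoint.coe_eq_coe] at hwz
      rw [hwz] at hw
      exact hzW hw
    by_cases hZ : (⟨(z : OnePoint ℂ), hzC⟩ : C) ∈ Z
    · exact h1 ⟨_, hZ, rfl⟩
    · exact h2 ⟨_, hZ, rfl⟩
  obtain ⟨δ, hδ, hδsub⟩ := hE₀c.exists_cthickening_subset_open hE₁c.isOpen_compl
    (fun x hx hx' => (Set.disjoint_left.mp hdisj) hx hx')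
  have h0E : (0 : ℂ) ∈ E₀ := ⟨⟨((0 : ℂ) : OnePoint ℂ), h0C⟩, h0Z, rfl⟩
  refine ⟨E₀, hE₀c, h0E, ?_, δ, hδ, ?_⟩
  · rw [Set.disjoint_left]
    rintro x ⟨y, _, hyx⟩ hxW
    exact y.2 ⟨x, hxW, hyx.symm⟩
  · intro z hz hzδ
    apply hcover z hz
    have : z ∈ cthickening δ E₀ := by
      apply thickening_subset_cthickening
      exact (infDist_lt_iff ⟨0, h0E⟩).mp hzδ |> fun ⟨y, hy, hyz⟩ =>
        mem_thickening_iff.mpr ⟨y, hy, hyz⟩
    exact hδsub this

end Pool.Agent.Helper85.BWD
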