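import Mathlib

/-!
# Fatou sets of meromorphic functions and Baker wandering domains: definitions

A meromorphic function in the plane is given by `F : ℂ → ℂ` with `MeromorphicOn F Set.univ`; its
values as a map into the Riemann sphere `OnePoint ℂ` are recovered by `sphereValue`.
-/

set_option autoImplicit false

namespace Pool.Agent.Helper85.BWD

open Filter Topology Set

/-- The value at `z`, in the Riemann sphere, of the meromorphic function given by `F`: the limit of
`F w` as `w → z`, `w ≠ z` (so it is `∞` exactly at the poles of `F`, and removable singularities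
of `F` are removed). -/
noncomputable def sphereValue (F : ℂ → ℂ) (z : ℂ) : OnePoint ℂ :=
  limUnder (𝓝[≠] z) (fun w => ((F w : ℂ) : OnePoint ℂ))

/-- `iter F n z` is `F^n(z)`, the `n`-th iterate of the meromorphic function given by `F`.  It is
a point of the Riemann sphere, and once an iterate is `∞` all later ones (which are not
defined) are given the value `∞`.  So `F^n(z)` is defined exactly when `iter F k z ≠ ∞` for
all `k < n`. -/
noncomputable def iter (F : ℂ → ℂ) : ℕ → ℂ → OnePoint ℂ
  | 0, z => (z : OnePoint ℂ)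
  | n + 1, z => (iter F n z).elim OnePoint.infty (sphereValue F)

/-- Stereographic projection of the Riemann sphere onto the unit sphere of `ℂ × ℝ` (with its
Euclidean norm).  The distance of `stereo x` and `stereo y` is the chordal distance of `x, y`. -/
noncomputable def stereo (x : OnePoint ℂ) : WithLp 2 (ℂ × ℝ) :=
  x.elim (WithLp.toLp 2 ((0 : ℂ), (1 : ℝ)))
    (fun z : ℂ => WithLp.toLp 2
      ((2 / (1 + ‖z‖ ^ 2) : ℝ) • z, (‖z‖ ^ 2 - 1) / (1 + ‖z‖ ^ 2)))

/-- The sequence `φ` of maps into the Riemann sphere is a normal family on `N`: every sequence of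
members has a subsequence converging locally uniformly on `N` in the chordal metric. -/
def IsNormalFamilyOn (φ : ℕ → ℂ → OnePoint ℂ) (N : Set ℂ) : Prop :=
  ∀ s : ℕ → ℕ, ∃ t : ℕ → ℕ, StrictMono t ∧ ∃ g : ℂ → OnePoint ℂ,
    TendstoLocallyUniformlyOn (fun j z => stereo (φ (s (t j)) z)) (fun z => stereo (g z)) atTop N

/-- The Fatou set: the points having an open neighbourhood on which all iterates are defined and
form a normal family. -/
def fatouSet (F : ℂ → ℂ) : Set ℂ :=
  {z | ∃ N : Set ℂ, IsOpen N ∧ z ∈ N ∧ (∀ n, ∀ w ∈ N, iter F n w ≠ OnePoint.infty) ∧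
    IsNormalFamilyOn (iter F) N}

/-- A Fatou component: a connected component of the Fatou set. -/
def IsFatouComponent (F : ℂ → ℂ) (V : Set ℂ) : Prop :=
  ∃ z ∈ fatouSet F, V = connectedComponentIn (fatouSet F) z

/-- `A ⊆ ℂ` surrounds `0`: the point `0` lies in a bounded component of the complement of `A` in the
Riemann sphere. -/
def SurroundsZero (A : Set ℂ) : Prop :=
  (0 : ℂ) ∉ A ∧ ∃ R : ℝ,
    connectedComponentIn (((↑) : ℂ → OnePoint ℂ) '' A)ᶜ ((0 : ℂ) : OnePoint ℂ) ⊆
      ((↑) : ℂ → OnePoint ℂ) '' Metric.closedBall (0 : ℂ) R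

/-- A domain `A ⊆ ℂ` is multiply connected: its complement in the Riemann sphere is not
connected. -/
def IsMultiplyConnected (A : Set ℂ) : Prop :=
  ¬ IsPreconnected (((↑) : ℂ → OnePoint ℂ) '' A)ᶜ

/-- `U 0` is a Baker wandering domain of the meromorphic function given by `F`, and `U n` is the
Fatou component containing the image of `U 0` under the `n`-th iterate, for every `n`. -/
structure IsBakerWanderingDomain (F : ℂ → ℂ) (U : ℕ → Set ℂ) : Prop where
  /-- every `U n` is a Fatou component -/
  component : ∀ n, IsFatouComponent F (U n)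
  /-- `F^n` maps `U 0` into `U n` -/
  orbit : ∀ n, ∀ z ∈ U 0, ∃ w ∈ U n, iter F n z = (w : OnePoint ℂ)
  /-- `U 0` is wandering -/
  wandering : ∀ m n, m ≠ n → Disjoint (U m) (U n)
  /-- for all large `n`, `U n` is bounded, multiply connected and surrounds `0` -/
  surrounds : ∀ᶠ n in atTop,
    Bornology.IsBounded (U n) ∧ IsMultiplyConnected (U n) ∧ SurroundsZero (U n)
  /-- the iterates tend to `∞` at every point of `U 0` -/
  escaping : ∀ z ∈ U 0, Tendsto (fun n => iter F n z) atTop (𝓝 OnePoint.infty)

/-- `f` is a transcendental entire function. -/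
def IsTranscendentalEntire (f : ℂ → ℂ) : Prop :=
  Differentiable ℂ f ∧ ¬ ∃ p : Polynomial ℂ, ∀ z, f z = p.eval z

/-- `F` gives a transcendental meromorphic function: it is meromorphic in the plane and, as a map
into the Riemann sphere, it is not a rational function. -/
def IsTranscendentalMeromorphic (F : ℂ → ℂ) : Prop :=
  MeromorphicOn F univ ∧ ¬ ∃ P Q : Polynomial ℂ, Q ≠ 0 ∧
    ∀ z, Q.eval z ≠ 0 → sphereValue F z = ((P.eval z / Q.eval z : ℂ) : OnePoint ℂ)

end Pool.Agent.Helper85.BWD
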