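import Pool.Agent.Helper85.BWD.Induct
set_option autoImplicit false
namespace Pool.Agent.Helper85.BWD
open Filter Topology Set Metric

/-- Normalised logarithmic coordinate at stage `k`. -/
noncomputable def Y (f : ℂ → ℂ) (ρ : ℝ) (k : ℕ) (z : ℂ) : ℝ :=
  (Real.log ‖z‖ - (sd f ρ k).1) / (sd f ρ k).2

section
variable {f : ℂ → ℂ} {U : ℕ → Set ℂ} {ρ κ : ℝ}

theorem abs_Y_le_iff (H : AnnulusHyp f U ρ κ) (k : ℕ) (z : ℂ) (a : ℝ) :
    |Y f ρ k z| ≤ a ↔ |Real.log ‖z‖ - (sd f ρ k).1| ≤ a * (sd f ρ k).2 := by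
  have hd := (inv_all H k).d_pos
  unfold Y
  rw [abs_div, abs_of_pos hd, div_le_iff₀ hd]

theorem abs_Y_lt_iff (H : AnnulusHyp f U ρ κ) (k : ℕ) (z : ℂ) (a : ℝ) :
    |Y f ρ k z| < a ↔ |Real.log ‖z‖ - (sd f ρ k).1| < a * (sd f ρ k).2 := by
  have hd := (inv_all H k).d_pos
  unfold Y
  rw [abs_div, abs_of_pos hd, div_lt_iff₀ hd]

theorem mem_U_of_Y (H : AnnulusHyp f U ρ κ) {k : ℕ} {z : ℂ} (hz : z ≠ 0)
    (hzk : |Y f ρ k z| ≤ κ / 2) : z ∈ U k := by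
  have hI := inv_all H k
  have hd := hI.d_pos
  have hκ := H.κ_pos
  rw [abs_Y_le_iff H] at hzk
  apply hI.1 z hz
  refine lt_of_le_of_lt hzk ?_
  apply mul_lt_mul_of_pos_right _ hd
  have : (0 : ℝ) < (1 / 2) ^ (k + 1) := by positivity
  nlinarith

theorem perturbed_step (H : AnnulusHyp f U ρ κ) {k : ℕ} {z c : ℂ} (hz : z ≠ 0)
    (hzk : |Y f ρ k z| ≤ κ / 4) (hc : c ≠ 0) (hc1 : |Real.log ‖c‖| ≤ 1) :
    f z * c ≠ 0 ∧ |Y f ρ (k + 1) (f z * c) - Y f ρ k z| ≤ (κ / 16 + 1 / 8) / (sd f ρ k).2 := by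
  have hpi := Real.pi_pos
  have hI := inv_all H k
  have hI' := inv_all H (k + 1)
  have hκ := H.κ_pos
  have hd := hI.d_pos
  have hd1 := hI.one_le_d
  have hd' := hI'.d_pos
  have hN := hI.zeroCount_ge H
  have hzU : z ∈ U k := mem_U_of_Y H hz (by linarith)
  have hfz1 : 1 < ‖f z‖ := H.hU1 _ _ (H.hU2 _ _ hzU)
  have hfz0 : f z ≠ 0 := by
    rw [← norm_pos_iff]; linarith
  refine ⟨mul_ne_zero hfz0 hc, ?_⟩
  rw [abs_Y_le_iff H] at hzk
  have hest := hI.estimate H (σ := κ / 4) (by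
    have h1 := H.hκ
    have : κ / 4 * 1 ≤ κ / 4 * (sd f ρ k).2 := mul_le_mul_of_nonneg_left hd1 (by linarith)
    linarith) hz (by
    refine hzk.trans ?_
    apply mul_le_mul_of_nonneg_right _ hd.le
    have : (0 : ℝ) < (1 / 2) ^ (k + 1) := by positivity
    nlinarith)
  have e2 : (sd f ρ (k + 1)).2 = zeroCount f (sd f ρ k).1 * (sd f ρ k).2 := rfl
  unfold Y
  rw [norm_mul, Real.log_mul (norm_ne_zero_iff.mpr hfz0) (norm_ne_zero_iff.mpr hc)]
  set s := (sd f ρ k).1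
  set d := (sd f ρ k).2
  set N := zeroCount f s
  set s' := (sd f ρ (k + 1)).1
  set d' := (sd f ρ (k + 1)).2
  have hid : (Real.log ‖f z‖ + Real.log ‖c‖ - s') / d' - (Real.log ‖z‖ - s) / d =
      (Real.log ‖f z‖ - (s' + N * (Real.log ‖z‖ - s))) / d' + Real.log ‖c‖ / d' := by
    have hN0 : N ≠ 0 := by linarith
    rw [e2]
    field_simp
    ring
  rw [hid]
  have h1 : |(Real.log ‖f z‖ - (s' + N * (Real.log ‖z‖ - s))) / d'| ≤ κ / 16 / d := by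
    rw [abs_div, abs_of_pos hd', div_le_div_iff₀ hd' hd]
    have h2 := mul_le_mul_of_nonneg_right hest hd.le
    refine h2.trans ?_
    have h3 : 16 * Real.pi * ρ / (κ / 4 * d) * d' * d = 64 * Real.pi * ρ / κ * d' := by
      field_simp
      ring
    rw [h3]
    apply mul_le_mul_of_nonneg_right _ hd'.le
    rw [div_le_iff₀ hκ]
    have := H.hq
    nlinarith
  have h2 : |Real.log ‖c‖ / d'| ≤ 1 / 8 / d := by
    rw [abs_div, abs_of_pos hd', div_le_div_iff₀ hd' hd]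
    have : 8 * d ≤ d' := by rw [e2]; exact mul_le_mul_of_nonneg_right hN hd.le
    nlinarith
  calc |(Real.log ‖f z‖ - (s' + N * (Real.log ‖z‖ - s))) / d' + Real.log ‖c‖ / d'|
      ≤ |(Real.log ‖f z‖ - (s' + N * (Real.log ‖z‖ - s))) / d'| + |Real.log ‖c‖ / d'| :=
        abs_add_le _ _
    _ ≤ κ / 16 / d + 1 / 8 / d := add_le_add h1 h2
    _ = (κ / 16 + 1 / 8) / d := by ring

/-- The bound along perturbed orbits. -/
theorem drift_step (H : AnnulusHyp f U ρ κ) {j n : ℕ} {z c : ℂ} (hz : z ≠ 0)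
    (hzk : |Y f ρ (j + n) z| ≤ κ / 8 + κ / 12 * (1 - (1 / 8) ^ n)) (hc : c ≠ 0)
    (hc1 : |Real.log ‖c‖| ≤ 1) :
    f z * c ≠ 0 ∧ |Y f ρ (j + (n + 1)) (f z * c)| ≤ κ / 8 + κ / 12 * (1 - (1 / 8) ^ (n + 1)) := by
  have hpi := Real.pi_gt_three
  have hκ := H.κ_pos
  have hκ12 : 12 ≤ κ := by
    have := H.hκ
    linarith
  have hI := inv_all H (j + n)
  have hd := hI.d_pos
  have h8 : (8 : ℝ) ^ n ≤ (sd f ρ (j + n)).2 := by
    refine le_trans ?_ hI.2.1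
    exact pow_le_pow_right₀ (by norm_num) (by omega)
  have hpn : (0 : ℝ) < (1 / 8) ^ n := by positivity
  have hz4 : |Y f ρ (j + n) z| ≤ κ / 4 := by nlinarith
  obtain ⟨h1, h2⟩ := perturbed_step H hz hz4 hc hc1
  refine ⟨h1, ?_⟩
  have h3 : (κ / 16 + 1 / 8) / (sd f ρ (j + n)).2 ≤ (κ / 16 + 1 / 8) * (1 / 8) ^ n := by
    rw [div_eq_mul_inv]
    apply mul_le_mul_of_nonneg_left _ (by positivity)
    rw [one_div, inv_pow]
    exact inv_anti₀ (by positivity) h8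
  have h4 : |Y f ρ (j + n + 1) (f z * c)| ≤
      |Y f ρ (j + n + 1) (f z * c) - Y f ρ (j + n) z| + |Y f ρ (j + n) z| := by
    have := abs_add_le (Y f ρ (j + n + 1) (f z * c) - Y f ρ (j + n) z) (Y f ρ (j + n) z)
    rwa [sub_add_cancel] at this
  have h5 : (1 / 8 : ℝ) ^ (n + 1) = (1 / 8) ^ n * (1 / 8) := pow_succ _ _
  rw [← add_assoc]
  rw [h5]
  nlinarith

theorem s_tendsto (H : AnnulusHyp f U ρ κ) : Tendsto (fun k => (sd f ρ k).1) atTop atTop := by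
  have hκ := H.κ_pos
  apply tendsto_atTop_mono (f := fun k : ℕ => κ / 2 * (8 : ℝ) ^ k)
  · intro k
    have hI := inv_all H k
    exact (mul_le_mul_of_nonneg_left hI.2.1 (by linarith)).trans (hI.half_width_le H)
  · exact Tendsto.const_mul_atTop (by linarith) (tendsto_pow_atTop_atTop_of_one_lt (by norm_num))

theorem s_le (H : AnnulusHyp f U ρ κ) (k : ℕ) : (sd f ρ k).1 ≤ 2 * ρ * (sd f ρ k).2 := by
  have hI := inv_all H k
  have hκ := H.κ_pos
  have hd := hI.d_pos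
  refine hI.2.2.trans ?_
  apply mul_le_mul_of_nonneg_right _ hd.le
  have := H.hκρ
  have : (0 : ℝ) < (1 / 2) ^ k := by positivity
  nlinarith

/-- Degrees tend to infinity and the centres grow superlinearly. -/
theorem eventually_growth (H : AnnulusHyp f U ρ κ)
    (hft : ¬ ∃ p : Polynomial ℂ, ∀ z, f z = p.eval z) (K : ℕ) :
    ∀ᶠ k in atTop, (K : ℝ) * (sd f ρ k).1 ≤ (sd f ρ (k + 1)).1 ∧
      (K : ℝ) * (sd f ρ k).2 ≤ (sd f ρ (k + 1)).2 := by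
  obtain ⟨r₀, hr₀⟩ := growth_of_not_polynomial H.hf hft (3 * K + 3)
  have h1 : ∀ᶠ k in atTop, r₀ ≤ Real.exp (sd f ρ k).1 :=
    (Real.tendsto_exp_atTop.comp (s_tendsto H)).eventually_ge_atTop r₀
  filter_upwards [h1] with k hk
  have hI := inv_all H k
  have hs := hI.s_pos H
  have hd := hI.d_pos
  obtain ⟨h2, h3⟩ := hI.zeroCount_lower H (3 * K + 3) (hr₀ _ hk)
  have e1 : (sd f ρ (k + 1)).1 = avgLog f (sd f ρ k).1 := rfl
  have e2 : (sd f ρ (k + 1)).2 = zeroCount f (sd f ρ k).1 * (sd f ρ k).2 := rfl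
  rw [e1, e2]
  push_cast at h2 h3
  constructor
  · nlinarith
  · apply mul_le_mul_of_nonneg_right _ hd.le
    linarith

end

end Pool.Agent.Helper85.BWD
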