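import Pool.Agent.Helper85.BWD.Analysis2
set_option autoImplicit false
namespace Pool.Agent.Helper85.BWD
open Filter Topology Set Metric

/-- The height on the unit sphere of a point of modulus `r`. -/
noncomputable def hgt (r : ℝ) : ℝ := (r ^ 2 - 1) / (1 + r ^ 2)

theorem hgt_lt_one (r : ℝ) : hgt r < 1 := by
  unfold hgt
  rw [div_lt_one (by positivity)]
  linarith

theorem hgt_ge_of_ge {r : ℝ} (h : 10 ≤ r) : 98 / 100 ≤ hgt r := by
  unfold hgt
  rw [div_le_div_iff₀ (by norm_num) (by positivity)]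
  nlinarith

theorem one_lt_of_hgt {r : ℝ} (hr : 0 ≤ r) (h : 0 < hgt r) : 1 < r := by
  unfold hgt at h
  have h2 : 0 < 1 + r ^ 2 := by positivity
  have h3 : 0 < r ^ 2 - 1 := by
    by_contra hcon
    push Not at hcon
    have := div_nonpos_of_nonpos_of_nonneg hcon h2.le
    linarith
  nlinarith

/-- An equicontinuous sequence of holomorphic functions on a domain. -/
structure EqFamily (V : Set ℂ) (φ : ℕ → ℂ → ℂ) : Prop where
  isOpen : IsOpen V
  conn : IsPreconnected V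
  diff : ∀ n, DifferentiableOn ℂ (φ n) V
  eqc : ∀ z ∈ V, ∃ δ > 0, ball z δ ⊆ V ∧
    ∀ n, ∀ w ∈ ball z δ, |hgt ‖φ n w‖ - hgt ‖φ n z‖| ≤ 1 / 10

theorem one_lt_on_ball {φ : ℂ → ℂ} {z : ℂ} {δ : ℝ}
    (h : ∀ w ∈ ball z δ, |hgt ‖φ w‖ - hgt ‖φ z‖| ≤ 1 / 10) {w₀ : ℂ} (hw₀ : w₀ ∈ ball z δ)
    (h10 : 10 ≤ ‖φ w₀‖) : ∀ w ∈ ball z δ, 1 < ‖φ w‖ := by
  intro w hw
  have h1 := abs_le.mp (h w₀ hw₀)
  have h2 := abs_le.mp (h w hw)
  have h3 := hgt_ge_of_ge h10
  apply one_lt_of_hgt (norm_nonneg _)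
  linarith [h1.1, h1.2, h2.1, h2.2]

/-- The point `z` escapes. -/
def Esc (φ : ℕ → ℂ → ℂ) (z : ℂ) : Prop := Tendsto (fun n => ‖φ n z‖) atTop atTop

theorem Esc.log {φ : ℕ → ℂ → ℂ} {z : ℂ} (h : Esc φ z) :
    Tendsto (fun n => Real.log ‖φ n z‖) atTop atTop := Real.tendsto_log_atTop.comp h

theorem esc_of_log {φ : ℕ → ℂ → ℂ} {z : ℂ} (h0 : ∀ᶠ n in atTop, 1 < ‖φ n z‖)
    (h : Tendsto (fun n => Real.log ‖φ n z‖) atTop atTop) : Esc φ z := by
  have h2 := Real.tendsto_exp_atTop.comp h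
  refine h2.congr' ?_
  filter_upwards [h0] with n hn
  simp only [Function.comp_apply]
  rw [Real.exp_log (by linarith)]

theorem EqFamily.esc_iff {V : Set ℂ} {φ : ℕ → ℂ → ℂ} (H : EqFamily V φ) {z : ℂ} (hz : z ∈ V) :
    ∀ᶠ w in 𝓝 z, (Esc φ w ↔ Esc φ z) := by
  obtain ⟨δ, hδ, hsub, heq⟩ := H.eqc z hz
  filter_upwards [ball_mem_nhds z (by linarith : 0 < δ / 2)] with w hw
  have hwδ : w ∈ ball z δ := ball_subset_ball (by linarith) hw
  constructor
  · intro h
    have h10 := h.eventually_ge_atTop 10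
    have hball : ∀ᶠ n in atTop, ∀ u ∈ ball z δ, 1 < ‖φ n u‖ := by
      filter_upwards [h10] with n hn
      exact one_lt_on_ball (heq n) hwδ hn
    apply esc_of_log
    · filter_upwards [hball] with n hn
      exact hn z (mem_ball_self hδ)
    · have hlog := h.log
      have h3 : Tendsto (fun n => (1 / 3) * Real.log ‖φ n w‖) atTop atTop :=
        Tendsto.const_mul_atTop (by norm_num) hlog
      apply tendsto_atTop_mono' _ _ h3
      filter_upwards [hball] with n hn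
      have := (harnack_three ((H.diff n).mono hsub) hn hw).1
      linarith
  · intro h
    have h10 := h.eventually_ge_atTop 10
    have hball : ∀ᶠ n in atTop, ∀ u ∈ ball z δ, 1 < ‖φ n u‖ := by
      filter_upwards [h10] with n hn
      exact one_lt_on_ball (heq n) (mem_ball_self hδ) hn
    apply esc_of_log
    · filter_upwards [hball] with n hn
      exact hn w hwδ
    · have hlog := h.log
      have h3 : Tendsto (fun n => (1 / 3) * Real.log ‖φ n z‖) atTop atTop :=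
        Tendsto.const_mul_atTop (by norm_num) hlog
      apply tendsto_atTop_mono' _ _ h3
      filter_upwards [hball] with n hn
      have := (harnack_three ((H.diff n).mono hsub) hn hw).2
      linarith

theorem EqFamily.esc_all {V : Set ℂ} {φ : ℕ → ℂ → ℂ} (H : EqFamily V φ) {z₀ : ℂ} (hz₀ : z₀ ∈ V)
    (h₀ : Esc φ z₀) {z : ℂ} (hz : z ∈ V) : Esc φ z := by
  have := H.conn.induction₂' (fun x y => Esc φ x → Esc φ y) (by
    intro x hx
    have h1 := H.esc_iff hx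
    filter_upwards [nhdsWithin_le_nhds h1] with y hy
    exact ⟨fun h => hy.2 h, fun h => hy.1 h⟩) (by
    intro x y z _ _ _ h1 h2 h3
    exact h2 (h1 h3)) hz₀ hz
  exact this h₀

/-- Comparability of two points along the sequence. -/
def Cmp (φ : ℕ → ℂ → ℂ) (x y : ℂ) : Prop :=
  ∃ C : ℝ, 0 < C ∧ ∀ᶠ n in atTop, Real.log ‖φ n x‖ ≤ C * Real.log ‖φ n y‖

theorem EqFamily.cmp {V : Set ℂ} {φ : ℕ → ℂ → ℂ} (H : EqFamily V φ) {z₀ : ℂ} (hz₀ : z₀ ∈ V)
    (h₀ : Esc φ z₀) {x y : ℂ} (hx : x ∈ V) (hy : y ∈ V) : Cmp φ x y := by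
  refine H.conn.induction₂' (fun x y => Cmp φ x y) ?_ ?_ hx hy
  · intro x hx
    obtain ⟨δ, hδ, hsub, heq⟩ := H.eqc x hx
    have hesc := H.esc_all hz₀ h₀ hx
    have h10 := hesc.eventually_ge_atTop 10
    have hball : ∀ᶠ n in atTop, ∀ u ∈ ball x δ, 1 < ‖φ n u‖ := by
      filter_upwards [h10] with n hn
      exact one_lt_on_ball (heq n) (mem_ball_self hδ) hn
    filter_upwards [nhdsWithin_le_nhds (ball_mem_nhds x (by linarith : 0 < δ / 2))] with w hw
    constructor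
    · refine ⟨3, by norm_num, ?_⟩
      filter_upwards [hball] with n hn
      exact (harnack_three ((H.diff n).mono hsub) hn hw).2
    · refine ⟨3, by norm_num, ?_⟩
      filter_upwards [hball] with n hn
      exact (harnack_three ((H.diff n).mono hsub) hn hw).1
  · rintro x y z _ _ _ ⟨C, hC, h1⟩ ⟨C', hC', h2⟩
    refine ⟨C * C', mul_pos hC hC', ?_⟩
    filter_upwards [h1, h2] with n hn hn'
    calc Real.log ‖φ n x‖ ≤ C * Real.log ‖φ n y‖ := hn
      _ ≤ C * (C' * Real.log ‖φ n z‖) := mul_le_mul_of_nonneg_left hn' hC.le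
      _ = C * C' * Real.log ‖φ n z‖ := by ring

/-- Uniform comparability on compact sets. -/
theorem EqFamily.cmp_compact {V : Set ℂ} {φ : ℕ → ℂ → ℂ} (H : EqFamily V φ) {z₀ : ℂ}
    (hz₀ : z₀ ∈ V) (h₀ : Esc φ z₀) {K : Set ℂ} (hK : IsCompact K) (hKV : K ⊆ V) :
    ∃ C : ℝ, 0 < C ∧ ∀ᶠ n in atTop, ∀ z ∈ K, 1 < ‖φ n z‖ ∧
      Real.log ‖φ n z‖ ≤ C * Real.log ‖φ n z₀‖ ∧ Real.log ‖φ n z₀‖ ≤ C * Real.log ‖φ n z‖ := by
  have h10 := h₀.eventually_ge_atTop 10
  have hlog0 : ∀ᶠ n in atTop, 0 < Real.log ‖φ n z₀‖ := by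
    filter_upwards [h10] with n hn
    exact Real.log_pos (by linarith)
  refine hK.induction_on (p := fun K => ∃ C : ℝ, 0 < C ∧ ∀ᶠ n in atTop, ∀ z ∈ K, 1 < ‖φ n z‖ ∧
      Real.log ‖φ n z‖ ≤ C * Real.log ‖φ n z₀‖ ∧ Real.log ‖φ n z₀‖ ≤ C * Real.log ‖φ n z‖)
      ?_ ?_ ?_ ?_
  · exact ⟨1, one_pos, Eventually.of_forall (fun n z hz => absurd hz (notMem_empty z))⟩
  · rintro s t hst ⟨C, hC, h⟩
    refine ⟨C, hC, ?_⟩
    filter_upwards [h] with n hn z hz
    exact hn z (hst hz)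
  · rintro s t ⟨C, hC, h⟩ ⟨C', hC', h'⟩
    refine ⟨max C C', lt_max_of_lt_left hC, ?_⟩
    filter_upwards [h, h', hlog0] with n hn hn' hl0 z hz
    rcases hz with hz | hz
    · obtain ⟨h1, h2, h3⟩ := hn z hz
      have hl := Real.log_pos h1
      refine ⟨h1, h2.trans ?_, h3.trans ?_⟩
      · exact mul_le_mul_of_nonneg_right (le_max_left _ _) hl0.le
      · exact mul_le_mul_of_nonneg_right (le_max_left _ _) hl.le
    · obtain ⟨h1, h2, h3⟩ := hn' z hz
      have hl := Real.log_pos h1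
      refine ⟨h1, h2.trans ?_, h3.trans ?_⟩
      · exact mul_le_mul_of_nonneg_right (le_max_right _ _) hl0.le
      · exact mul_le_mul_of_nonneg_right (le_max_right _ _) hl.le
  · intro x hx
    have hxV := hKV hx
    obtain ⟨δ, hδ, hsub, heq⟩ := H.eqc x hxV
    have hesc := H.esc_all hz₀ h₀ hxV
    have h10x := hesc.eventually_ge_atTop 10
    have hball : ∀ᶠ n in atTop, ∀ u ∈ ball x δ, 1 < ‖φ n u‖ := by
      filter_upwards [h10x] with n hn
      exact one_lt_on_ball (heq n) (mem_ball_self hδ) hn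
    obtain ⟨C, hC, h1⟩ := H.cmp hz₀ h₀ hxV hz₀
    obtain ⟨C', hC', h2⟩ := H.cmp hz₀ h₀ hz₀ hxV
    refine ⟨ball x (δ / 2), mem_nhdsWithin_of_mem_nhds (ball_mem_nhds x (by linarith)),
      3 * max C C', by positivity, ?_⟩
    filter_upwards [hball, h1, h2, hlog0] with n hn h1n h2n hl0 z hz
    have hzδ : z ∈ ball x δ := ball_subset_ball (by linarith) hz
    obtain ⟨h3, h4⟩ := harnack_three ((H.diff n).mono hsub) hn hz
    have hlx : 0 < Real.log ‖φ n x‖ := Real.log_pos (hn x (mem_ball_self hδ))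
    have hlz : 0 < Real.log ‖φ n z‖ := Real.log_pos (hn z hzδ)
    refine ⟨hn z hzδ, ?_, ?_⟩
    · calc Real.log ‖φ n z‖ ≤ 3 * Real.log ‖φ n x‖ := h3
        _ ≤ 3 * (C * Real.log ‖φ n z₀‖) := by linarith
        _ ≤ 3 * (max C C' * Real.log ‖φ n z₀‖) := by
          have := mul_le_mul_of_nonneg_right (le_max_left C C') hl0.le
          linarith
        _ = _ := by ring
    · calc Real.log ‖φ n z₀‖ ≤ C' * Real.log ‖φ n x‖ := h2n
        _ ≤ max C C' * Real.log ‖φ n x‖ := mul_le_mul_of_nonneg_right (le_max_right _ _) hlx.le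
        _ ≤ max C C' * (3 * Real.log ‖φ n z‖) := mul_le_mul_of_nonneg_left h4 (by positivity)
        _ = _ := by ring

end Pool.Agent.Helper85.BWD
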