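import Pool.Agent.Helper85.BWD.Defs
import Pool.Agent.Helper85.BWD.Escape
set_option autoImplicit false
namespace Pool.Agent.Helper85.BWD
open Filter Topology Set Metric

/-- The finite value of a point of the sphere (`0` for `∞`). -/
noncomputable def fv (x : OnePoint ℂ) : ℂ := x.elim 0 id

theorem fv_coe (z : ℂ) : fv (z : OnePoint ℂ) = z := rfl

theorem coe_fv {x : OnePoint ℂ} (h : x ≠ OnePoint.infty) : ((fv x : ℂ) : OnePoint ℂ) = x := by
  obtain ⟨y, rfl⟩ := OnePoint.ne_infty_iff_exists.mp h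
  rfl

theorem sphereValue_eq {F φ : ℂ → ℂ} {z : ℂ} (h : F =ᶠ[𝓝[≠] z] φ) (hφ : ContinuousAt φ z) :
    sphereValue F z = (φ z : OnePoint ℂ) := by
  apply Tendsto.limUnder_eq
  have h1 : Tendsto (fun w => ((φ w : ℂ) : OnePoint ℂ)) (𝓝[≠] z) (𝓝 ((φ z : ℂ) : OnePoint ℂ)) :=
    (OnePoint.continuous_coe.continuousAt.comp hφ).tendsto.mono_left nhdsWithin_le_nhds
  refine h1.congr' ?_
  filter_upwards [h] with w hw
  rw [hw]

theorem sphereValue_local {F : ℂ → ℂ} {z₀ : ℂ} (hF : MeromorphicAt F z₀)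
    (h : sphereValue F z₀ ≠ OnePoint.infty) : ∃ φ : ℂ → ℂ, AnalyticAt ℂ φ z₀ ∧
      ∀ᶠ z in 𝓝 z₀, sphereValue F z = (φ z : OnePoint ℂ) := by
  have hord : 0 ≤ meromorphicOrderAt F z₀ := by
    by_contra hcon
    push Not at hcon
    apply h
    apply Tendsto.limUnder_eq
    have h1 := tendsto_cobounded_of_meromorphicOrderAt_neg hcon
    rw [Metric.cobounded_eq_cocompact, ← coclosedCompact_eq_cocompact] at h1
    exact OnePoint.tendsto_coe_infty.comp h1
  have han : AnalyticAt ℂ (toMeromorphicNFAt F z₀) z₀ :=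
    (hF.meromorphicOrderAt_nonneg_iff_analyticAt_toMeromorphicNFAt).mp hord
  refine ⟨toMeromorphicNFAt F z₀, han, ?_⟩
  have heq : ∀ z, z ≠ z₀ → F z = toMeromorphicNFAt F z₀ z := fun z hz =>
    hF.eqOn_compl_singleton_toMeromorphicNFAt hz
  filter_upwards [han.eventually_analyticAt] with z hz
  apply sphereValue_eq _ hz.continuousAt
  by_cases hzz : z = z₀
  · subst hzz
    exact hF.eq_nhdsNE_toMeromorphicNFAt
  · have : ∀ᶠ w in 𝓝 z, w ≠ z₀ := isOpen_ne.mem_nhds hzz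
    filter_upwards [nhdsWithin_le_nhds this] with w hw
    exact heq w hw

theorem sphereValue_of_continuousAt {F : ℂ → ℂ} {z : ℂ} (hF : ContinuousAt F z) :
    sphereValue F z = (F z : OnePoint ℂ) := sphereValue_eq (EventuallyEq.refl _ _) hF

theorem iter_zero (F : ℂ → ℂ) (z : ℂ) : iter F 0 z = (z : OnePoint ℂ) := rfl

theorem iter_succ_of_ne {F : ℂ → ℂ} {n : ℕ} {z : ℂ} (h : iter F n z ≠ OnePoint.infty) :
    iter F (n + 1) z = sphereValue F (fv (iter F n z)) := by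
  obtain ⟨y, hy⟩ := OnePoint.ne_infty_iff_exists.mp h
  change (iter F n z).elim OnePoint.infty (sphereValue F) = _
  rw [← hy]
  rfl

theorem iter_succ_of_coe {F : ℂ → ℂ} {n : ℕ} {z w : ℂ} (h : iter F n z = (w : OnePoint ℂ)) :
    iter F (n + 1) z = sphereValue F w := by
  change (iter F n z).elim OnePoint.infty (sphereValue F) = _
  rw [h]
  rfl

theorem iter_succ_of_infty {F : ℂ → ℂ} {n : ℕ} {z : ℂ} (h : iter F n z = OnePoint.infty) :
    iter F (n + 1) z = OnePoint.infty := by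
  change (iter F n z).elim OnePoint.infty (sphereValue F) = _
  rw [h]
  rfl

/-- `F^{n+1}(z) = F^n(F(z))`. -/
theorem iter_succ' {F : ℂ → ℂ} {z w : ℂ} (h : sphereValue F z = (w : OnePoint ℂ)) (n : ℕ) :
    iter F (n + 1) z = iter F n w := by
  induction n with
  | zero =>
    rw [iter_succ_of_coe (iter_zero F z), h, iter_zero]
  | succ n ih =>
    by_cases hinf : iter F n w = OnePoint.infty
    · rw [iter_succ_of_infty (ih.trans hinf), iter_succ_of_infty hinf]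
    · rw [iter_succ_of_ne (by rw [ih]; exact hinf), iter_succ_of_ne hinf, ih]

theorem iter_analyticAt {F : ℂ → ℂ} (hF : MeromorphicOn F univ) {N : Set ℂ} (hN : IsOpen N)
    (hfin : ∀ n, ∀ w ∈ N, iter F n w ≠ OnePoint.infty) (n : ℕ) :
    ∀ z ∈ N, AnalyticAt ℂ (fun w => fv (iter F n w)) z := by
  induction n with
  | zero =>
    intro z _
    exact analyticAt_id
  | succ n ih =>
    intro z hz
    have h1 := ih z hz
    set a := fv (iter F n z) with ha
    have hsa : sphereValue F a ≠ OnePoint.infty := by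
      have := hfin (n + 1) z hz
      rwa [iter_succ_of_ne (hfin n z hz)] at this
    obtain ⟨φ, hφ, hev⟩ := sphereValue_local (hF a (mem_univ a)) hsa
    have h2 : AnalyticAt ℂ (fun w => φ (fv (iter F n w))) z := AnalyticAt.fun_comp hφ h1
    refine h2.congr ?_
    filter_upwards [h1.continuousAt.eventually hev, hN.mem_nhds hz] with w hw hwN
    rw [iter_succ_of_ne (hfin n w hwN), hw]
    rfl

/-! ### Stereographic projection -/

theorem stereo_infty : stereo OnePoint.infty = WithLp.toLp 2 ((0 : ℂ), (1 : ℝ)) := rfl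

theorem stereo_coe (z : ℂ) : stereo (z : OnePoint ℂ) = WithLp.toLp 2
      ((2 / (1 + ‖z‖ ^ 2) : ℝ) • z, (‖z‖ ^ 2 - 1) / (1 + ‖z‖ ^ 2)) := rfl

theorem snd_sub_le_dist (x y : WithLp 2 (ℂ × ℝ)) : |x.snd - y.snd| ≤ dist x y := by
  rw [WithLp.prod_dist_eq_of_L2]
  apply Real.le_sqrt_of_sq_le
  rw [sq_abs, Real.dist_eq, sq_abs]
  have := sq_nonneg (dist x.fst y.fst)
  linarith

theorem stereo_coe_snd (z : ℂ) : (stereo (z : OnePoint ℂ)).snd = hgt ‖z‖ := by
  rw [stereo_coe]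
  rfl

theorem dist_stereo_infty_le {z : ℂ} (hz : 0 < ‖z‖) :
    dist (stereo OnePoint.infty) (stereo (z : OnePoint ℂ)) ≤ 2 / ‖z‖ := by
  rw [stereo_infty, stereo_coe, WithLp.prod_dist_eq_of_L2]
  apply Real.sqrt_le_iff.mpr
  refine ⟨by positivity, ?_⟩
  have e1 : dist (0 : ℂ) ((2 / (1 + ‖z‖ ^ 2) : ℝ) • z) = 2 / (1 + ‖z‖ ^ 2) * ‖z‖ := by
    rw [dist_zero_left, norm_smul, Real.norm_eq_abs, abs_of_nonneg (by positivity)]
  have e2 : dist (1 : ℝ) ((‖z‖ ^ 2 - 1) / (1 + ‖z‖ ^ 2)) = 2 / (1 + ‖z‖ ^ 2) := by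
    rw [Real.dist_eq]
    have : (1 : ℝ) - (‖z‖ ^ 2 - 1) / (1 + ‖z‖ ^ 2) = 2 / (1 + ‖z‖ ^ 2) := by
      field_simp
      ring
    rw [this, abs_of_nonneg (by positivity)]
  change dist (0 : ℂ) ((2 / (1 + ‖z‖ ^ 2) : ℝ) • z) ^ 2 +
    dist (1 : ℝ) ((‖z‖ ^ 2 - 1) / (1 + ‖z‖ ^ 2)) ^ 2 ≤ (2 / ‖z‖) ^ 2
  rw [e1, e2]
  have e3 : (2 / (1 + ‖z‖ ^ 2) * ‖z‖) ^ 2 + (2 / (1 + ‖z‖ ^ 2)) ^ 2 = 4 / (1 + ‖z‖ ^ 2) := by
    field_simp
    ring
  rw [e3, div_pow, div_le_div_iff₀ (by positivity) (by positivity)]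
  nlinarith [sq_nonneg ‖z‖]

/-! ### Fatou set -/

theorem mem_fatouSet_of_open {F : ℂ → ℂ} {N : Set ℂ} (hN : IsOpen N)
    (hfin : ∀ n, ∀ w ∈ N, iter F n w ≠ OnePoint.infty) (hnorm : IsNormalFamilyOn (iter F) N) :
    N ⊆ fatouSet F := fun _ hz => ⟨N, hN, hz, hfin, hnorm⟩

theorem isOpen_fatouSet (F : ℂ → ℂ) : IsOpen (fatouSet F) := by
  rw [isOpen_iff_mem_nhds]
  rintro z ⟨N, hN, hz, hfin, hnorm⟩
  exact mem_of_superset (hN.mem_nhds hz) (mem_fatouSet_of_open hN hfin hnorm)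

theorem iter_ne_infty {F : ℂ → ℂ} {z : ℂ} (hz : z ∈ fatouSet F) (n : ℕ) :
    iter F n z ≠ OnePoint.infty := by
  obtain ⟨N, _, hzN, hfin, _⟩ := hz
  exact hfin n z hzN

theorem iter_analyticAt_fatou {F : ℂ → ℂ} (hF : MeromorphicOn F univ) (n : ℕ) {z : ℂ}
    (hz : z ∈ fatouSet F) : AnalyticAt ℂ (fun w => fv (iter F n w)) z := by
  obtain ⟨N, hN, hzN, hfin, _⟩ := hz
  exact iter_analyticAt hF hN hfin n z hzN

/-- Equicontinuity of the heights at points of the Fatou set. -/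
theorem fatou_eqc {F : ℂ → ℂ} (hF : MeromorphicOn F univ) {z : ℂ} (hz : z ∈ fatouSet F) :
    ∃ δ > 0, ∀ n, ∀ w ∈ ball z δ, |hgt ‖fv (iter F n w)‖ - hgt ‖fv (iter F n z)‖| ≤ 1 / 10 := by
  obtain ⟨N, hN, hzN, hfin, hnorm⟩ := hz
  have han := iter_analyticAt hF hN hfin
  have hsnd : ∀ n, ∀ w ∈ N, (stereo (iter F n w)).snd = hgt ‖fv (iter F n w)‖ := by
    intro n w hw
    have := stereo_coe_snd (fv (iter F n w))
    rwa [coe_fv (hfin n w hw)] at this
  by_contra hcon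
  push Not at hcon
  obtain ⟨r, hr, hrN⟩ := Metric.isOpen_iff.mp hN z hzN
  have hchoice : ∀ k : ℕ, ∃ n : ℕ, ∃ w ∈ ball z (1 / ((k : ℝ) + 1)),
      1 / 10 < |hgt ‖fv (iter F n w)‖ - hgt ‖fv (iter F n z)‖| := fun k =>
    hcon (1 / ((k : ℝ) + 1)) (by positivity)
  choose s w hw hbig using hchoice
  have hwz : Tendsto w atTop (𝓝 z) := by
    rw [tendsto_iff_dist_tendsto_zero]
    refine squeeze_zero (fun _ => dist_nonneg) (fun k => (mem_ball.mp (hw k)).le) ?_
    exact tendsto_one_div_add_atTop_nhds_zero_nat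
  obtain ⟨t, ht, g, hg⟩ := hnorm s
  rw [Metric.tendstoLocallyUniformlyOn_iff] at hg
  obtain ⟨u, hu, hJ⟩ := hg (1 / 100) (by norm_num) z hzN
  rw [hN.nhdsWithin_eq hzN] at hu
  obtain ⟨J, hJ⟩ := eventually_atTop.mp hJ
  have hcont : ContinuousAt (fun w => hgt ‖fv (iter F (s (t J)) w)‖) z := by
    have h1 := (han (s (t J)) z hzN).continuousAt
    have h2 : Continuous hgt := by
      unfold hgt
      exact Continuous.div (by fun_prop) (by fun_prop) (fun x => by positivity)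
    exact h2.continuousAt.comp h1.norm
  have hev1 : ∀ᶠ y in 𝓝 z, |hgt ‖fv (iter F (s (t J)) y)‖ - hgt ‖fv (iter F (s (t J)) z)‖| < 1 / 100 := by
    have := Metric.continuousAt_iff'.mp hcont (1 / 100) (by norm_num)
    simpa [Real.dist_eq] using this
  have hsub := (hwz.comp ht.tendsto_atTop)
  obtain ⟨j, ⟨⟨hj1, hj2⟩, hj3⟩, hjJ⟩ := ((hsub.eventually ((hev1.and (hu : ∀ᶠ y in 𝓝 z, y ∈ u)).and
    (hN.mem_nhds hzN : ∀ᶠ y in 𝓝 z, y ∈ N))).and (eventually_ge_atTop J)).exists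
  simp only [Function.comp_apply] at hj1 hj2 hj3
  have hzu : z ∈ u := mem_of_mem_nhds hu
  set y := w (t j) with hy
  have key : ∀ i, J ≤ i → ∀ x ∈ u, x ∈ N → |(stereo (g x)).snd - hgt ‖fv (iter F (s (t i)) x)‖| < 1 / 100 := by
    intro i hi x hx hxN
    have h1 := hJ i hi x hx
    have h2 := snd_sub_le_dist (stereo (g x)) (stereo (iter F (s (t i)) x))
    rw [hsnd _ x hxN] at h2
    linarith
  have k1 := abs_lt.mp (key j hjJ y hj2 hj3)
  have k2 := abs_lt.mp (key J le_rfl y hj2 hj3)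
  have k3 := abs_lt.mp (key J le_rfl z hzu hzN)
  have k4 := abs_lt.mp (key j hjJ z hzu hzN)
  have k5 := abs_lt.mp hj1
  have hb := hbig (t j)
  rw [← hy] at hb
  have hb' : |hgt ‖fv (iter F (s (t j)) y)‖ - hgt ‖fv (iter F (s (t j)) z)‖| ≤ 1 / 10 := by
    rw [abs_le]
    constructor <;> linarith [k1.1, k1.2, k2.1, k2.2, k3.1, k3.2, k4.1, k4.2, k5.1, k5.2]
  linarith

/-- Open connected subsets of the Fatou set give equicontinuous families. -/
theorem eqFamily_of_fatou {F : ℂ → ℂ} (hF : MeromorphicOn F univ) {V : Set ℂ} (hV : IsOpen V)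
    (hVc : IsPreconnected V) (hVF : V ⊆ fatouSet F) :
    EqFamily V (fun n z => fv (iter F n z)) := by
  refine ⟨hV, hVc, ?_, ?_⟩
  · intro n z hz
    exact (iter_analyticAt_fatou hF n (hVF hz)).differentiableAt.differentiableWithinAt
  · intro z hz
    obtain ⟨δ, hδ, h⟩ := fatou_eqc hF (hVF hz)
    obtain ⟨r, hr, hrV⟩ := Metric.isOpen_iff.mp hV z hz
    refine ⟨min δ r, lt_min hδ hr, (ball_subset_ball (min_le_right _ _)).trans hrV, ?_⟩
    intro n w hw
    exact h n w (ball_subset_ball (min_le_left _ _) hw)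

/-- An open set on which the iterates tend to infinity uniformly lies in the Fatou set. -/
theorem subset_fatou_of_escape {F : ℂ → ℂ} {N : Set ℂ} (hN : IsOpen N)
    (hfin : ∀ n, ∀ w ∈ N, iter F n w ≠ OnePoint.infty)
    (hesc : ∀ R : ℝ, ∀ᶠ n in atTop, ∀ z ∈ N, R ≤ ‖fv (iter F n z)‖) : N ⊆ fatouSet F := by
  apply mem_fatouSet_of_open hN hfin
  intro s
  by_cases hs : ∃ m, ∃ᶠ k in atTop, s k = m
  · obtain ⟨m, hm⟩ := hs
    obtain ⟨t, ht, hst⟩ := Filter.extraction_of_frequently_atTop hm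
    refine ⟨t, ht, iter F m, ?_⟩
    rw [Metric.tendstoLocallyUniformlyOn_iff]
    intro ε hε x _
    refine ⟨univ, univ_mem, Eventually.of_forall fun j y _ => ?_⟩
    rw [hst j, dist_self]
    exact hε
  · push Not at hs
    have hs' : ∀ m, ∀ᶠ k in atTop, s k ≠ m := fun m => by
      have := hs m
      simpa [Filter.not_frequently] using this
    have htend : Tendsto s atTop atTop := by
      rw [Filter.tendsto_atTop]
      intro b
      have h1 : ∀ᶠ k in atTop, ∀ i ∈ Finset.range b, s k ≠ i :=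
        (Filter.eventually_all_finset (Finset.range b)).mpr (fun i _ => hs' i)
      filter_upwards [h1] with k hk
      by_contra hlt
      push Not at hlt
      exact hk (s k) (Finset.mem_range.mpr hlt) rfl
    refine ⟨id, strictMono_id, fun _ => OnePoint.infty, ?_⟩
    rw [Metric.tendstoLocallyUniformlyOn_iff]
    intro ε hε x _
    refine ⟨N, self_mem_nhdsWithin, ?_⟩
    have h1 := htend.eventually (hesc (4 / ε))
    filter_upwards [h1] with j hj y hy
    have h2 := hj y hy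
    have h3 : 0 < ‖fv (iter F (s j) y)‖ := lt_of_lt_of_le (by positivity) h2
    have h4 := dist_stereo_infty_le h3
    rw [coe_fv (hfin _ y hy)] at h4
    refine lt_of_le_of_lt h4 ?_
    rw [div_lt_iff₀ h3]
    rw [div_le_iff₀ hε] at h2
    nlinarith

end Pool.Agent.Helper85.BWD
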