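import Pool.Agent.Helper85.BWD.Setup
set_option autoImplicit false
namespace Pool.Agent.Helper85.BWD
open Filter Topology Set Metric

section
variable {f : ℂ → ℂ} {W : Set ℂ} {z₀ : ℂ} {E₀ : Set ℂ} {δ₀ : ℝ}

/-- The reference scale. -/
noncomputable def scale (f : ℂ → ℂ) (z₀ : ℂ) (n : ℕ) : ℝ := Real.log ‖f^[n] z₀‖

theorem Setup.scale_tendsto (S : Setup f W z₀ E₀ δ₀) : Tendsto (scale f z₀) atTop atTop :=
  S.hesc.log

theorem Setup.consts (S : Setup f W z₀ E₀ δ₀) {K : Set ℂ} (hK : IsCompact K) (hKW : K ⊆ W) :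
    ∃ C : ℝ, 1 ≤ C ∧ ∀ᶠ n in atTop, 0 < scale f z₀ n ∧ ∀ z ∈ K,
      1 < ‖f^[n] z‖ ∧ Real.log ‖f^[n] z‖ ≤ C * scale f z₀ n ∧
      scale f z₀ n / C ≤ Real.log ‖f^[n] z‖ := by
  obtain ⟨C, hC, h⟩ := S.H.cmp_compact S.hz₀ S.hesc hK hKW
  refine ⟨max C 1, le_max_right _ _, ?_⟩
  filter_upwards [h, S.scale_tendsto.eventually_gt_atTop 0] with n hn hu
  refine ⟨hu, fun z hz => ?_⟩
  obtain ⟨h1, h2, h3⟩ := hn z hz
  have hl := Real.log_pos h1
  have hm : 0 < max C 1 := lt_max_of_lt_left hC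
  refine ⟨h1, h2.trans ?_, ?_⟩
  · exact mul_le_mul_of_nonneg_right (le_max_left _ _) hu.le
  · rw [div_le_iff₀ hm]
    change Real.log ‖f^[n] z₀‖ ≤ _
    refine h3.trans ?_
    rw [mul_comm]
    exact mul_le_mul_of_nonneg_left (le_max_left _ _) hl.le

theorem Setup.third_mem_collar (S : Setup f W z₀ E₀ δ₀) {z : ℂ} (hz : infDist z E₀ = δ₀ / 3) :
    z ∈ collar E₀ δ₀ := by
  have := S.hδ₀
  exact ⟨hz.ge, by rw [hz]; linarith⟩

theorem Setup.twothird_mem_collar (S : Setup f W z₀ E₀ δ₀) {z : ℂ}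
    (hz : infDist z E₀ = 2 * δ₀ / 3) : z ∈ collar E₀ δ₀ := by
  have := S.hδ₀
  exact ⟨by rw [hz]; linarith, hz.le⟩

/-- The data obtained from the collar. -/
structure Setup.Const (S : Setup f W z₀ E₀ δ₀) (C : ℝ) : Prop where
  one_le : 1 ≤ C
  ev : ∀ᶠ n in atTop, 0 < scale f z₀ n ∧ ∀ z ∈ collar E₀ δ₀,
      1 < ‖f^[n] z‖ ∧ Real.log ‖f^[n] z‖ ≤ C * scale f z₀ n ∧
      scale f z₀ n / C ≤ Real.log ‖f^[n] z‖

theorem Setup.exists_const (S : Setup f W z₀ E₀ δ₀) : ∃ C, S.Const C := by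
  obtain ⟨C, h1, h2⟩ := S.consts S.collar_compact S.collar_subset
  exact ⟨C, h1, h2⟩

theorem Setup.lower (S : Setup f W z₀ E₀ δ₀) {C : ℝ} (hC : S.Const C) :
    ∀ᶠ n in atTop, ∀ z ∈ collar E₀ δ₀, Real.exp (scale f z₀ n / C) ≤ ‖f^[n] z‖ := by
  filter_upwards [hC.ev] with n hn z hz
  obtain ⟨h1, h2, h3⟩ := hn.2 z hz
  rwa [← Real.le_log_iff_exp_le (by linarith)]

theorem Setup.upper (S : Setup f W z₀ E₀ δ₀) {C : ℝ} (hC : S.Const C) :
    ∀ᶠ n in atTop, ∀ z ∈ collar E₀ δ₀, ‖f^[n] z‖ ≤ Real.exp (C * scale f z₀ n) := by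
  filter_upwards [hC.ev] with n hn z hz
  obtain ⟨h1, h2, h3⟩ := hn.2 z hz
  rwa [← Real.log_le_iff_le_exp (by linarith)]

theorem Setup.upper_G (S : Setup f W z₀ E₀ δ₀) {C : ℝ} (hC : S.Const C) :
    ∀ᶠ n in atTop, ∀ z ∈ G E₀ (δ₀ / 3), ‖f^[n] z‖ ≤ Real.exp (C * scale f z₀ n) := by
  filter_upwards [S.upper hC] with n hn z hz
  exact S.max_principle (fun w hw => hn w (S.third_mem_collar hw)) (subset_closure hz)

theorem Setup.exp_tendsto (S : Setup f W z₀ E₀ δ₀) {C : ℝ} (hC : 0 < C) :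
    Tendsto (fun n => Real.exp (scale f z₀ n / C)) atTop atTop :=
  Real.tendsto_exp_atTop.comp (S.scale_tendsto.atTop_div_const hC)

theorem Setup.covers_eventually (S : Setup f W z₀ E₀ δ₀) {C : ℝ} (hC : S.Const C) :
    ∀ᶠ n in atTop, ball (0 : ℂ) (Real.exp (scale f z₀ n / C)) ⊆ f^[n] '' G E₀ (δ₀ / 3) := by
  have hδ := S.hδ₀
  have hC0 : 0 < C := by linarith [hC.one_le]
  -- it suffices to find points of small modulus
  suffices hT : ∀ᶠ n in atTop, ∃ z ∈ G E₀ (δ₀ / 3), ‖f^[n] z‖ < Real.exp (scale f z₀ n / C) by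
    filter_upwards [hT, S.lower hC] with n hn hl
    exact S.covers (fun z hz => hl z (S.third_mem_collar hz)) hn
  have hfreq : ∃ᶠ n in atTop, ∃ z ∈ G E₀ (δ₀ / 3), ‖f^[n] z‖ < Real.exp (scale f z₀ n / C) := by
    intro hcon
    apply S.hnon (δ₀ / 3) (by linarith) (by linarith)
    intro R
    filter_upwards [hcon, (S.exp_tendsto hC0).eventually_ge_atTop R] with n hn hR z hz
    push Not at hn
    exact hR.trans (hn z hz)
  have hstep : ∀ᶠ n in atTop, (∃ z ∈ G E₀ (δ₀ / 3), ‖f^[n] z‖ < Real.exp (scale f z₀ n / C)) →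
      ∃ z ∈ G E₀ (δ₀ / 3), ‖f^[n + 1] z‖ < Real.exp (scale f z₀ (n + 1) / C) := by
    have h1 : ∀ᶠ n in atTop, ‖f 0‖ < Real.exp (scale f z₀ (n + 1) / C) :=
      (tendsto_add_atTop_nat 1).eventually ((S.exp_tendsto hC0).eventually_gt_atTop ‖f 0‖)
    filter_upwards [S.lower hC, h1] with n hl h1n hex
    have hcov := S.covers (fun z hz => hl z (S.third_mem_collar hz)) hex
    obtain ⟨z, hz, hfz⟩ := hcov (mem_ball_self (Real.exp_pos _))
    refine ⟨z, hz, ?_⟩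
    rw [Function.iterate_succ_apply', hfz]
    exact h1n
  obtain ⟨N, hN⟩ := eventually_atTop.mp hstep
  obtain ⟨n₁, hn₁, hTn₁⟩ := frequently_atTop.mp hfreq N
  rw [eventually_atTop]
  refine ⟨n₁, fun n hn => ?_⟩
  induction n, hn using Nat.le_induction with
  | base => exact hTn₁
  | succ n hn ih => exact hN n (by omega) ih

theorem Setup.growth (S : Setup f W z₀ E₀ δ₀) (A : ℝ) :
    ∀ᶠ n in atTop, A * scale f z₀ n ≤ scale f z₀ (n + 1) := by
  obtain ⟨C, hC⟩ := S.exists_const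
  have hC0 : 0 < C := by linarith [hC.one_le]
  obtain ⟨K, hK⟩ := exists_nat_ge (2 * C ^ 2 * A)
  obtain ⟨r₀, hr₀⟩ := growth_of_not_polynomial S.hf S.hft K
  have hup : ∀ᶠ n in atTop, ∀ z ∈ G E₀ (δ₀ / 3),
      ‖f^[n + 1] z‖ ≤ Real.exp (C * scale f z₀ (n + 1)) :=
    (tendsto_add_atTop_nat 1).eventually (S.upper_G hC)
  filter_upwards [S.covers_eventually hC, (S.exp_tendsto (by linarith : 0 < 2 * C)).eventually_ge_atTop r₀,
    hup, hC.ev] with n hcov hr hup hev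
  have hu := hev.1
  obtain ⟨w, hw, hwK⟩ := hr₀ _ hr
  have hwn : ‖w‖ = Real.exp (scale f z₀ n / (2 * C)) := by simpa using hw
  have hwb : w ∈ ball (0 : ℂ) (Real.exp (scale f z₀ n / C)) := by
    rw [mem_ball, dist_zero_right, hwn]
    apply Real.exp_lt_exp.mpr
    apply div_lt_div_of_pos_left hu hC0
    linarith
  obtain ⟨z, hz, hfz⟩ := hcov hwb
  have h1 := hup z hz
  rw [Function.iterate_succ_apply', hfz] at h1
  have h2 := hwK.trans h1
  rw [← Real.exp_nat_mul, Real.exp_le_exp] at h2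
  have h3 : 2 * C ^ 2 * A * scale f z₀ n ≤ K * scale f z₀ n := mul_le_mul_of_nonneg_right hK hu.le
  have h4 : (K : ℝ) * (scale f z₀ n / (2 * C)) = K * scale f z₀ n / (2 * C) := by ring
  rw [h4, div_le_iff₀ (by positivity)] at h2
  have h5 : 2 * C ^ 2 * (A * scale f z₀ n) ≤ 2 * C ^ 2 * scale f z₀ (n + 1) := by nlinarith
  exact le_of_mul_le_mul_left h5 (by positivity)

theorem Setup.small_disc (S : Setup f W z₀ E₀ δ₀) {C : ℝ} (hC : S.Const C) :
    ∃ o : ℂ, ∃ r : ℝ, 0 < r ∧ closedBall o r ⊆ G E₀ (δ₀ / 3) ∧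
      ∀ᶠ n in atTop, ∀ z ∈ closedBall o r, ‖f^[n] z‖ ≤ Real.exp (scale f z₀ n / (2 * C)) := by
  have hδ := S.hδ₀
  have hC0 : 0 < C := by linarith [hC.one_le]
  obtain ⟨j, hj1, hj⟩ := ((eventually_ge_atTop 1).and (S.covers_eventually hC)).exists
  obtain ⟨o, ho, hfo⟩ := hj (mem_ball_self (Real.exp_pos _))
  have h0G : (0 : ℂ) ∈ G E₀ (δ₀ / 3) := by
    show infDist (0 : ℂ) E₀ < δ₀ / 3
    rw [infDist_zero_of_mem S.h0]
    linarith
  have hopen : IsOpen (G E₀ (δ₀ / 3) ∩ f^[j] ⁻¹' G E₀ (δ₀ / 3)) :=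
    (isOpen_G _ _).inter ((isOpen_G _ _).preimage (S.diff_iter j).continuous)
  obtain ⟨r, hr, hsub⟩ := Metric.isOpen_iff.mp hopen o ⟨ho, by
    show f^[j] o ∈ G E₀ (δ₀ / 3)
    rw [hfo]; exact h0G⟩
  have hcl : closedBall o (r / 2) ⊆ G E₀ (δ₀ / 3) ∩ f^[j] ⁻¹' G E₀ (δ₀ / 3) :=
    (closedBall_subset_ball (by linarith)).trans hsub
  refine ⟨o, r / 2, by linarith, fun z hz => (hcl hz).1, ?_⟩
  -- growth
  obtain ⟨k₀, hk₀⟩ := eventually_atTop.mp
    (((S.growth 1).and (S.growth (2 * C ^ 2))).and ((S.upper_G hC).and hC.ev))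
  have mono : ∀ a b, k₀ ≤ a → a ≤ b → scale f z₀ a ≤ scale f z₀ b := by
    intro a b ha hab
    induction b, hab using Nat.le_induction with
    | base => exact le_refl _
    | succ b hb ih =>
      have := (hk₀ b (by omega)).1.1
      linarith
  rw [eventually_atTop]
  refine ⟨k₀ + j + 1, fun n hn z hz => ?_⟩
  have h1 : f^[n] z = f^[n - j] (f^[j] z) := by
    rw [← Function.iterate_add_apply]
    congr 1
    omega
  rw [h1]
  have h2 := (hk₀ (n - j) (by omega)).2.1 _ (hcl hz).2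
  refine h2.trans (Real.exp_le_exp.mpr ?_)
  have h3 : scale f z₀ (n - j) ≤ scale f z₀ (n - 1) := mono _ _ (by omega) (by omega)
  have h4 := (hk₀ (n - 1) (by omega)).1.2
  have h5 : n - 1 + 1 = n := by omega
  rw [h5] at h4
  rw [le_div_iff₀ (by positivity)]
  have h6 : C * scale f z₀ (n - j) * (2 * C) ≤ 2 * C ^ 2 * scale f z₀ (n - 1) := by
    have : 2 * C ^ 2 * scale f z₀ (n - j) ≤ 2 * C ^ 2 * scale f z₀ (n - 1) :=
      mul_le_mul_of_nonneg_left h3 (by positivity)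
    linarith
  linarith

theorem Setup.gap (S : Setup f W z₀ E₀ δ₀) : ∃ θ : ℝ, 0 < θ ∧ ∃ p ∈ collar E₀ δ₀,
    ∀ᶠ n in atTop, ∃ q ∈ collar E₀ δ₀,
      Real.log ‖f^[n] p‖ ≤ (1 - θ) * Real.log ‖f^[n] q‖ := by
  have hδ := S.hδ₀
  obtain ⟨C, hC⟩ := S.exists_const
  have hC0 : 0 < C := by linarith [hC.one_le]
  obtain ⟨o, r, hr, hball, hsmall⟩ := S.small_disc hC
  have hoG : infDist o E₀ < δ₀ / 3 := hball (mem_closedBall_self hr.le)
  -- first exit time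
  have hcont : Continuous (fun t : ℝ => infDist (o + (t : ℂ)) E₀) :=
    (continuous_infDist_pt E₀).comp (continuous_const.add Complex.continuous_ofReal)
  obtain ⟨T, hT0, hT⟩ : ∃ T : ℝ, 0 ≤ T ∧ δ₀ / 3 ≤ infDist (o + (T : ℂ)) E₀ := by
    obtain ⟨B, hB⟩ := (S.isBounded_le (δ₀ / 3)).subset_closedBall (0 : ℂ)
    refine ⟨|B| + ‖o‖ + 1, by positivity, ?_⟩
    by_contra hcon
    push Not at hcon
    have h1 := hB (show (o + ((|B| + ‖o‖ + 1 : ℝ) : ℂ)) ∈ {z | infDist z E₀ ≤ δ₀ / 3} from hcon.le)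
    rw [mem_closedBall, dist_zero_right] at h1
    have h2 : ‖((|B| + ‖o‖ + 1 : ℝ) : ℂ)‖ = |B| + ‖o‖ + 1 := by
      rw [Complex.norm_real, Real.norm_eq_abs, abs_of_nonneg (by positivity)]
    have h3 : ‖((|B| + ‖o‖ + 1 : ℝ) : ℂ)‖ ≤ ‖o + ((|B| + ‖o‖ + 1 : ℝ) : ℂ)‖ + ‖o‖ := by
      have := norm_sub_le (o + ((|B| + ‖o‖ + 1 : ℝ) : ℂ)) o
      rwa [add_sub_cancel_left] at this
    have := le_abs_self B
    linarith
  obtain ⟨t', ⟨⟨ht'0, ht'd⟩, hleast⟩⟩ : ∃ t' : ℝ, IsLeast {t : ℝ | 0 ≤ t ∧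
      infDist (o + (t : ℂ)) E₀ = δ₀ / 3} t' := by
    have hne : ({t : ℝ | 0 ≤ t ∧ infDist (o + (t : ℂ)) E₀ = δ₀ / 3}).Nonempty := by
      obtain ⟨t, ht, hte⟩ := intermediate_value_Icc hT0 hcont.continuousOn
        (show δ₀ / 3 ∈ Icc (infDist (o + ((0 : ℝ) : ℂ)) E₀) (infDist (o + (T : ℂ)) E₀) from
          ⟨by rw [Complex.ofReal_zero, add_zero]; exact hoG.le, hT⟩)
      exact ⟨t, ht.1, hte⟩
    have hclosed : IsClosed {t : ℝ | 0 ≤ t ∧ infDist (o + (t : ℂ)) E₀ = δ₀ / 3} :=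
      isClosed_Ici.inter (isClosed_eq hcont continuous_const)
    have hbdd : BddBelow {t : ℝ | 0 ≤ t ∧ infDist (o + (t : ℂ)) E₀ = δ₀ / 3} :=
      ⟨0, fun t ht => ht.1⟩
    exact ⟨_, hclosed.isLeast_csInf hne hbdd⟩
  have hseg : ∀ t : ℝ, 0 ≤ t → t ≤ t' → infDist (o + (t : ℂ)) E₀ ≤ δ₀ / 3 := by
    intro t ht0 htt'
    by_contra hcon
    push Not at hcon
    obtain ⟨s, hs, hse⟩ := intermediate_value_Icc ht0 hcont.continuousOn
        (show δ₀ / 3 ∈ Icc (infDist (o + ((0 : ℝ) : ℂ)) E₀) (infDist (o + (t : ℂ)) E₀) from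
          ⟨by rw [Complex.ofReal_zero, add_zero]; exact hoG.le, hcon.le⟩)
    have h1 : t' ≤ s := hleast ⟨hs.1, hse⟩
    have h2 : s = t := le_antisymm hs.2 (htt'.trans h1)
    have hse' : infDist (o + (s : ℂ)) E₀ = δ₀ / 3 := hse
    rw [h2] at hse'
    linarith
  set p : ℂ := o + (t' : ℂ) with hp
  have hpc : p ∈ collar E₀ δ₀ := S.third_mem_collar ht'd
  set τ : ℝ := min r (δ₀ / 13) with hτ
  have hτ0 : 0 < τ := lt_min hr (by linarith)
  have hτr : τ ≤ r := min_le_left _ _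
  have hτδ : 4 * τ < δ₀ / 3 := by
    have : τ ≤ δ₀ / 13 := min_le_right _ _
    linarith
  obtain ⟨ℓ, hℓ⟩ := exists_nat_ge (t' / τ + 1)
  have hℓ0 : (0 : ℝ) < ℓ := by
    have : 0 ≤ t' / τ := div_nonneg ht'0 hτ0.le
    linarith
  have hℓτ : t' / ℓ ≤ τ := by
    rw [div_le_iff₀ hℓ0]
    have : t' / τ ≤ ℓ := by linarith
    rw [div_le_iff₀ hτ0] at this
    linarith
  refine ⟨(1 / 2) ^ (ℓ + 1), by positivity, p, hpc, ?_⟩
  filter_upwards [hsmall, hC.ev] with n hsm hev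
  obtain ⟨q, hq, hqmax⟩ := S.collar_compact.exists_isMaxOn S.collar_nonempty
    (f := fun z => ‖f^[n] z‖) (S.diff_iter n).continuous.norm.continuousOn
  refine ⟨q, hq, ?_⟩
  set L := Real.log ‖f^[n] q‖ with hL
  have hq1 : 1 < ‖f^[n] q‖ := (hev.2 q hq).1
  have hexpL : Real.exp L = ‖f^[n] q‖ := Real.exp_log (by linarith)
  have hG2 : ∀ z ∈ G E₀ (2 * δ₀ / 3), ‖f^[n] z‖ ≤ Real.exp L := by
    intro z hz
    apply S.max_principle (s := 2 * δ₀ / 3) _ (subset_closure hz)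
    intro w hw
    rw [hexpL]
    exact hqmax (S.twothird_mem_collar hw)
  -- base of the induction
  have hbase : ∀ z ∈ closedBall o τ, ‖f^[n] z‖ ≤ Real.exp ((1 - (1 / 2) ^ 1) * L) := by
    intro z hz
    refine (hsm z (closedBall_subset_closedBall hτr hz)).trans (Real.exp_le_exp.mpr ?_)
    have h1 := (hev.2 q hq).2.2
    rw [← hL, div_le_iff₀ hC0] at h1
    rw [div_le_iff₀ (by positivity)]
    nlinarith
  have hind : ∀ i : ℕ, i ≤ ℓ → ∀ z ∈ closedBall (o + ((i * (t' / ℓ) : ℝ) : ℂ)) τ,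
      ‖f^[n] z‖ ≤ Real.exp ((1 - (1 / 2) ^ (i + 1)) * L) := by
    intro i
    induction i with
    | zero =>
      intro _ z hz
      apply hbase z
      simpa using hz
    | succ i ih =>
      intro hi z hz
      have ih' := ih (by omega)
      set c : ℂ := o + ((i * (t' / ℓ) : ℝ) : ℂ) with hc
      have hidx : (i : ℝ) * (t' / ℓ) ≤ t' := by
        have h1 : (i : ℝ) ≤ ℓ := by exact_mod_cast (by omega : i ≤ ℓ)
        have h2 : (ℓ : ℝ) * (t' / ℓ) = t' := by field_simp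
        calc (i : ℝ) * (t' / ℓ) ≤ ℓ * (t' / ℓ) :=
              mul_le_mul_of_nonneg_right h1 (div_nonneg ht'0 hℓ0.le)
          _ = t' := h2
      have hcd : infDist c E₀ ≤ δ₀ / 3 :=
        hseg _ (mul_nonneg (by positivity) (div_nonneg ht'0 hℓ0.le)) hidx
      have hbig : ∀ w ∈ closedBall c (4 * τ), ‖f^[n] w‖ ≤ Real.exp L := by
        intro w hw
        apply hG2
        show infDist w E₀ < 2 * δ₀ / 3
        have h1 : infDist w E₀ ≤ infDist c E₀ + dist w c := infDist_le_infDist_add_dist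
        rw [mem_closedBall] at hw
        linarith
      have hz2 : z ∈ closedBall c (2 * τ) := by
        rw [mem_closedBall] at hz ⊢
        have h1 : dist (o + (((i + 1 : ℕ) * (t' / ℓ) : ℝ) : ℂ)) c ≤ τ := by
          rw [hc, dist_eq_norm]
          have : o + (((i + 1 : ℕ) * (t' / ℓ) : ℝ) : ℂ) - (o + ((i * (t' / ℓ) : ℝ) : ℂ)) =
              ((t' / ℓ : ℝ) : ℂ) := by
            push_cast
            ring
          rw [this, Complex.norm_real, Real.norm_eq_abs, abs_of_nonneg (div_nonneg ht'0 hℓ0.le)]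
          exact hℓτ
        calc dist z c ≤ dist z (o + (((i + 1 : ℕ) * (t' / ℓ) : ℝ) : ℂ)) +
              dist (o + (((i + 1 : ℕ) * (t' / ℓ) : ℝ) : ℂ)) c := dist_triangle _ _ _
          _ ≤ τ + τ := add_le_add hz h1
          _ = 2 * τ := by ring
      have h3 := three_circles hτ0 (S.diff_iter n) ih' hbig hz2
      rw [← Real.exp_add] at h3
      have h4 : Real.exp ((1 - (1 / 2) ^ (i + 1)) * L + L) =
          Real.exp ((1 - (1 / 2) ^ (i + 1 + 1)) * L) ^ 2 := by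
        rw [← Real.exp_nat_mul]
        congr 1
        rw [pow_succ (1 / 2 : ℝ) (i + 1)]
        push_cast
        ring
      rw [h4] at h3
      exact (pow_le_pow_iff_left₀ (norm_nonneg _) (Real.exp_pos _).le (by norm_num)).mp h3
  have hfin := hind ℓ le_rfl p (by
    have : o + ((ℓ * (t' / ℓ) : ℝ) : ℂ) = p := by
      rw [hp]
      congr 2
      field_simp
    rw [this]
    exact mem_closedBall_self hτ0.le)
  have hp1 : 1 < ‖f^[n] p‖ := (hev.2 p hpc).1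
  rwa [← Real.log_le_iff_le_exp (by linarith)] at hfin

end

end Pool.Agent.Helper85.BWD
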