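import Pool.Agent.Helper85.BWD.Annulus
set_option autoImplicit false
namespace Pool.Agent.Helper85.BWD
open Filter Topology Set Metric

/-- Standing hypotheses for the propagation of annuli under an entire function `f`. -/
structure AnnulusHyp (f : ℂ → ℂ) (U : ℕ → Set ℂ) (ρ κ : ℝ) : Prop where
  hf : Differentiable ℂ f
  hU1 : ∀ j, ∀ z ∈ U j, 1 < ‖z‖
  hU2 : ∀ j, ∀ z ∈ U j, f z ∈ U (j + 1)
  h0 : ∀ z : ℂ, z ≠ 0 → |Real.log ‖z‖ - ρ| < κ → z ∈ U 0
  hκ : 16 * Real.pi ≤ κ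
  hκρ : κ ≤ ρ
  hA : avgLog f 0 ≤ κ / 2
  hq : 1024 * Real.pi * ρ ≤ κ ^ 2
  hg : ∀ r, Real.exp (κ / 2) ≤ r → ∃ z ∈ sphere (0 : ℂ) r, r ^ 27 ≤ ‖f z‖

/-- Centres and relative widths of the annuli. -/
noncomputable def sd (f : ℂ → ℂ) (ρ : ℝ) : ℕ → ℝ × ℝ
  | 0 => (ρ, 1)
  | k + 1 => (avgLog f (sd f ρ k).1, zeroCount f (sd f ρ k).1 * (sd f ρ k).2)

/-- The invariant. -/
def Inv (f : ℂ → ℂ) (U : ℕ → Set ℂ) (ρ κ : ℝ) (k : ℕ) : Prop :=
  (∀ z : ℂ, z ≠ 0 → |Real.log ‖z‖ - (sd f ρ k).1| < κ * (1 / 2 + (1 / 2) ^ (k + 1)) * (sd f ρ k).2 →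
    z ∈ U k) ∧ (8 : ℝ) ^ k ≤ (sd f ρ k).2 ∧
    (sd f ρ k).1 ≤ (ρ + κ / 2 * (1 - (1 / 2) ^ k)) * (sd f ρ k).2

section

variable {f : ℂ → ℂ} {U : ℕ → Set ℂ} {ρ κ : ℝ}

theorem Inv.d_pos {k : ℕ} (h : Inv f U ρ κ k) : 0 < (sd f ρ k).2 :=
  lt_of_lt_of_le (by positivity) h.2.1

theorem Inv.one_le_d {k : ℕ} (h : Inv f U ρ κ k) : 1 ≤ (sd f ρ k).2 :=
  le_trans (one_le_pow₀ (by norm_num)) h.2.1

theorem AnnulusHyp.κ_pos (H : AnnulusHyp f U ρ κ) : 0 < κ := by
  have := Real.pi_pos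
  have := H.hκ
  linarith

theorem Inv.width_le (H : AnnulusHyp f U ρ κ) {k : ℕ} (h : Inv f U ρ κ k) :
    κ * (1 / 2 + (1 / 2) ^ (k + 1)) * (sd f ρ k).2 ≤ (sd f ρ k).1 := by
  have hκ := H.κ_pos
  have hd := h.d_pos
  set w := κ * (1 / 2 + (1 / 2) ^ (k + 1)) * (sd f ρ k).2 with hw
  have hw0 : 0 < w := by positivity
  by_contra hcon
  push Not at hcon
  -- choose t with |t - s| < w, t ≤ 0
  set s := (sd f ρ k).1 with hs
  set t := (s - w) / 2 + min s 0 / 2 with ht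
  have h1 : s - w < 0 := by linarith
  have hm1 : min s 0 ≤ s := min_le_left _ _
  have hm2 : min s 0 ≤ 0 := min_le_right _ _
  have hm3 : s - w < min s 0 := lt_min (by linarith) h1
  have ht0 : t < 0 := by linarith
  have hts : |t - s| < w := by
    rw [abs_lt]
    constructor <;> linarith
  have hz : ((Real.exp t : ℝ) : ℂ) ≠ 0 := by
    exact_mod_cast (Real.exp_pos t).ne'
  have hn : ‖((Real.exp t : ℝ) : ℂ)‖ = Real.exp t := by
    rw [Complex.norm_real, Real.norm_eq_abs, abs_of_pos (Real.exp_pos t)]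
  have := H.hU1 k _ (h.1 _ hz (by rw [hn, Real.log_exp]; exact hts))
  rw [hn] at this
  have h2 : Real.exp t < 1 := by
    rw [← Real.exp_zero]
    exact Real.exp_lt_exp.mpr ht0
  linarith

theorem Inv.half_width_le (H : AnnulusHyp f U ρ κ) {k : ℕ} (h : Inv f U ρ κ k) :
    κ / 2 * (sd f ρ k).2 ≤ (sd f ρ k).1 := by
  have h1 := h.width_le H
  have hκ := H.κ_pos
  have hd := h.d_pos
  have : κ / 2 * (sd f ρ k).2 ≤ κ * (1 / 2 + (1 / 2) ^ (k + 1)) * (sd f ρ k).2 := by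
    apply mul_le_mul_of_nonneg_right _ hd.le
    have : (0 : ℝ) < (1 / 2) ^ (k + 1) := by positivity
    nlinarith
  linarith

theorem Inv.s_pos (H : AnnulusHyp f U ρ κ) {k : ℕ} (h : Inv f U ρ κ k) : 0 < (sd f ρ k).1 := by
  have h1 := h.half_width_le H
  have hκ := H.κ_pos
  have hd := h.d_pos
  have : 0 < κ / 2 * (sd f ρ k).2 := by positivity
  linarith

theorem Inv.half_κ_le (H : AnnulusHyp f U ρ κ) {k : ℕ} (h : Inv f U ρ κ k) :
    κ / 2 ≤ (sd f ρ k).1 := by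
  have h1 := h.half_width_le H
  have hκ := H.κ_pos
  have hd := h.one_le_d
  nlinarith

/-- On the annulus `‖f‖ > 1`. -/
theorem Inv.one_lt (H : AnnulusHyp f U ρ κ) {k : ℕ} (h : Inv f U ρ κ k) :
    ∀ z : ℂ, z ≠ 0 → |Real.log ‖z‖ - (sd f ρ k).1| <
      κ * (1 / 2 + (1 / 2) ^ (k + 1)) * (sd f ρ k).2 → 1 < ‖f z‖ :=
  fun z hz hzk => H.hU1 _ _ (H.hU2 _ _ (h.1 z hz hzk))

theorem Inv.zeroCount_lower (H : AnnulusHyp f U ρ κ) {k : ℕ} (h : Inv f U ρ κ k) (K : ℕ)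
    (hK : ∃ z ∈ sphere (0 : ℂ) (Real.exp (sd f ρ k).1), Real.exp (sd f ρ k).1 ^ K ≤ ‖f z‖) :
    (K : ℝ) / 3 * (sd f ρ k).1 ≤ avgLog f (sd f ρ k).1 ∧
    (K : ℝ) / 3 - 1 ≤ zeroCount f (sd f ρ k).1 := by
  have hpi := Real.pi_pos
  have hκ := H.κ_pos
  have hd := h.d_pos
  have hs := h.s_pos H
  have hone := h.one_lt H
  set s := (sd f ρ k).1 with hsdef
  set w := κ * (1 / 2 + (1 / 2) ^ (k + 1)) * (sd f ρ k).2 with hw
  have hw8 : 8 * Real.pi ≤ w := by
    have h1 := h.one_le_d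
    have h2 := H.hκ
    have h3 : (0 : ℝ) < (1 / 2) ^ (k + 1) := by positivity
    have h4 : κ * (1 / 2) ≤ κ * (1 / 2 + (1 / 2) ^ (k + 1)) := by nlinarith
    have h5 : κ * (1 / 2 + (1 / 2) ^ (k + 1)) * 1 ≤ w := by
      rw [hw]
      apply mul_le_mul_of_nonneg_left h1
      positivity
    linarith
  have hw0 : 0 < w := by linarith
  obtain ⟨z, hz, hzK⟩ := hK
  have hzn : ‖z‖ = Real.exp s := by simpa using hz
  have hz0 : z ≠ 0 := by
    rw [← norm_pos_iff, hzn]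
    exact Real.exp_pos s
  have hzl : Real.log ‖z‖ = s := by rw [hzn, Real.log_exp]
  have hest := annulus_estimate H.hf hw0 hone (R := w) (by linarith) hz0 (by
    rw [hzl]; simp)
  rw [hzl, sub_self, mul_zero, add_zero] at hest
  have hlf : (K : ℝ) * s ≤ Real.log ‖f z‖ := by
    have := Real.log_le_log (by positivity) hzK
    rwa [Real.log_pow, Real.log_exp] at this
  have hfz : 0 < Real.log ‖f z‖ := Real.log_pos (hone z hz0 (by rw [hzl]; simpa using hw0))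
  have h4 : 4 * Real.pi / w ≤ 1 / 2 := by
    rw [div_le_div_iff₀ hw0 (by norm_num)]
    linarith
  have hV : 0 ≤ avgLog f s := by
    by_contra hneg
    push Not at hneg
    have h5 : 4 * Real.pi / w * avgLog f s ≤ 0 :=
      mul_nonpos_of_nonneg_of_nonpos (by positivity) hneg.le
    have h6 := hest.trans h5
    have h7 := abs_nonneg (Real.log ‖f z‖ - avgLog f s)
    have h8 : Real.log ‖f z‖ - avgLog f s = 0 := abs_eq_zero.mp (le_antisymm h6 h7)
    linarith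
  have h5 : 4 * Real.pi / w * avgLog f s ≤ 1 / 2 * avgLog f s := mul_le_mul_of_nonneg_right h4 hV
  have h6 : Real.log ‖f z‖ - avgLog f s ≤ 1 / 2 * avgLog f s := (le_abs_self _).trans (hest.trans h5)
  have hVK : (K : ℝ) / 3 * s ≤ avgLog f s := by
    have : (0 : ℝ) ≤ K * s := by positivity
    nlinarith
  refine ⟨hVK, ?_⟩
  have hle := avgLog_le H.hf hs.le
  have hA := H.hA
  have hκs := h.half_κ_le H
  have h7 : (K : ℝ) / 3 * s - s ≤ zeroCount f s * s := by linarith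
  have h8 : ((K : ℝ) / 3 - 1) * s ≤ zeroCount f s * s := by linarith
  exact le_of_mul_le_mul_right h8 hs

theorem Inv.zeroCount_ge (H : AnnulusHyp f U ρ κ) {k : ℕ} (h : Inv f U ρ κ k) :
    8 ≤ zeroCount f (sd f ρ k).1 := by
  have h1 := h.half_κ_le H
  obtain ⟨_, h2⟩ := h.zeroCount_lower H 27 (H.hg _ (Real.exp_le_exp.mpr h1))
  norm_num at h2
  linarith

/-- The basic estimate at stage `k` with margin `σ`. -/
theorem Inv.estimate (H : AnnulusHyp f U ρ κ) {k : ℕ} (h : Inv f U ρ κ k) {σ : ℝ}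
    (hσ : 2 * Real.pi ≤ σ * (sd f ρ k).2) {z : ℂ} (hz : z ≠ 0)
    (hzk : |Real.log ‖z‖ - (sd f ρ k).1| ≤
      (κ * (1 / 2 + (1 / 2) ^ (k + 1)) - σ) * (sd f ρ k).2) :
    |Real.log ‖f z‖ - ((sd f ρ (k + 1)).1 +
      zeroCount f (sd f ρ k).1 * (Real.log ‖z‖ - (sd f ρ k).1))| ≤
      16 * Real.pi * ρ / (σ * (sd f ρ k).2) * (sd f ρ (k + 1)).2 := by
  have hpi := Real.pi_pos
  have hκ := H.κ_pos
  have hd := h.d_pos
  have hs := h.s_pos H
  have hone := h.one_lt H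
  have hN := h.zeroCount_ge H
  have hwpos : 0 < κ * (1 / 2 + (1 / 2) ^ (k + 1)) * (sd f ρ k).2 := by positivity
  have hest := annulus_estimate H.hf hwpos hone hσ hz (by
    calc _ ≤ _ := hzk
      _ = _ := by ring)
  have e1 : (sd f ρ (k + 1)).1 = avgLog f (sd f ρ k).1 := rfl
  have e2 : (sd f ρ (k + 1)).2 = zeroCount f (sd f ρ k).1 * (sd f ρ k).2 := rfl
  rw [e1, e2]
  refine hest.trans ?_
  have hle := avgLog_le H.hf hs.le
  have hA := H.hA
  set s := (sd f ρ k).1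
  set d := (sd f ρ k).2
  set N := zeroCount f s
  set t := Real.log ‖z‖
  have hone_d : 1 ≤ d := h.one_le_d
  have hpw : (1 / 2 : ℝ) ^ (k + 1) ≤ 1 / 2 := by
    calc (1 / 2 : ℝ) ^ (k + 1) = (1 / 2) ^ k * (1 / 2) := pow_succ _ _
      _ ≤ 1 * (1 / 2) := by
        apply mul_le_mul_of_nonneg_right _ (by norm_num)
        exact pow_le_one₀ (by norm_num) (by norm_num)
      _ = 1 / 2 := by norm_num
  have hσ0 : 0 ≤ σ * d := by linarith
  have htd : t - s ≤ κ * d := by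
    have h1 := (le_abs_self _).trans hzk
    have h2 : (κ * (1 / 2 + (1 / 2) ^ (k + 1)) - σ) * d ≤ κ * d := by
      have : κ * (1 / 2 + (1 / 2) ^ (k + 1)) ≤ κ := by nlinarith
      nlinarith
    linarith
  have hc : s ≤ (ρ + κ / 2) * d := by
    have h1 := h.2.2
    have h2 : (ρ + κ / 2 * (1 - (1 / 2) ^ k)) * d ≤ (ρ + κ / 2) * d := by
      apply mul_le_mul_of_nonneg_right _ hd.le
      have : (0 : ℝ) < (1 / 2) ^ k := by positivity
      nlinarith
    exact h1.trans h2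
  have hρκ := H.hκρ
  have hbound : avgLog f s + N * (t - s) ≤ 4 * ρ * (N * d) := by
    have h1 : avgLog f s + N * (t - s) ≤ κ / 2 + N * s + N * (κ * d) := by
      have : N * (t - s) ≤ N * (κ * d) := mul_le_mul_of_nonneg_left htd (by linarith)
      linarith
    have h2 : N * s ≤ N * ((ρ + κ / 2) * d) := mul_le_mul_of_nonneg_left hc (by linarith)
    have hNd : 1 ≤ N * d := by nlinarith
    have h3 : κ / 2 ≤ κ / 2 * (N * d) := by nlinarith
    have h4 : κ / 2 + N * ((ρ + κ / 2) * d) + N * (κ * d) ≤ (ρ + 2 * κ) * (N * d) := by nlinarith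
    have h5 : (ρ + 2 * κ) * (N * d) ≤ 4 * ρ * (N * d) :=
      mul_le_mul_of_nonneg_right (by linarith) (by linarith)
    linarith
  have hσd : 0 < σ * d := by linarith
  calc 4 * Real.pi / (σ * d) * (avgLog f s + N * (t - s))
      ≤ 4 * Real.pi / (σ * d) * (4 * ρ * (N * d)) :=
        mul_le_mul_of_nonneg_left hbound (by positivity)
    _ = 16 * Real.pi * ρ / (σ * d) * (N * d) := by ring

theorem inv_zero (H : AnnulusHyp f U ρ κ) : Inv f U ρ κ 0 := by
  refine ⟨?_, ?_, ?_⟩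
  · intro z hz hz0
    apply H.h0 z hz
    have : κ * (1 / 2 + (1 / 2) ^ (0 + 1)) * (sd f ρ 0).2 = κ := by
      change κ * (1 / 2 + (1 / 2) ^ (0 + 1)) * 1 = κ
      ring
    rw [this] at hz0
    exact hz0
  · change (8 : ℝ) ^ 0 ≤ 1
    simp
  · change ρ ≤ (ρ + κ / 2 * (1 - (1 / 2) ^ 0)) * 1
    simp

theorem inv_succ (H : AnnulusHyp f U ρ κ) {k : ℕ} (h : Inv f U ρ κ k) : Inv f U ρ κ (k + 1) := by
  have hpi := Real.pi_pos
  have hκ := H.κ_pos
  have hd := h.d_pos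
  have hd1 := h.one_le_d
  have hs := h.s_pos H
  have hN := h.zeroCount_ge H
  have hκs := h.half_κ_le H
  have hest := fun σ hσ z hz hzk => h.estimate H (σ := σ) hσ (z := z) hz hzk
  have e1 : (sd f ρ (k + 1)).1 = avgLog f (sd f ρ k).1 := rfl
  have e2 : (sd f ρ (k + 1)).2 = zeroCount f (sd f ρ k).1 * (sd f ρ k).2 := rfl
  have h8 := h.2.1
  have hc := h.2.2
  have hinv1 := h.1
  have hle := avgLog_le H.hf hs.le
  have hA := H.hA
  set s := (sd f ρ k).1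
  set d := (sd f ρ k).2
  set N := zeroCount f s
  set s' := (sd f ρ (k + 1)).1
  set d' := (sd f ρ (k + 1)).2
  set κk := κ * (1 / 2 + (1 / 2) ^ (k + 1)) with hκk
  set σ := κ * (1 / 2) ^ (k + 2) / 2 with hσdef
  have h2pow : (0 : ℝ) < (1 / 2) ^ (k + 2) := by positivity
  have hκk' : κ * (1 / 2 + (1 / 2) ^ (k + 1 + 1)) = κk - 2 * σ := by
    rw [hκk, hσdef, pow_succ (1 / 2 : ℝ) (k + 1)]
    ring
  have hd'8 : (8 : ℝ) ^ (k + 1) ≤ d' := by
    rw [e2, pow_succ, mul_comm]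
    exact mul_le_mul hN h8 (by positivity) (by linarith)
  have hd' : 0 < d' := lt_of_lt_of_le (by positivity) hd'8
  have h28 : (1 : ℝ) / 4 ≤ (1 / 2) ^ (k + 2) * d := by
    have : (1 / 2 : ℝ) ^ (k + 2) * 8 ^ k = 1 / 4 * 4 ^ k := by
      rw [pow_add, mul_assoc, mul_comm ((1 / 2 : ℝ) ^ 2), ← mul_assoc, ← mul_pow]
      norm_num
      ring
    have h1 : (1 / 2 : ℝ) ^ (k + 2) * 8 ^ k ≤ (1 / 2) ^ (k + 2) * d :=
      mul_le_mul_of_nonneg_left h8 (by positivity)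
    have h2 : (1 : ℝ) ≤ 4 ^ k := one_le_pow₀ (by norm_num)
    rw [this] at h1
    linarith
  have hσd : κ / 8 ≤ σ * d := by
    rw [hσdef]
    have : κ * (1 / 4) ≤ κ * ((1 / 2) ^ (k + 2) * d) := mul_le_mul_of_nonneg_left h28 hκ.le
    linarith
  have hσ2 : 2 * Real.pi ≤ σ * d := by
    have := H.hκ
    linarith
  have hσpos : 0 < σ := by rw [hσdef]; positivity
  have hσκ : 2 * σ < κk := by
    rw [← sub_pos, ← hκk']
    positivity
  -- the error is at most `σ d'`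
  have herr : 16 * Real.pi * ρ / (σ * d) * d' ≤ σ * d' := by
    apply mul_le_mul_of_nonneg_right _ hd'.le
    have hσd0 : 0 < σ * d := by linarith
    rw [div_le_iff₀ hσd0]
    have hq := H.hq
    -- σ * σ * d ≥ κ^2 * (1/2)^(2k+6) * 8^k ≥ κ^2/64
    have h3 : κ ^ 2 / 64 ≤ σ * (σ * d) := by
      have h4 : σ * (σ * d) = κ ^ 2 / 4 * ((1 / 2) ^ (k + 2) * ((1 / 2) ^ (k + 2) * d)) := by
        rw [hσdef]; ring
      rw [h4]
      have h5 : (1 : ℝ) / 16 ≤ (1 / 2) ^ (k + 2) * ((1 / 2) ^ (k + 2) * d) := by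
        have h6 : (1 / 2 : ℝ) ^ (k + 2) * ((1 / 2) ^ (k + 2) * 8 ^ k) = 1 / 16 * 2 ^ k := by
          have : (8 : ℝ) ^ k = 2 ^ k * (2 ^ k * 2 ^ k) := by
            rw [← mul_pow, ← mul_pow]; norm_num
          rw [this, pow_add]
          have h7 : (1 / 2 : ℝ) ^ k * 2 ^ k = 1 := by rw [← mul_pow]; norm_num
          calc (1 / 2 : ℝ) ^ k * (1 / 2) ^ 2 * ((1 / 2) ^ k * (1 / 2) ^ 2 * (2 ^ k * (2 ^ k * 2 ^ k)))
              = 1 / 16 * ((1 / 2) ^ k * 2 ^ k) * ((1 / 2) ^ k * 2 ^ k) * 2 ^ k := by ring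
            _ = _ := by rw [h7]; ring
        have h7 : (1 / 2 : ℝ) ^ (k + 2) * ((1 / 2) ^ (k + 2) * 8 ^ k) ≤
            (1 / 2) ^ (k + 2) * ((1 / 2) ^ (k + 2) * d) := by
          apply mul_le_mul_of_nonneg_left _ (by positivity)
          exact mul_le_mul_of_nonneg_left h8 (by positivity)
        have h8' : (1 : ℝ) ≤ 2 ^ k := one_le_pow₀ (by norm_num)
        rw [h6] at h7
        linarith
      have : 0 < κ ^ 2 := by positivity
      nlinarith
    linarith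
  refine ⟨?_, hd'8, ?_⟩
  · intro w hw hwk
    change |Real.log ‖w‖ - s'| < κ * (1 / 2 + (1 / 2) ^ (k + 1 + 1)) * d' at hwk
    rw [hκk'] at hwk
    have hwn : 0 < ‖w‖ := norm_pos_iff.mpr hw
    -- the two radii
    set t₁ := s - (κk - σ) * d with ht₁
    set t₂ := s + (κk - σ) * d with ht₂
    have hκσ : 0 < (κk - σ) * d := mul_pos (by linarith) hd
    have hin : ∀ z : ℂ, ‖z‖ = Real.exp t₁ → ‖f z‖ ≤ Real.exp (s' - (κk - 2 * σ) * d') := by
      intro z hz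
      have hz0 : z ≠ 0 := by rw [← norm_pos_iff, hz]; exact Real.exp_pos _
      have hzl : Real.log ‖z‖ = t₁ := by rw [hz, Real.log_exp]
      have habs : |t₁ - s| = (κk - σ) * d := by
        rw [ht₁]
        have : s - (κk - σ) * d - s = -((κk - σ) * d) := by ring
        rw [this, abs_neg, abs_of_pos hκσ]
      have h1 := hest σ hσ2 z hz0 (by rw [hzl, habs])
      rw [hzl] at h1
      have h2 := (le_abs_self _).trans (h1.trans herr)
      have hfz0 : 0 < ‖f z‖ := by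
        have := H.hU1 _ _ (H.hU2 _ _ (hinv1 z hz0 (by
          rw [hzl, habs]
          exact mul_lt_mul_of_pos_right (by linarith) hd)))
        linarith
      rw [← Real.log_le_iff_le_exp hfz0]
      have h3 : N * (t₁ - s) = -(κk - σ) * d' := by
        rw [e2, ht₁]; ring
      rw [h3] at h2
      linarith
    have hout : ∀ z : ℂ, ‖z‖ = Real.exp t₂ → Real.exp (s' + (κk - 2 * σ) * d') ≤ ‖f z‖ := by
      intro z hz
      have hz0 : z ≠ 0 := by rw [← norm_pos_iff, hz]; exact Real.exp_pos _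
      have hzl : Real.log ‖z‖ = t₂ := by rw [hz, Real.log_exp]
      have habs : |t₂ - s| = (κk - σ) * d := by
        rw [ht₂]
        have : s + (κk - σ) * d - s = ((κk - σ) * d) := by ring
        rw [this, abs_of_pos hκσ]
      have h1 := hest σ hσ2 z hz0 (by rw [hzl, habs])
      rw [hzl] at h1
      have h2 := (neg_abs_le _).trans' (neg_le_neg (h1.trans herr))
      have hfz0 : 0 < ‖f z‖ := by
        have := H.hU1 _ _ (H.hU2 _ _ (hinv1 z hz0 (by
          rw [hzl, habs]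
          exact mul_lt_mul_of_pos_right (by linarith) hd)))
        linarith
      rw [← Real.le_log_iff_exp_le hfz0]
      have h3 : N * (t₂ - s) = (κk - σ) * d' := by
        rw [e2, ht₂]; ring
      rw [h3] at h2
      linarith
    rw [abs_lt] at hwk
    obtain ⟨z, hz1, hz2, hfz⟩ := covering_annulus (Real.exp_pos t₁)
      (Real.exp_lt_exp.mpr (by rw [ht₁, ht₂]; linarith)) H.hf (Real.exp_pos _) hin hout
      (w := w) (by
        rw [← Real.lt_log_iff_exp_lt hwn]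
        linarith [hwk.1]) (by
        rw [← Real.log_lt_iff_lt_exp hwn]
        linarith [hwk.2])
    rw [← hfz]
    have hzn : 0 < ‖z‖ := (Real.exp_pos t₁).trans hz1
    have hz0 : z ≠ 0 := norm_pos_iff.mp hzn
    apply H.hU2
    apply hinv1 z hz0
    rw [abs_lt]
    have i1 := (Real.lt_log_iff_exp_lt hzn).mpr hz1
    have i2 := (Real.log_lt_iff_lt_exp hzn).mpr hz2
    have i3 : (κk - σ) * d < κk * d := mul_lt_mul_of_pos_right (by linarith) hd
    constructor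
    · linarith
    · linarith
  · -- bound of the centre
    change s' ≤ (ρ + κ / 2 * (1 - (1 / 2) ^ (k + 1))) * d'
    have h1 : s' ≤ κ / 2 + N * s := by rw [e1]; linarith
    have h2 : N * s ≤ N * ((ρ + κ / 2 * (1 - (1 / 2) ^ k)) * d) :=
      mul_le_mul_of_nonneg_left hc (by linarith)
    have h3 : N * ((ρ + κ / 2 * (1 - (1 / 2) ^ k)) * d) = (ρ + κ / 2 * (1 - (1 / 2) ^ k)) * d' := by
      rw [e2]; ring
    have h4 : (1 : ℝ) ≤ (1 / 2) ^ (k + 1) * d' := by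
      have h5 : (1 / 2 : ℝ) ^ (k + 1) * 8 ^ (k + 1) = 4 ^ (k + 1) := by
        rw [← mul_pow]; norm_num
      have h6 : (1 / 2 : ℝ) ^ (k + 1) * 8 ^ (k + 1) ≤ (1 / 2) ^ (k + 1) * d' :=
        mul_le_mul_of_nonneg_left hd'8 (by positivity)
      have h7 : (1 : ℝ) ≤ 4 ^ (k + 1) := one_le_pow₀ (by norm_num)
      linarith
    have h5 : (ρ + κ / 2 * (1 - (1 / 2) ^ (k + 1))) * d' =
        (ρ + κ / 2 * (1 - (1 / 2) ^ k)) * d' + κ / 2 * ((1 / 2) ^ (k + 1) * d') := by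
      rw [pow_succ]; ring
    rw [h5]
    have h6 : κ / 2 * 1 ≤ κ / 2 * ((1 / 2) ^ (k + 1) * d') :=
      mul_le_mul_of_nonneg_left h4 (by linarith)
    linarith

theorem inv_all (H : AnnulusHyp f U ρ κ) (k : ℕ) : Inv f U ρ κ k := by
  induction k with
  | zero => exact inv_zero H
  | succ k ih => exact inv_succ H ih

end

end Pool.Agent.Helper85.BWD
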