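import Pool.Agent.Helper85.BWD.Structure
set_option autoImplicit false
namespace Pool.Agent.Helper85.BWD
open Filter Topology Set Metric

theorem sphereValue_local' {F : ℂ → ℂ} {z₀ w : ℂ} (hF : MeromorphicAt F z₀)
    (h : sphereValue F z₀ = (w : OnePoint ℂ)) : ∃ φ : ℂ → ℂ, AnalyticAt ℂ φ z₀ ∧
      F =ᶠ[𝓝[≠] z₀] φ ∧ φ z₀ = w := by
  have hord : 0 ≤ meromorphicOrderAt F z₀ := by
    by_contra hcon
    push Not at hcon
    have : sphereValue F z₀ = OnePoint.infty := by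
      apply Tendsto.limUnder_eq
      have h1 := tendsto_cobounded_of_meromorphicOrderAt_neg hcon
      rw [Metric.cobounded_eq_cocompact, ← coclosedCompact_eq_cocompact] at h1
      exact OnePoint.tendsto_coe_infty.comp h1
    rw [this] at h
    exact OnePoint.infty_ne_coe w h
  have han : AnalyticAt ℂ (toMeromorphicNFAt F z₀) z₀ :=
    (hF.meromorphicOrderAt_nonneg_iff_analyticAt_toMeromorphicNFAt).mp hord
  refine ⟨toMeromorphicNFAt F z₀, han, hF.eq_nhdsNE_toMeromorphicNFAt, ?_⟩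
  have h1 := sphereValue_eq hF.eq_nhdsNE_toMeromorphicNFAt han.continuousAt
  rw [h, OnePoint.coe_eq_coe] at h1
  exact h1.symm

theorem sphereValue_mul {f g : ℂ → ℂ} (hf : Differentiable ℂ f) {z w : ℂ} (hg : MeromorphicAt g z)
    (h : sphereValue g z = (w : OnePoint ℂ)) :
    sphereValue (fun z => f z * g z) z = ((f z * w : ℂ) : OnePoint ℂ) := by
  obtain ⟨φ, hφ, heq, hφz⟩ := sphereValue_local' hg h
  have h1 : (fun z => f z * g z) =ᶠ[𝓝[≠] z] fun z => f z * φ z := by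
    filter_upwards [heq] with y hy
    rw [hy]
  rw [sphereValue_eq h1 (hf.continuous.continuousAt.mul hφ.continuousAt), hφz]

theorem log_norm_near_one {w : ℂ} (h : ‖w - 1‖ ≤ 1 / 2) : w ≠ 0 ∧ |Real.log ‖w‖| ≤ 1 := by
  have h1 : 1 / 2 ≤ ‖w‖ := by
    have := norm_sub_norm_le (1 : ℂ) (1 - w)
    rw [norm_one, sub_sub_cancel, norm_sub_rev] at this
    linarith
  have h2 : ‖w‖ ≤ 3 / 2 := by
    have := norm_add_le (w - 1) 1
    rw [sub_add_cancel, norm_one] at this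
    linarith
  have h0 : 0 < ‖w‖ := by linarith
  refine ⟨norm_pos_iff.mp h0, ?_⟩
  rw [abs_le]
  constructor
  · have h3 := Real.one_sub_inv_le_log_of_pos h0
    have h4 : ‖w‖⁻¹ ≤ 2 := by
      rw [inv_le_comm₀ h0 (by norm_num)]
      linarith
    linarith
  · have := Real.log_le_sub_one_of_pos h0
    linarith

section
variable {f g : ℂ → ℂ} {U : ℕ → Set ℂ} {ρ κ : ℝ}

/-- The standing assumptions for the perturbed map. -/
structure Pert (f g : ℂ → ℂ) (U : ℕ → Set ℂ) (ρ κ : ℝ) : Prop where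
  A : AnnulusHyp f U ρ κ
  hft : ¬ ∃ p : Polynomial ℂ, ∀ z, f z = p.eval z
  hg : MeromorphicOn g univ
  hgU : ∀ j, ∀ z ∈ U j, ∃ w : ℂ, sphereValue g z = (w : OnePoint ℂ) ∧ ‖w - 1‖ ≤ 1 / 2

theorem AnnulusHyp.κ48 (H : AnnulusHyp f U ρ κ) : 48 ≤ κ := by
  have := Real.pi_gt_three
  have := H.hκ
  linarith

/-- Orbits of the perturbed map. -/
theorem Pert.orbit (P : Pert f g U ρ κ) {j : ℕ} {z : ℂ} (hz : z ≠ 0)
    (hzj : |Y f ρ j z| ≤ κ / 8) (n : ℕ) :
    ∃ w : ℂ, w ≠ 0 ∧ iter (fun z => f z * g z) n z = (w : OnePoint ℂ) ∧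
      |Y f ρ (j + n) w| ≤ κ / 8 + κ / 12 * (1 - (1 / 8) ^ n) := by
  have hκ := P.A.κ_pos
  induction n with
  | zero =>
    refine ⟨z, hz, rfl, ?_⟩
    simpa using hzj
  | succ n ih =>
    obtain ⟨w, hw, hit, hY⟩ := ih
    have hpn : (0 : ℝ) < (1 / 8) ^ n := by positivity
    have hwU : w ∈ U (j + n) := mem_U_of_Y P.A hw (by nlinarith)
    obtain ⟨c, hc, hc1⟩ := P.hgU _ w hwU
    obtain ⟨hc0, hcl⟩ := log_norm_near_one hc1
    obtain ⟨h1, h2⟩ := drift_step P.A hw hY hc0 hcl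
    refine ⟨f w * c, h1, ?_, h2⟩
    rw [iter_succ_of_coe hit]
    exact sphereValue_mul P.A.hf (P.hg w (mem_univ w)) hc

theorem Pert.orbit_quarter (P : Pert f g U ρ κ) {j : ℕ} {z : ℂ} (hz : z ≠ 0)
    (hzj : |Y f ρ j z| ≤ κ / 8) (n : ℕ) :
    iter (fun z => f z * g z) n z ≠ OnePoint.infty ∧
    fv (iter (fun z => f z * g z) n z) ≠ 0 ∧
    |Y f ρ (j + n) (fv (iter (fun z => f z * g z) n z))| ≤ κ / 4 := by
  have hκ := P.A.κ_pos
  obtain ⟨w, hw, hit, hY⟩ := P.orbit hz hzj n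
  have hpn : (0 : ℝ) < (1 / 8) ^ n := by positivity
  rw [hit, fv_coe]
  exact ⟨OnePoint.coe_ne_infty _, hw, by nlinarith⟩

/-- The central annuli. -/
def Bset (f : ℂ → ℂ) (ρ κ : ℝ) (j : ℕ) : Set ℂ := {z | z ≠ 0 ∧ |Y f ρ j z| < κ / 8}

theorem Bset_eq (H : AnnulusHyp f U ρ κ) (j : ℕ) :
    Bset f ρ κ j = {z : ℂ | Real.exp ((sd f ρ j).1 - κ / 8 * (sd f ρ j).2) < ‖z‖ ∧
      ‖z‖ < Real.exp ((sd f ρ j).1 + κ / 8 * (sd f ρ j).2)} := by
  ext z
  constructor
  · rintro ⟨hz, hY⟩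
    rw [abs_Y_lt_iff H, abs_lt] at hY
    have h0 : 0 < ‖z‖ := norm_pos_iff.mpr hz
    constructor
    · rw [← Real.lt_log_iff_exp_lt h0]
      linarith [hY.1]
    · rw [← Real.log_lt_iff_lt_exp h0]
      linarith [hY.2]
  · rintro ⟨h1, h2⟩
    have h0 : 0 < ‖z‖ := (Real.exp_pos _).trans h1
    refine ⟨norm_pos_iff.mp h0, ?_⟩
    rw [abs_Y_lt_iff H, abs_lt]
    rw [← Real.lt_log_iff_exp_lt h0] at h1
    rw [← Real.log_lt_iff_lt_exp h0] at h2
    constructor <;> linarith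

theorem isOpen_Bset (H : AnnulusHyp f U ρ κ) (j : ℕ) : IsOpen (Bset f ρ κ j) := by
  rw [Bset_eq H]
  exact (isOpen_lt continuous_const continuous_norm).inter
    (isOpen_lt continuous_norm continuous_const)

theorem isPreconnected_Bset (H : AnnulusHyp f U ρ κ) (j : ℕ) : IsPreconnected (Bset f ρ κ j) := by
  rw [Bset_eq H]
  exact isPreconnected_annulus (Real.exp_pos _)

theorem log_lower (H : AnnulusHyp f U ρ κ) {k : ℕ} {w : ℂ} (hY : |Y f ρ k w| ≤ κ / 4) :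
    κ / 4 * (sd f ρ k).2 ≤ Real.log ‖w‖ ∧ (sd f ρ k).1 / 2 ≤ Real.log ‖w‖ ∧
      Real.log ‖w‖ ≤ 3 * ρ * (sd f ρ k).2 := by
  have hI := inv_all H k
  have hκ := H.κ_pos
  have hd := hI.d_pos
  have h1 := hI.half_width_le H
  have h2 := s_le H k
  have h3 := H.hκρ
  rw [abs_Y_le_iff H, abs_le] at hY
  refine ⟨by linarith [hY.1], by linarith [hY.1], ?_⟩
  have h4 : κ / 4 * (sd f ρ k).2 ≤ ρ * (sd f ρ k).2 :=
    mul_le_mul_of_nonneg_right (by linarith) hd.le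
  linarith [hY.2]

theorem Pert.Bset_subset (P : Pert f g U ρ κ) (j : ℕ) :
    Bset f ρ κ j ⊆ fatouSet (fun z => f z * g z) := by
  have hκ := P.A.κ_pos
  apply subset_fatou_of_escape (isOpen_Bset P.A j)
  · intro n w hw
    exact (P.orbit_quarter hw.1 hw.2.le n).1
  · intro R
    have hlim : Tendsto (fun n : ℕ => κ / 4 * (8 : ℝ) ^ n) atTop atTop :=
      Tendsto.const_mul_atTop (by linarith) (tendsto_pow_atTop_atTop_of_one_lt (by norm_num))
    filter_upwards [hlim.eventually_ge_atTop R] with n hn z hz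
    obtain ⟨_, h2, h3⟩ := P.orbit_quarter hz.1 hz.2.le n
    have h4 := (log_lower P.A h3).1
    have h5 := (inv_all P.A (j + n)).2.1
    have h6 : (8 : ℝ) ^ n ≤ 8 ^ (j + n) := pow_le_pow_right₀ (by norm_num) (by omega)
    have h7 : κ / 4 * 8 ^ n ≤ κ / 4 * (sd f ρ (j + n)).2 :=
      mul_le_mul_of_nonneg_left (h6.trans h5) (by linarith)
    have h8 := Real.log_le_self (norm_nonneg (fv (iter (fun z => f z * g z) n z)))
    linarith

/-- The central point of the annulus. -/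
noncomputable def ctr (f : ℂ → ℂ) (ρ : ℝ) (j : ℕ) : ℂ := ((Real.exp (sd f ρ j).1 : ℝ) : ℂ)

theorem norm_ctr (j : ℕ) : ‖ctr f ρ j‖ = Real.exp (sd f ρ j).1 := by
  unfold ctr
  rw [Complex.norm_real, Real.norm_eq_abs, abs_of_pos (Real.exp_pos _)]

theorem mem_Bset_of_norm (H : AnnulusHyp f U ρ κ) {j : ℕ} {z : ℂ}
    (hz : ‖z‖ = Real.exp (sd f ρ j).1) : z ∈ Bset f ρ κ j := by
  have hκ := H.κ_pos
  refine ⟨?_, ?_⟩
  · rw [← norm_pos_iff, hz]
    exact Real.exp_pos _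
  · unfold Y
    rw [hz, Real.log_exp, sub_self, zero_div, abs_zero]
    linarith

theorem ctr_mem (H : AnnulusHyp f U ρ κ) (j : ℕ) : ctr f ρ j ∈ Bset f ρ κ j :=
  mem_Bset_of_norm H (norm_ctr j)

/-- The Fatou components of the perturbed map. -/
noncomputable def comp (f g : ℂ → ℂ) (ρ : ℝ) (j : ℕ) : Set ℂ :=
  connectedComponentIn (fatouSet (fun z => f z * g z)) (ctr f ρ j)

theorem Pert.isComp (P : Pert f g U ρ κ) (j : ℕ) :
    IsFatouComponent (fun z => f z * g z) (comp f g ρ j) :=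
  ⟨ctr f ρ j, P.Bset_subset j (ctr_mem P.A j), rfl⟩

theorem Pert.Bset_subset_comp (P : Pert f g U ρ κ) (j : ℕ) : Bset f ρ κ j ⊆ comp f g ρ j :=
  (isPreconnected_Bset P.A j).subset_connectedComponentIn (ctr_mem P.A j) (P.Bset_subset j)

theorem Pert.meromorphic (P : Pert f g U ρ κ) : MeromorphicOn (fun z => f z * g z) univ :=
  fun z hz => ((P.A.hf.analyticAt z).meromorphicAt).mul (P.hg z hz)

theorem Pert.eqFamily (P : Pert f g U ρ κ) (j : ℕ) :
    EqFamily (comp f g ρ j) (fun n z => fv (iter (fun z => f z * g z) n z)) :=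
  eqFamily_of_fatou P.meromorphic (P.isComp j).isOpen (P.isComp j).isPreconnected (P.isComp j).subset

theorem Pert.esc_ctr (P : Pert f g U ρ κ) (j : ℕ) :
    Esc (fun n z => fv (iter (fun z => f z * g z) n z)) (ctr f ρ j) := by
  have hκ := P.A.κ_pos
  have hlim : Tendsto (fun n : ℕ => κ / 4 * (8 : ℝ) ^ n) atTop atTop :=
    Tendsto.const_mul_atTop (by linarith) (tendsto_pow_atTop_atTop_of_one_lt (by norm_num))
  apply tendsto_atTop_mono _ hlim
  intro n
  obtain ⟨_, h2, h3⟩ := P.orbit_quarter (ctr_mem P.A j).1 (ctr_mem P.A j).2.le n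
  have h4 := (log_lower P.A h3).1
  have h5 := (inv_all P.A (j + n)).2.1
  have h6 : (8 : ℝ) ^ n ≤ 8 ^ (j + n) := pow_le_pow_right₀ (by norm_num) (by omega)
  have h7 : κ / 4 * 8 ^ n ≤ κ / 4 * (sd f ρ (j + n)).2 :=
    mul_le_mul_of_nonneg_left (h6.trans h5) (by linarith)
  have h8 := Real.log_le_self (norm_nonneg (fv (iter (fun z => f z * g z) n (ctr f ρ j))))
  linarith

theorem d_mono (H : AnnulusHyp f U ρ κ) {a b : ℕ} (hab : a ≤ b) :
    (sd f ρ a).2 ≤ (sd f ρ b).2 := by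
  induction b, hab using Nat.le_induction with
  | base => exact le_rfl
  | succ b hb ih =>
    have hI := inv_all H b
    have h8 := hI.zeroCount_ge H
    have hd := hI.d_pos
    have e2 : (sd f ρ (b + 1)).2 = zeroCount f (sd f ρ b).1 * (sd f ρ b).2 := rfl
    rw [e2]
    nlinarith

theorem Pert.comp_disjoint_lt (P : Pert f g U ρ κ) {j l : ℕ} (hjl : j < l) :
    Disjoint (comp f g ρ j) (comp f g ρ l) := by
  have hκ := P.A.κ_pos
  have hρκ := P.A.hκρ
  rw [Set.disjoint_iff_inter_eq_empty, ← Set.not_nonempty_iff_eq_empty]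
  intro hne
  have heq := (P.isComp j).eq_of_inter (P.isComp l) hne
  have hpj : ctr f ρ j ∈ comp f g ρ j := P.Bset_subset_comp j (ctr_mem P.A j)
  have hpl : ctr f ρ l ∈ comp f g ρ j := by
    rw [heq]
    exact P.Bset_subset_comp l (ctr_mem P.A l)
  obtain ⟨C, hC, hev⟩ := (P.eqFamily j).cmp hpj (P.esc_ctr j) hpl hpj
  obtain ⟨K, hK⟩ := exists_nat_gt (12 * C * ρ / κ)
  have hg1 := eventually_growth P.A P.hft K
  have hg2 : ∀ᶠ n in atTop, (K : ℝ) * (sd f ρ (n + j)).2 ≤ (sd f ρ (n + j + 1)).2 :=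
    ((tendsto_add_atTop_nat j).eventually hg1).mono (fun n hn => hn.2)
  obtain ⟨n, h1, h2⟩ := (hev.and hg2).exists
  obtain ⟨_, _, h3⟩ := P.orbit_quarter (ctr_mem P.A j).1 (ctr_mem P.A j).2.le n
  obtain ⟨_, _, h4⟩ := P.orbit_quarter (ctr_mem P.A l).1 (ctr_mem P.A l).2.le n
  have h5 := (log_lower P.A h3).2.2
  have h6 := (log_lower P.A h4).1
  have h7 : (sd f ρ (n + j + 1)).2 ≤ (sd f ρ (l + n)).2 := d_mono P.A (by omega)
  have hd : 0 < (sd f ρ (j + n)).2 := (inv_all P.A (j + n)).d_pos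
  rw [add_comm n j] at h2 h7
  rw [div_lt_iff₀ hκ] at hK
  have h8 : κ / 4 * (K * (sd f ρ (j + n)).2) ≤ C * (3 * ρ * (sd f ρ (j + n)).2) := by
    calc κ / 4 * (K * (sd f ρ (j + n)).2) ≤ κ / 4 * (sd f ρ (l + n)).2 :=
          mul_le_mul_of_nonneg_left (h2.trans h7) (by linarith)
      _ ≤ _ := h6
      _ ≤ _ := h1
      _ ≤ C * (3 * ρ * (sd f ρ (j + n)).2) := mul_le_mul_of_nonneg_left h5 hC.le
  have h9 : 12 * C * ρ * (sd f ρ (j + n)).2 < K * κ * (sd f ρ (j + n)).2 :=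
    mul_lt_mul_of_pos_right hK hd
  nlinarith

theorem Pert.comp_disjoint (P : Pert f g U ρ κ) {j l : ℕ} (hjl : j ≠ l) :
    Disjoint (comp f g ρ j) (comp f g ρ l) := by
  rcases lt_or_gt_of_ne hjl with h | h
  · exact P.comp_disjoint_lt h
  · exact (P.comp_disjoint_lt h).symm

/-- One step of the perturbed map in the annulus. -/
theorem Pert.one_step (P : Pert f g U ρ κ) {j : ℕ} {z : ℂ} (hz : z ≠ 0)
    (hzj : |Y f ρ j z| ≤ κ / 8) :
    fv (iter (fun z => f z * g z) 1 z) ≠ 0 ∧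
    |Y f ρ (j + 1) (fv (iter (fun z => f z * g z) 1 z)) - Y f ρ j z| ≤ κ / 16 + 1 / 8 := by
  have hκ := P.A.κ_pos
  have hzU : z ∈ U j := mem_U_of_Y P.A hz (by linarith)
  obtain ⟨c, hc, hc1⟩ := P.hgU _ z hzU
  obtain ⟨hc0, hcl⟩ := log_norm_near_one hc1
  have hq : |Y f ρ j z| ≤ κ / 4 := by linarith
  obtain ⟨h1, h2⟩ := perturbed_step P.A hz hq hc0 hcl
  have h3 : iter (fun z => f z * g z) 1 z = ((f z * c : ℂ) : OnePoint ℂ) := by
    rw [iter_succ_of_coe (iter_zero _ z)]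
    exact sphereValue_mul P.A.hf (P.hg z (mem_univ z)) hc
  rw [h3, fv_coe]
  refine ⟨h1, h2.trans ?_⟩
  have hd := (inv_all P.A j).one_le_d
  rw [div_le_iff₀ (by linarith)]
  nlinarith

theorem Pert.not_const (P : Pert f g U ρ κ) (j : ℕ) :
    ¬ ∃ w, ∀ z ∈ comp f g ρ j, fv (iter (fun z => f z * g z) 1 z) = w := by
  have hκ := P.A.κ_pos
  have h48 := P.A.κ48
  have hd := (inv_all P.A j).d_pos
  rintro ⟨w, hw⟩
  -- two points of the annulus with different coordinates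
  have hpt : ∀ a : ℝ, |a| < κ / 8 → ∃ z ∈ Bset f ρ κ j, Y f ρ j z = a := by
    intro a ha
    have hn : ‖((Real.exp ((sd f ρ j).1 + a * (sd f ρ j).2) : ℝ) : ℂ)‖ =
        Real.exp ((sd f ρ j).1 + a * (sd f ρ j).2) := by
      rw [Complex.norm_real, Real.norm_eq_abs, abs_of_pos (Real.exp_pos _)]
    have hY : Y f ρ j ((Real.exp ((sd f ρ j).1 + a * (sd f ρ j).2) : ℝ) : ℂ) = a := by
      unfold Y
      rw [hn, Real.log_exp]
      field_simp
      ring
    refine ⟨_, ⟨?_, ?_⟩, hY⟩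
    · rw [← norm_pos_iff, hn]
      exact Real.exp_pos _
    · rw [hY]
      exact ha
  obtain ⟨z₁, hz₁, hY₁⟩ := hpt (κ / 9) (by rw [abs_of_pos (by linarith)]; linarith)
  obtain ⟨z₂, hz₂, hY₂⟩ := hpt (-(κ / 9)) (by rw [abs_neg, abs_of_pos (by linarith)]; linarith)
  have h1 := (P.one_step hz₁.1 hz₁.2.le).2
  have h2 := (P.one_step hz₂.1 hz₂.2.le).2
  rw [hw z₁ (P.Bset_subset_comp j hz₁), hY₁, abs_le] at h1
  rw [hw z₂ (P.Bset_subset_comp j hz₂), hY₂, abs_le] at h2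
  linarith [h1.1, h2.2]

theorem Pert.forward (P : Pert f g U ρ κ) (j : ℕ) :
    ∀ z ∈ comp f g ρ j, fv (iter (fun z => f z * g z) 1 z) ∈ comp f g ρ (j + 1) := by
  have hκ := P.A.κ_pos
  have h48 := P.A.κ48
  have h1 : (fun z => fv (iter (fun z => f z * g z) 1 z)) '' comp f g ρ j ⊆ comp f g ρ (j + 1) := by
    apply (P.isComp (j + 1)).subset_of_inter
    · exact (P.isComp j).isPreconnected.image _ ((P.eqFamily j).diff 1).continuousOn
    · rintro _ ⟨z, hz, rfl⟩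
      exact forward_invariant P.meromorphic (P.isComp j).isOpen (P.isComp j).isPreconnected
        (P.isComp j).subset (P.not_const j) hz
    · refine ⟨_, ⟨ctr f ρ j, P.Bset_subset_comp j (ctr_mem P.A j), rfl⟩, ?_⟩
      apply P.Bset_subset_comp (j + 1)
      obtain ⟨h2, h3⟩ := P.one_step (ctr_mem P.A j).1 (ctr_mem P.A j).2.le
      refine ⟨h2, ?_⟩
      have hY : Y f ρ j (ctr f ρ j) = 0 := by
        unfold Y
        rw [norm_ctr, Real.log_exp, sub_self, zero_div]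
      rw [hY, sub_zero] at h3
      show |Y f ρ (j + 1) (fv (iter (fun z => f z * g z) 1 (ctr f ρ j)))| < κ / 8
      linarith
  intro z hz
  exact h1 ⟨z, hz, rfl⟩

theorem Pert.forward_iter (P : Pert f g U ρ κ) (j n : ℕ) :
    ∀ z ∈ comp f g ρ j, ∃ w ∈ comp f g ρ (j + n),
      iter (fun z => f z * g z) n z = (w : OnePoint ℂ) := by
  intro z hz
  induction n with
  | zero => exact ⟨z, hz, rfl⟩
  | succ n ih =>
    obtain ⟨w, hw, hit⟩ := ih
    have hwF := (P.isComp (j + n)).subset hw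
    refine ⟨fv (iter (fun z => f z * g z) 1 w), P.forward (j + n) w hw, ?_⟩
    rw [coe_fv (iter_ne_infty hwF 1), iter_succ_of_coe hit, iter_succ_of_coe (iter_zero _ w)]

theorem s_lt_succ (H : AnnulusHyp f U ρ κ) (j : ℕ) : (sd f ρ j).1 < (sd f ρ (j + 1)).1 := by
  have hI := inv_all H j
  have h1 := hI.half_κ_le H
  obtain ⟨h2, _⟩ := hI.zeroCount_lower H 27 (H.hg _ (Real.exp_le_exp.mpr h1))
  have e1 : (sd f ρ (j + 1)).1 = avgLog f (sd f ρ j).1 := rfl
  have hs := hI.s_pos H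
  rw [e1]
  norm_num at h2
  linarith

theorem Pert.comp_bounded (P : Pert f g U ρ κ) (j : ℕ) :
    comp f g ρ j ⊆ ball 0 (Real.exp (sd f ρ (j + 1)).1) := by
  apply (P.isComp j).isPreconnected.subset_left_of_subset_union isOpen_ball
    (isClosed_closedBall (x := (0 : ℂ)) (ε := Real.exp (sd f ρ (j + 1)).1)).isOpen_compl
  · rw [Set.disjoint_left]
    intro x hx hx'
    exact hx' (ball_subset_closedBall hx)
  · intro x hx
    by_contra hcon
    rw [mem_union, not_or] at hcon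
    have h1 : ‖x‖ = Real.exp (sd f ρ (j + 1)).1 := by
      have h2 := hcon.1
      have h3 := hcon.2
      rw [mem_ball, dist_zero_right, not_lt] at h2
      rw [mem_compl_iff, not_not, mem_closedBall, dist_zero_right] at h3
      exact le_antisymm h3 h2
    have h4 := P.Bset_subset_comp (j + 1) (mem_Bset_of_norm P.A h1)
    exact (Set.disjoint_left.mp (P.comp_disjoint (by omega : j ≠ j + 1))) hx h4
  · refine ⟨ctr f ρ j, P.Bset_subset_comp j (ctr_mem P.A j), ?_⟩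
    rw [mem_ball, dist_zero_right, norm_ctr]
    exact Real.exp_lt_exp.mpr (s_lt_succ P.A j)

theorem Pert.comp_surrounds (P : Pert f g U ρ κ) {j : ℕ} (h0 : (0 : ℂ) ∉ comp f g ρ j) :
    SurroundsZero (comp f g ρ j) := by
  refine ⟨h0, Real.exp (sd f ρ j).1, ?_⟩
  have h0' : ((0 : ℂ) : OnePoint ℂ) ∈ (((↑) : ℂ → OnePoint ℂ) '' comp f g ρ j)ᶜ := by
    rintro ⟨w, hw, hw0⟩
    rw [OnePoint.coe_eq_coe] at hw0
    rw [hw0] at hw
    exact h0 hw
  have h1 : connectedComponentIn (((↑) : ℂ → OnePoint ℂ) '' comp f g ρ j)ᶜ ((0 : ℂ) : OnePoint ℂ) ⊆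
      ((↑) : ℂ → OnePoint ℂ) '' ball (0 : ℂ) (Real.exp (sd f ρ j).1) := by
    apply isPreconnected_connectedComponentIn.subset_left_of_subset_union
      (OnePoint.isOpen_image_coe.mpr isOpen_ball)
      (v := (((↑) : ℂ → OnePoint ℂ) '' closedBall (0 : ℂ) (Real.exp (sd f ρ j).1))ᶜ)
    · exact OnePoint.isOpen_compl_image_coe.mpr ⟨isClosed_closedBall, isCompact_closedBall _ _⟩
    · rw [Set.disjoint_left]
      intro x hx hx'
      exact hx' (image_mono ball_subset_closedBall hx)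
    · intro x hx
      by_contra hcon
      rw [mem_union, not_or, mem_compl_iff, not_not] at hcon
      obtain ⟨hcon1, w, hw, rfl⟩ := hcon
      have hwn : ‖w‖ = Real.exp (sd f ρ j).1 := by
        rw [mem_closedBall, dist_zero_right] at hw
        apply le_antisymm hw
        by_contra hlt
        push Not at hlt
        exact hcon1 ⟨w, by rw [mem_ball, dist_zero_right]; exact hlt, rfl⟩
      have h2 := connectedComponentIn_subset _ _ hx
      exact h2 ⟨w, P.Bset_subset_comp j (mem_Bset_of_norm P.A hwn), rfl⟩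
    · exact ⟨_, mem_connectedComponentIn h0', 0,
        by rw [mem_ball, dist_self]; exact Real.exp_pos _, rfl⟩
  exact h1.trans (image_mono ball_subset_closedBall)

theorem multiplyConnected_of_surrounds {A : Set ℂ} (h : SurroundsZero A) :
    IsMultiplyConnected A := by
  obtain ⟨h0, R, hR⟩ := h
  intro hpre
  have h0' : ((0 : ℂ) : OnePoint ℂ) ∈ (((↑) : ℂ → OnePoint ℂ) '' A)ᶜ := by
    rintro ⟨w, hw, hw0⟩
    rw [OnePoint.coe_eq_coe] at hw0
    rw [hw0] at hw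
    exact h0 hw
  have h1 := hpre.subset_connectedComponentIn h0' subset_rfl
  have h2 : OnePoint.infty ∈ (((↑) : ℂ → OnePoint ℂ) '' A)ᶜ := OnePoint.infty_notMem_image_coe
  obtain ⟨x, _, hx⟩ := hR (h1 h2)
  exact OnePoint.coe_ne_infty x hx

theorem Pert.exists_bwd (P : Pert f g U ρ κ) :
    ∃ V : ℕ → Set ℂ, IsBakerWanderingDomain (fun z => f z * g z) V := by
  -- from some index on `0` is not in the components
  obtain ⟨j₀, hj₀⟩ : ∃ j₀, ∀ j, j₀ ≤ j → (0 : ℂ) ∉ comp f g ρ j := by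
    by_cases h : ∃ i, (0 : ℂ) ∈ comp f g ρ i
    · obtain ⟨i, hi⟩ := h
      refine ⟨i + 1, fun j hj h0 => ?_⟩
      exact (Set.disjoint_left.mp (P.comp_disjoint (by omega : i ≠ j))) hi h0
    · push Not at h
      exact ⟨0, fun j _ => h j⟩
  refine ⟨fun n => comp f g ρ (j₀ + n), ?_, ?_, ?_, ?_, ?_⟩
  · intro n
    exact P.isComp _
  · intro n z hz
    exact P.forward_iter j₀ n z hz
  · intro m n hmn
    exact P.comp_disjoint (by omega)
  · apply Eventually.of_forall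
    intro n
    have hs := P.comp_surrounds (hj₀ (j₀ + n) (by omega))
    exact ⟨isBounded_ball.subset (P.comp_bounded _), multiplyConnected_of_surrounds hs, hs⟩
  · intro z hz
    have hesc := (P.eqFamily j₀).esc_all (P.Bset_subset_comp j₀ (ctr_mem P.A j₀)) (P.esc_ctr j₀) hz
    have h1 := tendsto_infty_iff.mpr hesc
    refine h1.congr (fun n => ?_)
    exact coe_fv (iter_ne_infty ((P.isComp j₀).subset hz) n)

theorem poly_upper (p : Polynomial ℂ) : ∃ C : ℝ, 0 < C ∧ ∀ z : ℂ, 1 ≤ ‖z‖ →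
    ‖p.eval z‖ ≤ C * ‖z‖ ^ p.natDegree := by
  refine ⟨∑ i ∈ Finset.range (p.natDegree + 1), ‖p.coeff i‖ + 1, by positivity, ?_⟩
  intro z hz
  rw [Polynomial.eval_eq_sum_range]
  refine (norm_sum_le _ _).trans ?_
  rw [add_mul, Finset.sum_mul]
  have h1 : ∑ i ∈ Finset.range (p.natDegree + 1), ‖p.coeff i * z ^ i‖ ≤
      ∑ i ∈ Finset.range (p.natDegree + 1), ‖p.coeff i‖ * ‖z‖ ^ p.natDegree := by
    apply Finset.sum_le_sum
    intro i hi
    rw [Finset.mem_range] at hi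
    rw [norm_mul, norm_pow]
    apply mul_le_mul_of_nonneg_left _ (norm_nonneg _)
    exact pow_le_pow_right₀ hz (by omega)
  have h2 : 0 ≤ 1 * ‖z‖ ^ p.natDegree := by positivity
  linarith

theorem poly_lower {p : Polynomial ℂ} (hp : p ≠ 0) : ∃ c : ℝ, 0 < c ∧ ∃ R : ℝ, ∀ z : ℂ,
    R ≤ ‖z‖ → c ≤ ‖p.eval z‖ := by
  by_cases hdeg : 0 < p.degree
  · have h1 : Tendsto (fun z : ℂ => ‖p.eval z‖) (Filter.comap (fun z : ℂ => ‖z‖) atTop) atTop :=
      p.tendsto_norm_atTop hdeg tendsto_comap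
    have h2 := h1.eventually_ge_atTop 1
    rw [Filter.eventually_comap] at h2
    obtain ⟨R, hR⟩ := eventually_atTop.mp h2
    exact ⟨1, one_pos, R, fun z hz => hR ‖z‖ hz z rfl⟩
  · have h1 : p = Polynomial.C (p.coeff 0) :=
      Polynomial.eq_C_of_degree_le_zero (not_lt.mp hdeg)
    have h2 : p.coeff 0 ≠ 0 := by
      intro h
      apply hp
      rw [h1, h, Polynomial.C_0]
    refine ⟨‖p.coeff 0‖, norm_pos_iff.mpr h2, 0, fun z _ => ?_⟩
    rw [h1, Polynomial.eval_C, Polynomial.coeff_C_zero]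

theorem Pert.transcendental (P : Pert f g U ρ κ) :
    IsTranscendentalMeromorphic (fun z => f z * g z) := by
  refine ⟨P.meromorphic, ?_⟩
  rintro ⟨p, q, hq, hpq⟩
  obtain ⟨C, hC, hup⟩ := poly_upper p
  obtain ⟨c, hc, R, hlow⟩ := poly_lower hq
  set D := p.natDegree
  have hs := s_tendsto P.A
  have hexp : Tendsto (fun k => Real.exp (sd f ρ k).1) atTop atTop :=
    Real.tendsto_exp_atTop.comp hs
  obtain ⟨k, ⟨hk1, hk2⟩, hk3⟩ := (((eventually_growth P.A P.hft (2 * (D + 1))).and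
    (hexp.eventually_ge_atTop (max R 1))).and (hexp.eventually_gt_atTop (C / c))).exists
  set z := ctr f ρ k with hz
  have hzn : ‖z‖ = Real.exp (sd f ρ k).1 := norm_ctr k
  have hzR : R ≤ ‖z‖ := by rw [hzn]; exact (le_max_left _ _).trans hk2
  have hz1 : 1 ≤ ‖z‖ := by rw [hzn]; exact (le_max_right _ _).trans hk2
  have hqz : c ≤ ‖q.eval z‖ := hlow z hzR
  have hqz0 : q.eval z ≠ 0 := by
    rw [← norm_pos_iff]
    linarith
  have hsv := hpq z hqz0
  obtain ⟨h1, h2, h3⟩ := P.orbit_quarter (ctr_mem P.A k).1 (ctr_mem P.A k).2.le 1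
  rw [iter_succ_of_coe (iter_zero _ (ctr f ρ k)), ← hz, hsv, fv_coe] at h2 h3
  have h4 := (log_lower P.A h3).2.1
  have h5 : (2 * ((D : ℝ) + 1)) * (sd f ρ k).1 ≤ (sd f ρ (k + 1)).1 := by
    have := hk1.1
    push_cast at this
    exact this
  have h6 : ((D : ℝ) + 1) * (sd f ρ k).1 ≤ Real.log ‖p.eval z / q.eval z‖ := by linarith
  have h7 : 0 < ‖p.eval z / q.eval z‖ := norm_pos_iff.mpr h2
  have h8 : Real.exp (sd f ρ k).1 ^ (D + 1) ≤ ‖p.eval z / q.eval z‖ := by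
    rw [← Real.exp_nat_mul, ← Real.le_log_iff_exp_le h7]
    push_cast
    exact h6
  rw [← hzn, norm_div, le_div_iff₀ (by linarith)] at h8
  have h9 := hup z hz1
  have h10 : ‖z‖ ^ (D + 1) * c ≤ C * ‖z‖ ^ D := by
    calc ‖z‖ ^ (D + 1) * c ≤ ‖z‖ ^ (D + 1) * ‖q.eval z‖ :=
          mul_le_mul_of_nonneg_left hqz (by positivity)
      _ ≤ ‖p.eval z‖ := h8
      _ ≤ _ := h9
  have h11 : 0 < ‖z‖ ^ D := by positivity
  have h12 : ‖z‖ * c ≤ C := by
    have h13 : ‖z‖ * c * ‖z‖ ^ D ≤ C * ‖z‖ ^ D := by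
      calc ‖z‖ * c * ‖z‖ ^ D = ‖z‖ ^ (D + 1) * c := by ring
        _ ≤ _ := h10
    exact le_of_mul_le_mul_right h13 h11
  rw [← hzn, div_lt_iff₀ hc] at hk3
  linarith

end

/-- **Main theorem.** -/
theorem main (f g : ℂ → ℂ) (hf : IsTranscendentalEntire f) (U : ℕ → Set ℂ)
    (hU : IsBakerWanderingDomain f U) (hg : MeromorphicOn g univ)
    (hlim : ∀ ε : ℝ, 0 < ε → ∀ᶠ n in atTop, ∀ z ∈ U n,
      ∃ w : ℂ, sphereValue g z = (w : OnePoint ℂ) ∧ ‖w - 1‖ ≤ ε) :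
    IsTranscendentalMeromorphic (fun z => f z * g z) ∧
      ∃ V : ℕ → Set ℂ, IsBakerWanderingDomain (fun z => f z * g z) V := by
  obtain ⟨M, hM⟩ := eventually_atTop.mp (hlim (1 / 2) (by norm_num))
  obtain ⟨m, hm, ρ, κ, H⟩ := bwd_annulusHyp hf.1 hf.2 hU M
  have P : Pert f g (fun j => U (m + j)) ρ κ :=
    ⟨H, hf.2, hg, fun j z hz => hM (m + j) (by omega) z hz⟩
  exact ⟨P.transcendental, P.exists_bwd⟩

end Pool.Agent.Helper85.BWD
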