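import Pool.Agent.Helper85.BWD.Chain
set_option autoImplicit false
namespace Pool.Agent.Helper85.BWD
open Filter Topology Set Metric

/-- Setup for the structure theory. -/
structure Setup (f : ℂ → ℂ) (W : Set ℂ) (z₀ : ℂ) (E₀ : Set ℂ) (δ₀ : ℝ) : Prop where
  hf : Differentiable ℂ f
  hft : ¬ ∃ p : Polynomial ℂ, ∀ z, f z = p.eval z
  H : EqFamily W (fun n => f^[n])
  hz₀ : z₀ ∈ W
  hesc : Esc (fun n => f^[n]) z₀
  hE₀ : IsCompact E₀
  h0 : (0 : ℂ) ∈ E₀
  hδ₀ : 0 < δ₀
  hcol : ∀ z, z ∉ E₀ → infDist z E₀ < δ₀ → z ∈ W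
  hnon : ∀ s, 0 < s → s < δ₀ →
    ¬ (∀ R : ℝ, ∀ᶠ n in atTop, ∀ z, infDist z E₀ < s → R ≤ ‖f^[n] z‖)

section
variable {f : ℂ → ℂ} {W : Set ℂ} {z₀ : ℂ} {E₀ : Set ℂ} {δ₀ : ℝ}

/-- The sublevel sets of the distance to `E₀`. -/
def G (E₀ : Set ℂ) (s : ℝ) : Set ℂ := {z | infDist z E₀ < s}

theorem isOpen_G (E₀ : Set ℂ) (s : ℝ) : IsOpen (G E₀ s) :=
  isOpen_lt (continuous_infDist_pt E₀) continuous_const

theorem closure_G (E₀ : Set ℂ) (s : ℝ) : closure (G E₀ s) ⊆ {z | infDist z E₀ ≤ s} :=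
  closure_lt_subset_le (continuous_infDist_pt E₀) continuous_const

theorem frontier_G (E₀ : Set ℂ) (s : ℝ) : frontier (G E₀ s) ⊆ {z | infDist z E₀ = s} :=
  frontier_lt_subset_eq (continuous_infDist_pt E₀) continuous_const

theorem Setup.isBounded_le (S : Setup f W z₀ E₀ δ₀) (s : ℝ) :
    Bornology.IsBounded {z | infDist z E₀ ≤ s} := by
  obtain ⟨B, hB⟩ := S.hE₀.isBounded.subset_closedBall (0 : ℂ)
  apply (isBounded_closedBall (x := (0 : ℂ)) (r := B + (s + 1))).subset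
  intro z hz
  have hlt : infDist z E₀ < s + 1 := lt_of_le_of_lt hz (by linarith)
  obtain ⟨e, he, hze⟩ := (infDist_lt_iff ⟨0, S.h0⟩).mp hlt
  have h1 := hB he
  rw [mem_closedBall] at h1 ⊢
  calc dist z 0 ≤ dist z e + dist e 0 := dist_triangle _ _ _
    _ ≤ B + (s + 1) := by linarith

theorem Setup.isBounded_G (S : Setup f W z₀ E₀ δ₀) (s : ℝ) : Bornology.IsBounded (G E₀ s) :=
  (S.isBounded_le s).subset (fun z hz =>
    show infDist z E₀ ≤ s from (show infDist z E₀ < s from hz).le)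

/-- The compact collar. -/
def collar (E₀ : Set ℂ) (δ₀ : ℝ) : Set ℂ := {z | δ₀ / 3 ≤ infDist z E₀ ∧ infDist z E₀ ≤ 2 * δ₀ / 3}

theorem Setup.collar_compact (S : Setup f W z₀ E₀ δ₀) : IsCompact (collar E₀ δ₀) := by
  apply Metric.isCompact_of_isClosed_isBounded
  · exact (isClosed_le continuous_const (continuous_infDist_pt E₀)).inter
      (isClosed_le (continuous_infDist_pt E₀) continuous_const)
  · exact (S.isBounded_le (2 * δ₀ / 3)).subset (fun z hz => hz.2)

theorem Setup.collar_subset (S : Setup f W z₀ E₀ δ₀) : collar E₀ δ₀ ⊆ W := by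
  intro z hz
  have hδ := S.hδ₀
  apply S.hcol z
  · intro h
    have := infDist_zero_of_mem h
    have := hz.1
    linarith
  · have := hz.2
    linarith

theorem Setup.collar_nonempty (S : Setup f W z₀ E₀ δ₀) : (collar E₀ δ₀).Nonempty := by
  have hδ := S.hδ₀
  -- the function t ↦ infDist (t : ℂ) E₀ takes the value 0 at 0 and tends to infinity
  obtain ⟨B, hB⟩ := (S.isBounded_le (δ₀ / 3)).subset_closedBall (0 : ℂ)
  have hcont : Continuous (fun t : ℝ => infDist (t : ℂ) E₀) :=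
    (continuous_infDist_pt E₀).comp Complex.continuous_ofReal
  set T : ℝ := |B| + 1 with hT
  have hT0 : 0 ≤ T := by positivity
  have h1 : δ₀ / 3 ≤ infDist ((T : ℝ) : ℂ) E₀ := by
    by_contra hcon
    push Not at hcon
    have := hB (show ((T : ℝ) : ℂ) ∈ {z | infDist z E₀ ≤ δ₀ / 3} from hcon.le)
    rw [mem_closedBall, dist_zero_right, Complex.norm_real, Real.norm_eq_abs, abs_of_nonneg hT0]
      at this
    have := le_abs_self B
    linarith
  have h0 : infDist ((0 : ℝ) : ℂ) E₀ = 0 := by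
    rw [Complex.ofReal_zero]
    exact infDist_zero_of_mem S.h0
  obtain ⟨t, -, ht⟩ := intermediate_value_Icc hT0 hcont.continuousOn
    (show δ₀ / 3 ∈ Icc (infDist ((0 : ℝ) : ℂ) E₀) (infDist ((T : ℝ) : ℂ) E₀) from
      ⟨by rw [h0]; linarith, h1⟩)
  refine ⟨(t : ℂ), ?_, ?_⟩
  · exact le_of_eq ht.symm
  · have ht' : infDist (t : ℂ) E₀ = δ₀ / 3 := ht
    rw [ht']
    linarith

theorem Setup.diff_iter (S : Setup f W z₀ E₀ δ₀) (n : ℕ) : Differentiable ℂ (f^[n]) := by
  induction n with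
  | zero => exact differentiable_id
  | succ n ih =>
    rw [Function.iterate_succ']
    exact S.hf.comp ih

/-- Maximum principle on `G`. -/
theorem Setup.max_principle (S : Setup f W z₀ E₀ δ₀) {n : ℕ} {M s : ℝ}
    (hM : ∀ z, infDist z E₀ = s → ‖f^[n] z‖ ≤ M) {z : ℂ}
    (hz : z ∈ closure (G E₀ s)) : ‖f^[n] z‖ ≤ M := by
  apply Complex.norm_le_of_forall_mem_frontier_norm_le (S.isBounded_G s)
    (S.diff_iter n).diffContOnCl _ hz
  intro w hw
  exact hM w (frontier_G E₀ s hw)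

theorem le_closure_G {s t : ℝ} (h : s < t) {z : ℂ} (hz : infDist z E₀ ≤ s) : z ∈ G E₀ t :=
  lt_of_le_of_lt hz h

theorem Setup.not_const (S : Setup f W z₀ E₀ δ₀) (n : ℕ) : IsOpenMap (f^[n]) := by
  have hfo : IsOpenMap f := by
    have han : AnalyticOnNhd ℂ f univ := fun z _ => S.hf.analyticAt z
    rcases han.is_constant_or_isOpenMap with ⟨v, hv⟩ | h
    · exfalso
      apply S.hft
      exact ⟨Polynomial.C v, fun z => by rw [hv z, Polynomial.eval_C]⟩
    · exact h
  induction n with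
  | zero => exact IsOpenMap.id
  | succ n ih =>
    rw [Function.iterate_succ']
    exact hfo.comp ih

/-- Either the image of `G` covers the disc of radius `m`, or it misses it. -/
theorem Setup.covers (S : Setup f W z₀ E₀ δ₀) {n : ℕ} {m s : ℝ}
    (hm : ∀ z, infDist z E₀ = s → m ≤ ‖f^[n] z‖)
    (hex : ∃ z ∈ G E₀ s, ‖f^[n] z‖ < m) : ball (0 : ℂ) m ⊆ f^[n] '' G E₀ s := by
  have hcl : IsCompact (closure (G E₀ s)) :=
    (S.isBounded_G s).isCompact_closure
  apply IsPreconnected.subset_left_of_subset_union (S.not_const n _ (isOpen_G E₀ s))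
    (hcl.image (S.diff_iter n).continuous).isClosed.isOpen_compl
  · rw [Set.disjoint_left]
    rintro x ⟨z, hz, rfl⟩ hx
    exact hx ⟨z, subset_closure hz, rfl⟩
  · intro x hx
    by_cases hxA : x ∈ f^[n] '' closure (G E₀ s)
    · left
      obtain ⟨z, hz, rfl⟩ := hxA
      refine ⟨z, ?_, rfl⟩
      have h1 : infDist z E₀ ≤ s := closure_G E₀ s hz
      show infDist z E₀ < s
      apply lt_of_le_of_ne h1
      intro heq
      have := hm z heq
      rw [mem_ball, dist_zero_right] at hx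
      linarith
    · right
      exact hxA
  · obtain ⟨z, hz, hzm⟩ := hex
    exact ⟨f^[n] z, by rw [mem_ball, dist_zero_right]; exact hzm, z, hz, rfl⟩
  · exact (convex_ball _ _).isPreconnected

end

end Pool.Agent.Helper85.BWD
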