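import Pool.Agent.Helper85.BWD.Components
import Pool.Agent.Helper85.BWD.BigAnnuli
import Pool.Agent.Helper85.BWD.Drift
set_option autoImplicit false
namespace Pool.Agent.Helper85.BWD
open Filter Topology Set Metric

theorem tendsto_infty_iff {x : ℕ → ℂ} :
    Tendsto (fun n => ((x n : ℂ) : OnePoint ℂ)) atTop (𝓝 OnePoint.infty) ↔
      Tendsto (fun n => ‖x n‖) atTop atTop := by
  rw [tendsto_norm_atTop_iff_cobounded, Metric.cobounded_eq_cocompact,
    ← coclosedCompact_eq_cocompact, ← OnePoint.comap_coe_nhds_infty, tendsto_comap_iff]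
  rfl

section
variable {f : ℂ → ℂ} {U : ℕ → Set ℂ}

theorem bwd_orbit (hf : Differentiable ℂ f) (hU : IsBakerWanderingDomain f U) {z : ℂ}
    (hz : z ∈ U 0) (n : ℕ) : f^[n] z ∈ U n := by
  obtain ⟨w, hw, h⟩ := hU.orbit n z hz
  rw [entire_iter hf, OnePoint.coe_eq_coe] at h
  rwa [h]

theorem bwd_forward (hf : Differentiable ℂ f)
    (hft : ¬ ∃ p : Polynomial ℂ, ∀ z, f z = p.eval z) (hU : IsBakerWanderingDomain f U)
    (n : ℕ) : ∀ z ∈ U n, f z ∈ U (n + 1) := by
  obtain ⟨z₀, hz₀⟩ := (hU.component 0).nonempty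
  have h1 : f '' U n ⊆ U (n + 1) := by
    apply (hU.component (n + 1)).subset_of_inter
    · exact (hU.component n).isPreconnected.image _ hf.continuous.continuousOn
    · rintro _ ⟨z, hz, rfl⟩
      exact entire_forward hf hft (hU.component n) hz
    · refine ⟨f^[n + 1] z₀, ⟨f^[n] z₀, bwd_orbit hf hU hz₀ n, ?_⟩, bwd_orbit hf hU hz₀ (n + 1)⟩
      rw [Function.iterate_succ_apply']
  intro z hz
  exact h1 ⟨z, hz, rfl⟩

theorem bwd_forward_iter (hf : Differentiable ℂ f)
    (hft : ¬ ∃ p : Polynomial ℂ, ∀ z, f z = p.eval z) (hU : IsBakerWanderingDomain f U)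
    (n k : ℕ) : ∀ z ∈ U n, f^[k] z ∈ U (n + k) := by
  induction k with
  | zero => intro z hz; exact hz
  | succ k ih =>
    intro z hz
    rw [Function.iterate_succ_apply']
    exact bwd_forward hf hft hU (n + k) _ (ih z hz)

theorem bwd_escape (hf : Differentiable ℂ f) (hU : IsBakerWanderingDomain f U) {z : ℂ}
    (hz : z ∈ U 0) : Tendsto (fun n => ‖f^[n] z‖) atTop atTop := by
  rw [← tendsto_infty_iff]
  have := hU.escaping z hz
  refine this.congr (fun n => ?_)
  rw [entire_iter hf]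

theorem bwd_setup (hf : Differentiable ℂ f)
    (hft : ¬ ∃ p : Polynomial ℂ, ∀ z, f z = p.eval z) (hU : IsBakerWanderingDomain f U) :
    ∃ N : ℕ, ∃ z₀ : ℂ, ∃ E₀ : Set ℂ, ∃ δ₀ : ℝ, Setup f (U N) z₀ E₀ δ₀ := by
  obtain ⟨N, hN⟩ := hU.surrounds.exists
  obtain ⟨z, hz⟩ := (hU.component 0).nonempty
  obtain ⟨E₀, hE₀, h0, hdisj, δ₀, hδ₀, hcol⟩ := exists_separation (hU.component N).isOpen hN.2.2
  refine ⟨N, f^[N] z, E₀, δ₀, hf, hft, entire_eqFamily hf (hU.component N),
    bwd_orbit hf hU hz N, ?_, hE₀, h0, hδ₀, hcol, ?_⟩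
  · have h1 := (tendsto_add_atTop_iff_nat N).mpr (bwd_escape hf hU hz)
    refine h1.congr (fun n => ?_)
    rw [Function.iterate_add_apply]
  · intro s hs hsδ hesc
    have hG : G E₀ s ⊆ fatouSet f := by
      apply subset_fatou_of_escape (isOpen_G E₀ s)
      · intro n w _
        rw [entire_iter hf]
        exact OnePoint.coe_ne_infty _
      · intro R
        filter_upwards [hesc R] with n hn z hz
        rw [entire_fv_iter hf]
        exact hn z hz
    -- a frontier point of `E₀`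
    have hfr : (frontier E₀).Nonempty := by
      apply nonempty_frontier_iff.mpr
      refine ⟨⟨0, h0⟩, ?_⟩
      intro huniv
      rw [huniv] at hE₀
      exact noncompact_univ ℂ hE₀
    obtain ⟨e, he⟩ := hfr
    have heE : e ∈ E₀ := hE₀.isClosed.frontier_subset he
    have hball : ball e s ⊆ G E₀ s := by
      intro w hw
      exact (infDist_lt_iff ⟨0, h0⟩).mpr ⟨e, heE, hw⟩
    have hcl : e ∈ closure (E₀ᶜ) := by
      rw [frontier_eq_closure_inter_closure] at he
      exact he.2
    obtain ⟨w, hwE, hwe⟩ := Metric.mem_closure_iff.mp hcl s hs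
    have hwb : w ∈ ball e s := by
      rw [mem_ball, dist_comm]
      exact hwe
    have hwU : w ∈ U N := hcol w hwE (lt_trans (hball hwb) hsδ)
    have h2 := (hU.component N).subset_of_inter (convex_ball e s).isPreconnected
      (hball.trans hG) ⟨w, hwb, hwU⟩
    exact (Set.disjoint_left.mp hdisj) heE (h2 (mem_ball_self hs))

/-- The wandering components eventually avoid the unit disc. -/
theorem bwd_one_lt (hf : Differentiable ℂ f)
    (hft : ¬ ∃ p : Polynomial ℂ, ∀ z, f z = p.eval z) (hU : IsBakerWanderingDomain f U) :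
    ∀ᶠ j in atTop, ∀ z ∈ U j, 1 < ‖z‖ := by
  obtain ⟨N, z₀, E₀, δ₀, S⟩ := bwd_setup hf hft hU
  obtain ⟨n, Ω, hΩo, hΩb, hball, hfr⟩ := (S.surround 2).exists
  obtain ⟨z, hz⟩ := (hU.component 0).nonempty
  obtain ⟨B, hB⟩ := hΩb.subset_closedBall (0 : ℂ)
  filter_upwards [(bwd_escape hf hU hz).eventually_gt_atTop B, eventually_gt_atTop (N + n)]
    with j hj hjn w hw
  have hfrU : frontier Ω ⊆ U (N + n) := by
    refine hfr.trans ?_
    rintro _ ⟨x, hx, rfl⟩
    exact bwd_forward_iter hf hft hU N n x hx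
  have hdisj : Disjoint (U j) (U (N + n)) := hU.wandering j (N + n) (by omega)
  have hsub : U j ⊆ (closure Ω)ᶜ := by
    apply (hU.component j).isPreconnected.subset_left_of_subset_union
      isClosed_closure.isOpen_compl hΩo
    · rw [Set.disjoint_left]
      intro x hx hx'
      exact hx (subset_closure hx')
    · intro x hx
      by_cases hxΩ : x ∈ Ω
      · exact Or.inr hxΩ
      · left
        intro hxc
        have : x ∈ frontier Ω := by
          rw [frontier, hΩo.interior_eq]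
          exact ⟨hxc, hxΩ⟩
        exact (Set.disjoint_left.mp hdisj) hx (hfrU this)
    · refine ⟨f^[j] z, bwd_orbit hf hU hz j, ?_⟩
      intro hx
      have h1 : closure Ω ⊆ closedBall (0 : ℂ) B := closure_minimal hB isClosed_closedBall
      have h2 := h1 hx
      rw [mem_closedBall, dist_zero_right] at h2
      linarith
  by_contra hle
  push Not at hle
  have : w ∈ Ω := hball (by rw [mem_ball, dist_zero_right]; linarith)
  exact hsub hw (subset_closure this)

/-- The annulus hypotheses hold far out. -/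
theorem bwd_annulusHyp (hf : Differentiable ℂ f)
    (hft : ¬ ∃ p : Polynomial ℂ, ∀ z, f z = p.eval z) (hU : IsBakerWanderingDomain f U) (M : ℕ) :
    ∃ m : ℕ, M ≤ m ∧ ∃ ρ κ : ℝ, AnnulusHyp f (fun j => U (m + j)) ρ κ := by
  have hpi := Real.pi_pos
  obtain ⟨N, z₀, E₀, δ₀, S⟩ := bwd_setup hf hft hU
  obtain ⟨c, hc0, hc1, hann⟩ := S.big_annuli
  obtain ⟨J, hJ⟩ := eventually_atTop.mp (bwd_one_lt hf hft hU)
  obtain ⟨r₀, hr₀⟩ := growth_of_not_polynomial hf hft 27
  set R : ℝ := max (max (16 * Real.pi / c) (2 * avgLog f 0 / c))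
    (max (1024 * Real.pi / c ^ 2) (2 * r₀ / c)) with hR
  obtain ⟨n, hn, hnM⟩ := ((hann R).and (eventually_ge_atTop (max M J))).exists
  obtain ⟨ρ, hRρ, hρ⟩ := hn
  have h1 : 16 * Real.pi / c ≤ ρ := ((le_max_left _ _).trans (le_max_left _ _)).trans hRρ
  have h2 : 2 * avgLog f 0 / c ≤ ρ := ((le_max_right _ _).trans (le_max_left _ _)).trans hRρ
  have h3 : 1024 * Real.pi / c ^ 2 ≤ ρ := ((le_max_left _ _).trans (le_max_right _ _)).trans hRρ
  have h4 : 2 * r₀ / c ≤ ρ := ((le_max_right _ _).trans (le_max_right _ _)).trans hRρ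
  rw [div_le_iff₀ hc0] at h1 h2 h4
  rw [div_le_iff₀ (by positivity)] at h3
  have hρ0 : 0 < ρ := by
    by_contra hneg
    push Not at hneg
    nlinarith
  refine ⟨N + n, by have := le_max_left M J; omega, ρ, c * ρ, ?_⟩
  refine ⟨hf, ?_, ?_, ?_, ?_, ?_, ?_, ?_, ?_⟩
  · intro j z hz
    exact hJ (N + n + j) (by have := le_max_right M J; omega) z hz
  · intro j z hz
    exact bwd_forward hf hft hU (N + n + j) z hz
  · intro z hz hzρ
    obtain ⟨x, hx, hxz⟩ := hρ z hz hzρ
    have := bwd_forward_iter hf hft hU N n x hx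
    rw [hxz] at this
    exact this
  · linarith
  · nlinarith
  · linarith
  · have : ρ * (1024 * Real.pi) ≤ ρ * (ρ * c ^ 2) := mul_le_mul_of_nonneg_left h3 hρ0.le
    nlinarith
  · intro r hr
    apply hr₀
    have : c * ρ / 2 ≤ Real.exp (c * ρ / 2) := by
      have := Real.add_one_le_exp (c * ρ / 2)
      linarith
    linarith

end

end Pool.Agent.Helper85.BWD
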